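import Pool.Agent.Work.MP_5bd7f1_co.PD.Draw

-- merged part: Pool.Agent.Work.MP_5bd7f1_co.PD.CycA
section
/-! Cycles and paths as graphs.  Pure graph theory, no planarity.
Plan: `IsPth.cons` by cases on the vertex; `listG` and `arcG` paths by induction with `cons`;
`IsCyc.min`: an even function on a connected 2-regular graph is constant along edges (`bd_two`);
`isCyc_of_min`: for `v ~ x` let `A` be the set reached from `x` in `K - v`; `sum_bd` gives a second
edge `v ~ y` with `y` in `A`; `exists_join` plus the two edges is even, hence equal to `ind K`;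
`IsCyc.exists_cyc`: `SimpleGraph.IsCycles.exists_cycle_toSubgraph_verts_eq_connectedComponentSupp`
or a maximal injective chain. -/

set_option autoImplicit false
open Relation

namespace Pool.Agent.Pl

variable {V : Type}

section
variable {G : SimpleGraph V} {m : ℕ} {F : ℤ → V} {i j a b : ℤ} {u v : V}

theorem CycA_step (h : Cyc G m F) (e : F i = F j) (k : ℤ) : F (i + k) = F (j + k) :=
  (h.2.2 _ _).2 (by simpa using (h.2.2 _ _).1 e)

theorem CycA_inj (h : Cyc G m F) (h1 : i < j) (h2 : j < i + m) : F j ≠ F i := fun e => by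
  have := Int.le_of_dvd (by omega) ((h.2.2 _ _).1 e)
  omega

theorem CycA_two (h : Cyc G m F) (e : F i = F (j + 1)) : F (i + 1) ≠ F j := fun e' =>
  CycA_inj h (by omega) (by have := h.1; omega) ((CycA_step h e 1).symm.trans e')

theorem CycA_adj (h : Cyc G m F) : (cycG F).Adj u v ↔
    ∃ i, (u = F i ∧ v = F (i + 1)) ∨ (v = F i ∧ u = F (i + 1)) := by
  rw [cycG, SimpleGraph.fromRel_adj, exists_or, and_iff_right_iff_imp]
  rintro (⟨i, rfl, rfl⟩ | ⟨i, rfl, rfl⟩)
  exacts [(h.2.1 i).ne, (h.2.1 i).ne']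

theorem CycA_arc (h : Cyc G m F) : (arcG F a b).Adj u v ↔
    ∃ i, a ≤ i ∧ i < b ∧ ((u = F i ∧ v = F (i + 1)) ∨ (v = F i ∧ u = F (i + 1))) := by
  simp only [arcG, SimpleGraph.fromRel_adj, and_or_left, exists_or]
  rw [← and_or_left, and_iff_right_iff_imp]
  rintro (⟨i, -, -, rfl, rfl⟩ | ⟨i, -, -, rfl, rfl⟩)
  exacts [(h.2.1 i).ne, (h.2.1 i).ne']

end

theorem cycG_adj {G : SimpleGraph V} {m : ℕ} {F : ℤ → V} (h : Cyc G m F) (i : ℤ) (w : V) :
    (cycG F).Adj (F i) w ↔ w = F (i + 1) ∨ w = F (i - 1) := by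
  rw [CycA_adj h]
  constructor
  · rintro ⟨j, ⟨e, rfl⟩ | ⟨rfl, e⟩⟩
    · exact .inl (CycA_step h e 1).symm
    · exact .inr (by simpa [sub_eq_add_neg] using (CycA_step h e (-1)).symm)
  · rintro (rfl | rfl)
    exacts [⟨i, .inl ⟨rfl, rfl⟩⟩, ⟨i - 1, .inr ⟨rfl, by simp⟩⟩]

theorem cycG_le {G : SimpleGraph V} {m : ℕ} {F : ℤ → V} (h : Cyc G m F) : cycG F ≤ G := by
  intro u v k
  obtain ⟨i, ⟨rfl, rfl⟩ | ⟨rfl, rfl⟩⟩ := (CycA_adj h).1 k
  exacts [h.2.1 i, (h.2.1 i).symm]

theorem cycG_support {G : SimpleGraph V} {m : ℕ} {F : ℤ → V} (h : Cyc G m F) :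
    (cycG F).support = Set.range F := by
  ext x
  constructor
  · rintro ⟨w, k⟩
    obtain ⟨i, ⟨rfl, -⟩ | ⟨-, rfl⟩⟩ := (CycA_adj h).1 k <;> exact ⟨_, rfl⟩
  · rintro ⟨i, rfl⟩
    exact ⟨_, (cycG_adj h i _).2 (.inl rfl)⟩

theorem Cyc.isCyc {G : SimpleGraph V} {m : ℕ} {F : ℤ → V} (h : Cyc G m F) : IsCyc (cycG F) := by
  have r : ∀ i, (cycG F).Reachable (F 0) (F i) := fun i => by
    induction i using Int.induction_on with
    | zero => rfl
    | succ i ih => exact ih.trans ((cycG_adj h _ _).2 (.inl rfl)).reachable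
    | pred i ih => exact ih.trans ((cycG_adj h _ _).2 (.inr rfl)).reachable
  rw [IsCyc, cycG_support h]
  refine ⟨fun e => ?_, ?_, ?_⟩
  · have := (cycG_adj h 0 _).2 (.inl rfl)
    rwa [e] at this
  · rintro _ ⟨i, rfl⟩
    exact ⟨_, _, CycA_inj h (by omega) (by have := h.1; omega), cycG_adj h i⟩
  · rintro _ ⟨i, rfl⟩ _ ⟨j, rfl⟩
    exact (r i).symm.trans (r j)

theorem Cyc.shift {G : SimpleGraph V} {m : ℕ} {F : ℤ → V} (h : Cyc G m F) (k : ℤ) :
    Cyc G m (fun i => F (i + k)) ∧ cycG (fun i => F (i + k)) = cycG F := by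
  refine ⟨⟨h.1, fun i => by simpa [add_right_comm] using h.2.1 (i + k),
    fun i j => by simpa using h.2.2 (i + k) (j + k)⟩, ?_⟩
  unfold cycG
  congr 1
  ext x y
  exact ⟨fun ⟨i, a, b⟩ => ⟨i + k, a, by rw [b, add_right_comm]⟩,
    fun ⟨i, a, b⟩ => ⟨i - k, by simpa using a, by rw [b]; congr 1; ring⟩⟩

theorem Cyc.rev {G : SimpleGraph V} {m : ℕ} {F : ℤ → V} (h : Cyc G m F) :
    Cyc G m (fun i => F (-i)) ∧ cycG (fun i => F (-i)) = cycG F := by
  have h' : Cyc G m fun i => F (-i) := ⟨h.1, fun i => by simpa using (h.2.1 (-(i + 1))).symm,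
    fun i j => by rw [h.2.2, neg_sub_neg, dvd_sub_comm]⟩
  refine ⟨h', ?_⟩
  ext u v
  rw [CycA_adj h', CycA_adj h]
  exact ⟨fun ⟨i, k⟩ => ⟨-(i + 1), by simpa [and_comm] using k.symm⟩,
    fun ⟨i, k⟩ => ⟨-(i + 1), by simpa [and_comm] using k.symm⟩⟩

theorem arcG_le {G : SimpleGraph V} {m : ℕ} {F : ℤ → V} (h : Cyc G m F) (a b : ℤ) :
    arcG F a b ≤ cycG F := by
  intro u v k
  obtain ⟨i, -, -, k⟩ := (CycA_arc h).1 k
  exact (CycA_adj h).2 ⟨i, k⟩

theorem arcG_support {G : SimpleGraph V} {m : ℕ} {F : ℤ → V} (h : Cyc G m F) {a b : ℤ}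
    (hab : a < b) : (arcG F a b).support = {x | ∃ i, a ≤ i ∧ i ≤ b ∧ x = F i} := by
  ext x
  constructor
  · rintro ⟨w, k⟩
    obtain ⟨i, h1, h2, ⟨rfl, -⟩ | ⟨-, rfl⟩⟩ := (CycA_arc h).1 k
    exacts [⟨i, h1, h2.le, rfl⟩, ⟨i + 1, by omega, h2, rfl⟩]
  · rintro ⟨i, h1, h2, rfl⟩
    rcases h2.lt_or_eq with k | k
    · exact ⟨_, (CycA_arc h).2 ⟨i, h1, k, .inl ⟨rfl, rfl⟩⟩⟩
    · exact ⟨_, (CycA_arc h).2 ⟨i - 1, by omega, by omega, .inr ⟨rfl, by simp⟩⟩⟩

theorem arcG_sup {G : SimpleGraph V} {m : ℕ} {F : ℤ → V} (h : Cyc G m F) {a b : ℤ}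
    (hab : a < b) (hb : b < a + m) :
    arcG F a b ⊔ arcG F b (a + m) = cycG F ∧ arcG F a b ⊓ arcG F b (a + m) = ⊥ := by
  refine ⟨le_antisymm (sup_le (arcG_le h _ _) (arcG_le h _ _)) fun u v k => ?_,
    eq_bot_iff.2 fun u v k => ?_⟩
  · obtain ⟨i, k⟩ := (CycA_adj h).1 k
    have h1 := Int.emod_nonneg (i - a) (b := m) (by omega)
    have h2 := Int.emod_lt_of_pos (i - a) (b := m) (by omega)
    have e : F i = F (a + (i - a) % m) := (h.2.2 _ _).2 (by
      rw [← sub_sub]
      exact Int.dvd_self_sub_emod)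
    rw [CycA_step h e 1, e] at k
    rcases lt_or_ge (a + (i - a) % m) b with c | c
    · exact .inl ((CycA_arc h).2 ⟨_, by omega, c, k⟩)
    · exact .inr ((CycA_arc h).2 ⟨_, c, by omega, k⟩)
  · obtain ⟨i, h1, h2, k1⟩ := (CycA_arc h).1 k.1
    obtain ⟨j, h3, h4, k2⟩ := (CycA_arc h).1 k.2
    have c : F j ≠ F i := CycA_inj h (by omega) (by omega)
    rcases k1 with ⟨rfl, rfl⟩ | ⟨rfl, rfl⟩ <;> rcases k2 with ⟨e, e'⟩ | ⟨e, e'⟩
    exacts [c e.symm, CycA_two h e' e, CycA_two h e' e, c e.symm]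

theorem IsPth.symm {K : SimpleGraph V} {a b : V} (h : IsPth K a b) : IsPth K b a := by
  obtain ⟨h1, h2, ⟨x, hx⟩, h4, h5⟩ := h
  exact ⟨h1.symm, ⟨x, hx⟩, h2, fun v hv c d => h4 v hv d c,
    fun v hv => (h5 b ⟨x, (hx x).2 rfl⟩).symm.trans (h5 v hv)⟩

theorem CycA_edge {a b : V} (h : a ≠ b) : (SimpleGraph.edge a b).Adj a b :=
  (SimpleGraph.edge_adj ..).2 ⟨.inl ⟨rfl, rfl⟩, h⟩

theorem CycA_supp {a b : V} (h : a ≠ b) : (SimpleGraph.edge a b).support = {a, b} := by
  ext x
  constructor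
  · rintro ⟨w, k⟩
    exact ((SimpleGraph.edge_adj ..).1 k).1.imp And.left And.left
  · rintro (rfl | rfl)
    exacts [⟨_, CycA_edge h⟩, ⟨_, (CycA_edge h).symm⟩]

theorem CycA_sup (K L : SimpleGraph V) : (K ⊔ L).support = K.support ∪ L.support := by
  ext x
  simp only [Set.mem_union, SimpleGraph.mem_support, SimpleGraph.sup_adj, exists_or]

theorem isPth_edge {a b : V} (h : a ≠ b) : IsPth (SimpleGraph.edge a b) a b := by
  refine ⟨h, ⟨b, by grind⟩, ⟨a, by grind⟩, ?_, ?_⟩
  · rw [CycA_supp h]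
    rintro v (rfl | rfl) c d <;> contradiction
  · rw [CycA_supp h]
    rintro v (rfl | rfl)
    exacts [.refl _, (CycA_edge h).reachable]

theorem IsPth.cons {K : SimpleGraph V} {a b c : V} (h : IsPth K a b) (hc : c ∉ K.support) :
    IsPth (K ⊔ SimpleGraph.edge c a) c b := by
  obtain ⟨h1, ⟨x, hx⟩, ⟨y, hy⟩, h4, h5⟩ := h
  have n1 : ∀ w, ¬K.Adj c w := fun w k => hc ⟨w, k⟩
  have ca : c ≠ a := fun e => n1 x (e ▸ (hx x).2 rfl)
  have cb : c ≠ b := fun e => n1 y (e ▸ (hy y).2 rfl)
  have xc : x ≠ c := fun e => n1 a (e ▸ ((hx x).2 rfl).symm)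
  have r : (K ⊔ SimpleGraph.edge c a).Reachable c a := SimpleGraph.Adj.reachable (.inr (CycA_edge ca))
  rw [IsPth, CycA_sup, CycA_supp ca]
  simp only [SimpleGraph.sup_adj, SimpleGraph.edge_adj]
  refine ⟨cb, ⟨a, by grind⟩, ⟨y, by grind⟩, fun v hv d e => ?_, ?_⟩
  · by_cases k : v = a
    · exact ⟨x, c, xc, by grind⟩
    · obtain ⟨p, q, hp, hq⟩ := h4 v (by grind) k e
      exact ⟨p, q, hp, by grind⟩
  · rintro v (k | rfl | rfl)
    exacts [r.trans ((h5 v k).mono le_sup_left), .refl _, r]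

theorem arcG_isPth {G : SimpleGraph V} {m : ℕ} {F : ℤ → V} (h : Cyc G m F) {a b : ℤ}
    (hab : a < b) (hb : b < a + m) : IsPth (arcG F a b) (F a) (F b) := by
  have e : ∀ a, a < b → arcG F a b = arcG F (a + 1) b ⊔ SimpleGraph.edge (F a) (F (a + 1)) := by
    intro a ha
    ext u v
    rw [SimpleGraph.sup_adj, CycA_arc h, CycA_arc h, SimpleGraph.edge_adj]
    have := (h.2.1 a).ne
    constructor
    · rintro ⟨i, h1, h2, k⟩
      rcases h1.lt_or_eq with c | rfl
      · exact .inl ⟨i, c, h2, k⟩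
      · exact .inr (by grind)
    · rintro (⟨i, h1, h2, k⟩ | k)
      exacts [⟨i, by omega, h2, k⟩, ⟨a, le_rfl, ha, by grind⟩]
  obtain ⟨n, hn⟩ : ∃ n : ℕ, b = a + n + 1 := ⟨(b - a - 1).toNat, by omega⟩
  induction n generalizing a with
  | zero =>
    have : arcG F (a + 1) b = ⊥ := eq_bot_iff.2 fun u v k => by
      obtain ⟨i, h1, h2, -⟩ := (CycA_arc h).1 k
      omega
    rw [e a hab, this, bot_sup_eq, show b = a + 1 by omega]
    exact isPth_edge (h.2.1 a).ne
  | succ n ih =>
    rw [e a hab]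
    refine (ih (by omega) (by omega) (by omega)).cons ?_
    rw [arcG_support h (by omega)]
    rintro ⟨i, h1, h2, k⟩
    exact CycA_inj h (by omega) (by omega) k.symm

theorem listG_cons (a b : V) (l : List V) :
    listG (a :: b :: l) = listG (b :: l) ⊔ SimpleGraph.edge a b := by
  ext u v
  simp only [listG, SimpleGraph.sup_adj, SimpleGraph.fromRel_adj, SimpleGraph.edge_adj,
    List.infix_cons_iff (a := a), List.cons_prefix_cons, List.nil_prefix, and_true]
  tauto

theorem listG_single (a : V) : listG [a] = ⊥ := by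
  refine eq_bot_iff.2 fun u v k => ?_
  rcases ((SimpleGraph.fromRel_adj ..).1 k).2 with k | k <;> simpa using k.length_le

theorem listG_le {G : SimpleGraph V} {l : List V} (h : List.IsChain G.Adj l) : listG l ≤ G := by
  intro u v k
  rcases ((SimpleGraph.fromRel_adj ..).1 k).2 with ⟨s, t, rfl⟩ | ⟨s, t, rfl⟩
  exacts [List.isChain_pair.1 h.left_of_append.right_of_append,
    (List.isChain_pair.1 h.left_of_append.right_of_append).symm]

theorem CycA_list {a b : V} {q : List V} (h : (a :: q ++ [b]).Nodup) :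
    (listG (a :: q ++ [b])).support = {x | x ∈ a :: q ++ [b]} ∧
      IsPth (listG (a :: q ++ [b])) a b := by
  induction q generalizing a with
  | nil =>
    have k : a ≠ b := by simpa using h
    rw [List.singleton_append, listG_cons, listG_single, bot_sup_eq, CycA_supp k]
    exact ⟨by ext; simp, isPth_edge k⟩
  | cons c q ih =>
    rw [List.cons_append, List.nodup_cons] at h
    obtain ⟨h1, h2⟩ := ih h.2
    have k : a ≠ c := fun e => h.1 (by simp [e])
    rw [List.cons_append, List.cons_append, listG_cons, ← List.cons_append, CycA_sup, h1,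
      CycA_supp k]
    exact ⟨by ext; simp, h2.cons (h1 ▸ h.1)⟩

theorem listG_support {a b : V} {q : List V} (h : (a :: q ++ [b]).Nodup) :
    (listG (a :: q ++ [b])).support = {x | x ∈ a :: q ++ [b]} := by
  exact (CycA_list h).1

theorem listG_isPth {a b : V} {q : List V} (h : (a :: q ++ [b]).Nodup) :
    IsPth (listG (a :: q ++ [b])) a b := by
  exact (CycA_list h).2

/-- two paths with the same ends and nothing else in common form a cycle -/
theorem IsPth.isCyc {K L : SimpleGraph V} {a b : V} (hK : IsPth K a b) (hL : IsPth L a b)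
    (hv : ∀ x, x ∈ K.support → x ∈ L.support → x = a ∨ x = b) (he : K ⊓ L = ⊥) :
    IsCyc (K ⊔ L) := by
  have ends : ∀ {a b}, IsPth K a b → IsPth L a b →
      ∃ x y, x ≠ y ∧ ∀ w, (K ⊔ L).Adj a w ↔ w = x ∨ w = y := fun hK hL => by
    obtain ⟨x, hx⟩ := hK.2.1
    obtain ⟨y, hy⟩ := hL.2.1
    exact ⟨x, y, fun e => he.le ⟨(hx x).2 rfl, (hy x).2 e⟩, fun w => or_congr (hx w) (hy w)⟩
  have r : ∀ v ∈ K.support ∪ L.support, (K ⊔ L).Reachable a v := by
    rintro v (k | k)
    exacts [(hK.2.2.2.2 v k).mono le_sup_left, (hL.2.2.2.2 v k).mono le_sup_right]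
  rw [IsCyc, CycA_sup]
  refine ⟨fun e => ?_, fun v k => ?_, fun u hu v k => (r u hu).symm.trans (r v k)⟩
  · obtain ⟨x, y, -, h⟩ := ends hK hL
    exact e.le ((h x).2 (.inl rfl))
  rcases eq_or_ne v a with rfl | ha
  · exact ends hK hL
  rcases eq_or_ne v b with rfl | hb
  · exact ends hK.symm hL.symm
  rcases k with k | k
  · obtain ⟨x, y, h1, h2⟩ := hK.2.2.2.1 v k ha hb
    exact ⟨x, y, h1, fun w => (or_iff_left fun c => (hv v k ⟨w, c⟩).elim ha hb).trans (h2 w)⟩
  · obtain ⟨x, y, h1, h2⟩ := hL.2.2.2.1 v k ha hb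
    exact ⟨x, y, h1, fun w => (or_iff_right fun c => (hv v ⟨w, c⟩ k).elim ha hb).trans (h2 w)⟩

theorem loopG_isCyc {l : List V} (h : l.Nodup) (h3 : 3 ≤ l.length) :
    IsCyc (loopG l) ∧ (loopG l).support = {x | x ∈ l} := by
  match l, h, h3 with
  | a :: b :: c :: r, h, _ =>
  have h' : (b :: c :: r ++ [a]).Nodup := List.perm_append_singleton a _ |>.nodup_iff.2 h
  obtain ⟨h1, h2⟩ := CycA_list h'
  have ab : a ≠ b := by grind
  have e : loopG (a :: b :: c :: r) = listG (b :: c :: r ++ [a]) ⊔ SimpleGraph.edge a b :=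
    listG_cons a b (c :: r ++ [a])
  rw [e, CycA_sup, h1, CycA_supp ab]
  refine ⟨h2.isCyc (isPth_edge ab).symm (fun x _ k => ?_) (eq_bot_iff.2 fun u v k => ?_),
    by ext; simp; (clear * -; tauto)⟩
  · rw [CycA_supp ab] at k
    exact k.symm
  · obtain ⟨x, hx⟩ := h2.2.1
    have k1 : (listG (b :: c :: r ++ [a])).Adj b c := by
      rw [List.cons_append, List.cons_append, listG_cons]
      exact .inr (CycA_edge (by grind))
    have k2 : ¬(listG (b :: c :: r ++ [a])).Adj b a := fun k => by grind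
    rcases ((SimpleGraph.edge_adj ..).1 k.2).1 with ⟨rfl, rfl⟩ | ⟨rfl, rfl⟩
    exacts [k2 k.1.symm, k2 k.1]

end Pool.Agent.Pl
end

-- merged part: Pool.Agent.Work.MP_5bd7f1_co.PD.Cyc
section
/-! Cycles and paths as graphs.  Pure graph theory, no planarity.
Plan: `IsPth.cons` by cases on the vertex; `listG` and `arcG` paths by induction with `cons`;
`IsCyc.min`: an even function on a connected 2-regular graph is constant along edges (`bd_two`);
`isCyc_of_min`: for `v ~ x` let `A` be the set reached from `x` in `K - v`; `sum_bd` gives a second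
edge `v ~ y` with `y` in `A`; `exists_join` plus the two edges is even, hence equal to `ind K`;
`IsCyc.exists_cyc`: `SimpleGraph.IsCycles.exists_cycle_toSubgraph_verts_eq_connectedComponentSupp`
or a maximal injective chain. -/

set_option autoImplicit false
open Relation

namespace Pool.Agent.Pl

variable {V : Type}

theorem IsCyc.even [Fintype V] {K : SimpleGraph V} (h : IsCyc K) (v : V) :
    bd K (ind K) v = 0 := by
  by_cases hv : v ∈ K.support
  · obtain ⟨x, y, hxy, hw⟩ := h.2.1 v hv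
    have hx := (hw x).2 (Or.inl rfl)
    have hy := (hw y).2 (Or.inr rfl)
    rw [bd_two hx hy hxy fun w h1 h2 h3 => (((hw w).1 h1).elim h2 h3).elim, ind_of_adj hx,
      ind_of_adj hy, z2_add_self]
  · exact bd_none fun w hw => (hv ⟨w, hw⟩).elim

/-- an even function on a cycle is constant -/
theorem IsCyc.min [Fintype V] {K : SimpleGraph V} (h : IsCyc K) {S : Sym2 V → ZMod 2}
    (hS : ∀ v, bd K S v = 0) : ∃ t, ∀ u v, K.Adj u v → S s(u, v) = t := by
  have loc : ∀ v w w', K.Adj v w → K.Adj v w' → S s(v, w) = S s(v, w') := by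
    intro v w w' h1 h2
    obtain ⟨x, y, hxy, hw⟩ := h.2.1 v ⟨w, h1⟩
    have e := hS v
    rw [bd_two ((hw x).2 (Or.inl rfl)) ((hw y).2 (Or.inr rfl)) hxy
      fun w h1 h2 h3 => (((hw w).1 h1).elim h2 h3).elim] at e
    have e' : S s(v, x) = S s(v, y) := by
      rw [eq_neg_of_add_eq_zero_left e, ZMod.neg_eq_self_mod_two]
    rcases (hw w).1 h1 with rfl | rfl <;> rcases (hw w').1 h2 with rfl | rfl <;> simp [e']
  obtain ⟨a, b, hab⟩ := SimpleGraph.ne_bot_iff_exists_adj.1 h.1
  have key : ∀ u, ReflTransGen K.Adj a u → ∀ v, K.Adj u v → S s(u, v) = S s(a, b) := by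
    intro u hu
    induction hu with
    | refl => exact fun v hv => loc _ _ _ hv hab
    | tail _ h1 ih => exact fun v hv => by rw [loc _ _ _ hv h1.symm, Sym2.eq_swap, ih _ h1]
  exact ⟨_, fun u v huv => key u ((SimpleGraph.reachable_iff_reflTransGen _ _).1
    (h.2.2 a ⟨b, hab⟩ u ⟨v, huv⟩)) v huv⟩

/-- a set that is closed up to one vertex meets all edges -/
theorem Cyc_cut [Fintype V] {K : SimpleGraph V} (he : ∀ v, bd K (ind K) v = 0)
    (hm : ∀ S : Sym2 V → ZMod 2, (∀ v, bd K S v = 0) → ∃ t, ∀ u v, K.Adj u v → S s(u, v) = t)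
    {A : V → Prop} (x : V) (hA : ∀ u w, A u → K.Adj u w → w ≠ x → A w) {a b : V} (ha : A a)
    (hab : K.Adj a b) {u v : V} (huv : K.Adj u v) : A u ∨ A v := by
  classical
  let S : Sym2 V → ZMod 2 := fun e => if ∃ u ∈ e, A u then 1 else 0
  have h1 : ∀ v, v ≠ x → bd K S v = 0 := by
    intro v hv
    by_cases hAv : A v
    · rw [← he v]
      exact bd_congr fun w hw => by rw [ind_of_adj hw]; exact if_pos ⟨v, by simp, hAv⟩
    · refine bd_none fun w hw => if_neg ?_
      rintro ⟨u, hu, hu'⟩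
      rcases Sym2.mem_iff.1 hu with rfl | rfl
      · exact hAv hu'
      · exact hAv (hA _ _ hu' hw.symm hv)
  have h2 : bd K S x = 0 := by
    rw [← sum_bd_univ K S, Finset.sum_eq_single x (fun v _ hv => h1 v hv) (by simp)]
  obtain ⟨t, ht⟩ := hm S fun v => if h : v = x then h ▸ h2 else h1 v h
  have h3 : S s(u, v) = 1 := by
    rw [ht u v huv, ← ht a b hab]
    exact if_pos ⟨a, by simp, ha⟩
  by_contra hc
  rw [show S s(u, v) = 0 from if_neg (by simpa using hc)] at h3
  exact zero_ne_one h3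

theorem isCyc_of_min [Fintype V] {K : SimpleGraph V} (h0 : K ≠ ⊥) (he : ∀ v, bd K (ind K) v = 0)
    (hm : ∀ S : Sym2 V → ZMod 2, (∀ v, bd K S v = 0) → ∃ t, ∀ u v, K.Adj u v → S s(u, v) = t) :
    IsCyc K := by
  classical
  refine ⟨h0, ?_, ?_⟩
  · rintro v ⟨x, hx⟩
    let R : V → V → Prop := fun u w => K.Adj u w ∧ u ≠ v ∧ w ≠ v
    have hv : ∀ u, ReflTransGen R x u → u ≠ v := fun u hu => by
      induction hu with
      | refl => exact hx.ne'
      | tail _ h _ => exact h.2.2
    obtain ⟨y, hy, hyx, hxy⟩ : ∃ y, K.Adj v y ∧ y ≠ x ∧ ReflTransGen R x y := by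
      by_contra hc
      push Not at hc
      have e := sum_bd K (ind K) (Finset.univ.filter fun u => ReflTransGen R x u)
      rw [Finset.sum_eq_zero fun a _ => he a, Finset.sum_eq_single x, Finset.sum_eq_single v,
        if_pos hx.symm, ind_of_adj hx.symm] at e
      · exact zero_ne_one e
      · intro b hb hbv
        refine if_neg fun h => ?_
        simp only [Finset.mem_compl, Finset.mem_filter, Finset.mem_univ, true_and] at hb
        exact hb (.single ⟨h, hx.ne', hbv⟩)
      · intro h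
        simp only [Finset.mem_compl, Finset.mem_filter, Finset.mem_univ, true_and, not_not] at h
        exact (hv v h rfl).elim
      · intro a ha hax
        refine Finset.sum_eq_zero fun b hb => if_neg fun h => ?_
        simp only [Finset.mem_compl, Finset.mem_filter, Finset.mem_univ, true_and] at ha hb
        by_cases hbv : b = v
        · exact hc a (hbv ▸ h.symm) hax ha
        · exact hb (ha.tail ⟨h, hv a ha, hbv⟩)
      · intro h
        exact (h (by simp [ReflTransGen.refl])).elim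
    obtain ⟨J, h1, h2⟩ := exists_join (G := K) (fun u w h => h.1) hxy
    have hJ : ∀ w, J s(v, w) = 0 := fun w => by
      by_contra hc
      obtain ⟨a, b, hab, e⟩ := h1 _ hc
      rcases Sym2.eq_iff.1 e with ⟨rfl, -⟩ | ⟨rfl, -⟩
      · exact hab.2.1 rfl
      · exact hab.2.2 rfl
    obtain ⟨t, ht⟩ := hm ((J + fun e => if e = s(v, x) then 1 else 0) +
      fun e => if e = s(v, y) then 1 else 0) fun w => by
        rw [bd_add, bd_add, h2, bd_edge hx, bd_edge hy]
        generalize (if w = x then 1 else 0 : ZMod 2) = a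
        generalize (if w = y then 1 else 0 : ZMod 2) = b
        generalize (if w = v then 1 else 0 : ZMod 2) = c
        revert a b c
        decide
    refine ⟨x, y, hyx.symm, fun w => ⟨fun hw => ?_, by rintro (rfl | rfl) <;> assumption⟩⟩
    by_contra hc
    push Not at hc
    have e := (ht v w hw).trans (ht v x hx).symm
    simp [hJ, hc.1, hc.2, hyx.symm, hw.ne', hy.ne] at e
  · rintro a ⟨a', ha⟩ b ⟨b', hb⟩
    rcases Cyc_cut he hm (A := K.Reachable a) a (fun u w h1 h2 _ => h1.trans h2.reachable)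
      (.refl a) ha hb with h | h
    · exact h
    · exact h.trans hb.symm.reachable

theorem IsCyc.exists_cyc [Fintype V] {K : SimpleGraph V} (h : IsCyc K) :
    ∃ m F, Cyc K m F ∧ cycG F = K := by
  obtain ⟨a, b, hab⟩ := SimpleGraph.ne_bot_iff_exists_adj.1 h.1
  have hK : K.IsCycles := fun v hv => by
    obtain ⟨x, y, hxy, hw⟩ := h.2.1 v hv
    exact Set.ncard_eq_two.2 ⟨x, y, hxy, Set.ext hw⟩
  obtain ⟨p, hp, -⟩ := hK.exists_cycle_toSubgraph_verts_eq_connectedComponentSupp
    (c := K.connectedComponentMk a) (v := a) rfl ⟨b, hab⟩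
  have h3 := hp.three_le_length
  have m0 : ∀ i : ℤ, 0 ≤ i % p.length ∧ i % p.length < p.length := fun i =>
    ⟨Int.emod_nonneg _ (by omega), Int.emod_lt_of_pos _ (by omega)⟩
  have hF : Cyc K p.length fun i => p.getVert (i % p.length).toNat := by
    refine ⟨h3, fun i => ?_, fun i j => ⟨fun e => ?_, fun e => ?_⟩⟩
    · have := p.adj_getVert_succ (i := (i % p.length).toNat) (by have := m0 i; omega)
      have e := Int.emod_add_emod i p.length 1
      have k := m0 i
      beta_reduce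
      by_cases hi : i % p.length + 1 < p.length
      · rw [Int.emod_eq_of_lt (by omega) hi] at e
        rwa [show ((i + 1) % p.length).toNat = (i % p.length).toNat + 1 by omega]
      · rw [show i % p.length + 1 = p.length by omega, Int.emod_self] at e
        rw [show (i % p.length).toNat + 1 = p.length by omega, p.getVert_length] at this
        simpa only [← e, Int.toNat_zero, p.getVert_zero] using this
    · have k := m0 i
      have k' := m0 j
      have := hp.getVert_injOn' (show (i % p.length).toNat ≤ p.length - 1 by omega)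
        (show (j % p.length).toNat ≤ p.length - 1 by omega) e
      exact Int.dvd_of_emod_eq_zero (Int.emod_eq_emod_iff_emod_sub_eq_zero.1 (by omega))
    · simp only [Int.emod_eq_emod_iff_emod_sub_eq_zero.2 (Int.emod_eq_zero_of_dvd e)]
  refine ⟨_, _, hF, le_antisymm (cycG_le hF) fun u v huv => ?_⟩
  obtain ⟨t, ht⟩ := h.min (S := ind (cycG _)) fun v =>
    (bd_sub (cycG_le hF) fun w _ hw => ind_of_not hw).trans (hF.isCyc.even v)
  have e := (ht u v huv).trans (ht _ _ (hF.2.1 0)).symm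
  rw [ind_of_adj ((cycG_adj hF 0 _).2 (Or.inl rfl))] at e
  by_contra hc
  rw [ind_of_not hc] at e
  exact zero_ne_one e

/-- a cycle stays connected when a vertex is removed -/
theorem IsCyc.twoConn [Fintype V] {K : SimpleGraph V} (h : IsCyc K) : TwoConn K := by
  obtain ⟨a, b, hab⟩ := SimpleGraph.ne_bot_iff_exists_adj.1 h.1
  obtain ⟨x, y, hxy, hw⟩ := h.2.1 a ⟨b, hab⟩
  have hx := (hw x).2 (Or.inl rfl)
  have hy := (hw y).2 (Or.inr rfl)
  refine ⟨⟨a, ⟨b, hab⟩, x, ⟨a, hx.symm⟩, y, ⟨a, hy.symm⟩, hx.ne, hy.ne, hxy⟩, ?_⟩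
  rintro x a b ⟨a', ha⟩ hb hax hbx
  obtain ⟨w, hw, hwx⟩ : ∃ w, K.Adj b w ∧ w ≠ x := by
    obtain ⟨y, z, hyz, hw⟩ := h.2.1 b hb
    by_cases hy : y = x
    · exact ⟨z, (hw z).2 (Or.inr rfl), hy ▸ hyz.symm⟩
    · exact ⟨y, (hw y).2 (Or.inl rfl), hy⟩
  rcases Cyc_cut h.even (fun S => h.min) (A := fun u => u ≠ x ∧
    ReflTransGen (fun u v => K.Adj u v ∧ u ≠ x ∧ v ≠ x) a u) x
    (fun u w h1 h2 h3 => ⟨h3, h1.2.tail ⟨h2, h1.1, h3⟩⟩) ⟨hax, .refl⟩ ha hw with k | k
  · exact k.2
  · exact k.2.tail ⟨hw.symm, hwx, hbx⟩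

end Pool.Agent.Pl
end

-- merged part: Pool.Agent.Work.MP_5bd7f1_co.PD.Face
section
/-! Faces of a 2-connected graph with an abstract dual. -/

set_option autoImplicit false
open Relation

namespace Pool.Agent.Pl

variable {V : Type} [Fintype V]

/-- the edges that have `f` on a side -/
def Dual.star {G : SimpleGraph V} (D : Dual G) (f : D.Fc) : SimpleGraph V where
  Adj u v := G.Adj u v ∧ (D.l s(u, v) = f ∨ D.r s(u, v) = f)
  symm := ⟨fun u v h => ⟨h.1.symm, by rw [Sym2.eq_swap (a := v)]; exact h.2⟩⟩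
  loopless := ⟨fun _ h => G.loopless.irrefl _ h.1⟩

theorem z2_eq_of_add {a b : ZMod 2} (h : a + b = 0) : a = b := by revert a b; decide

omit [Fintype V] in
theorem TwoConn.reach {G : SimpleGraph V} (h : TwoConn G) {a b : V} (ha : a ∈ G.support)
    (hb : b ∈ G.support) : ReflTransGen G.Adj a b := by
  obtain ⟨x, -, y, -, z, -, h1, h2, h3⟩ := h.1
  have : ∃ w, a ≠ w ∧ b ≠ w := by
    by_contra hn
    push Not at hn
    by_cases p : a = x
    · have q1 := hn y (p ▸ h1)
      have q2 := hn z (p ▸ h2)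
      exact h3 (q1.symm.trans q2)
    · have q1 := hn x p
      by_cases p' : a = y
      · exact h2 (q1.symm.trans (hn z (p' ▸ h3)))
      · exact h1 (q1.symm.trans (hn y p'))
  obtain ⟨w, h4, h5⟩ := this
  exact rtg_mono (fun _ _ h => h.1) (h.2 w a b ha hb h4 h5)

omit [Fintype V] in
theorem TwoConn.second {G : SimpleGraph V} (h : TwoConn G) {v x : V} (hx : G.Adj v x) :
    ∃ y, G.Adj v y ∧ y ≠ x := by
  obtain ⟨a, ha, b, hb, c, hc, h1, h2, h3⟩ := h.1
  have : ∃ w ∈ G.support, w ≠ x ∧ w ≠ v := by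
    by_contra hn
    push Not at hn
    by_cases p : a = x
    · exact h3 ((hn b hb (p ▸ h1.symm)).trans (hn c hc (p ▸ h2.symm)).symm)
    · by_cases p' : b = x
      · exact h2 ((hn a ha p).trans (hn c hc (p' ▸ h3.symm)).symm)
      · exact h1 ((hn a ha p).trans (hn b hb p').symm)
  obtain ⟨w, hw, h4, h5⟩ := this
  rcases (h.2 x v w ⟨x, hx⟩ hw hx.ne h4).cases_head with e | ⟨y, hy, -⟩
  · exact absurd e.symm h5
  · exact ⟨y, hy.1, hy.2.2⟩

theorem TwoConn.two_edges {G : SimpleGraph V} (h : TwoConn G) {v x y : V} (hx : G.Adj v x)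
    (hy : G.Adj v y) (hxy : x ≠ y) : ∃ S : Sym2 V → ZMod 2, (∀ u, bd G S u = 0) ∧
      S s(v, x) = 1 ∧ S s(v, y) = 1 ∧ ∀ w, w ≠ x → w ≠ y → S s(v, w) = 0 := by
  classical
  obtain ⟨J, h1, h2⟩ := exists_join (G := G) (fun _ _ h => h.1)
    (h.2 v x y ⟨v, hx.symm⟩ ⟨v, hy.symm⟩ hx.ne.symm hy.ne.symm)
  have hJ : ∀ w, J s(v, w) = 0 := by
    intro w
    by_contra hn
    obtain ⟨a, b, ⟨-, p1, p2⟩, e⟩ := h1 _ hn
    rcases Sym2.eq_iff.1 e with ⟨rfl, rfl⟩ | ⟨rfl, rfl⟩
    · exact p1 rfl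
    · exact p2 rfl
  refine ⟨J + ((fun e => if e = s(v, x) then 1 else 0) + fun e => if e = s(v, y) then 1 else 0),
    fun u => ?_, ?_, ?_, fun w h3 h4 => ?_⟩
  · rw [bd_add, bd_add, h2, bd_edge hx, bd_edge hy]
    generalize (if u = x then (1 : ZMod 2) else 0) = p
    generalize (if u = y then (1 : ZMod 2) else 0) = q
    generalize (if u = v then (1 : ZMod 2) else 0) = r
    revert p q r
    decide
  · simp [hJ, hxy, hy.ne]
  · simp [hJ, hxy.symm, hx.ne]
  · simp [hJ, h3, h4, hx.ne, hy.ne]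

/-- a proper nonempty part of the edges does not split all even sets -/
theorem TwoConn.no_split {G : SimpleGraph V} (h : TwoConn G) (p : Sym2 V → ZMod 2)
    (hp : ∀ S : Sym2 V → ZMod 2, (∀ u, bd G S u = 0) → ∀ u, bd G (fun e => p e * S e) u = 0) :
    ∃ t, ∀ u v, G.Adj u v → p s(u, v) = t := by
  have loc : ∀ v x y, G.Adj v x → G.Adj v y → p s(v, x) = p s(v, y) := by
    intro v x y hx hy
    by_cases hxy : x = y
    · rw [hxy]
    obtain ⟨S, h1, h2, h3, h4⟩ := h.two_edges hx hy hxy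
    have := hp S h1 v
    rw [bd_two hx hy hxy fun w _ a b => by simp [h4 w a b], h2, h3, mul_one, mul_one] at this
    exact z2_eq_of_add this
  obtain ⟨a, ⟨b, hab⟩, -⟩ := h.1
  refine ⟨p s(a, b), fun u v huv => ?_⟩
  have hr := h.reach ⟨b, hab⟩ ⟨v, huv⟩
  induction hr generalizing v with
  | refl => exact loc _ _ _ huv hab
  | tail _ h2 ih => rw [loc _ _ _ huv h2.symm, Sym2.eq_swap, ih _ h2]

theorem Dual.sides_ne {G : SimpleGraph V} (D : Dual G) (h : TwoConn G) {u v : V}
    (huv : G.Adj u v) : D.l s(u, v) ≠ D.r s(u, v) := by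
  obtain ⟨y, hy, hyv⟩ := h.second huv
  obtain ⟨S, h1, h2, -⟩ := h.two_edges huv hy hyv.symm
  obtain ⟨c, hc⟩ := (D.cob S).1 h1
  intro e
  rw [hc u v huv, e, z2_add_self] at h2
  exact absurd h2 (by decide)

theorem Dual.even {G : SimpleGraph V} (D : Dual G) (c : D.Fc → ZMod 2) (v : V) :
    bd G (fun e => c (D.l e) + c (D.r e)) v = 0 :=
  (D.cob _).2 ⟨c, fun _ _ _ => rfl⟩ v

theorem Dual.uniq {G : SimpleGraph V} (D : Dual G) (h : TwoConn G) (c : D.Fc → ZMod 2)
    (hc : ∀ u v, G.Adj u v → c (D.l s(u, v)) = c (D.r s(u, v))) :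
    ∃ t, ∀ u v, G.Adj u v → c (D.l s(u, v)) = t ∧ c (D.r s(u, v)) = t := by
  obtain ⟨t, ht⟩ := h.no_split (fun e => c (D.l e)) fun S hS u => by
    obtain ⟨c', hc'⟩ := (D.cob S).1 hS
    rw [← D.even (fun f => c f * c' f) u]
    refine bd_congr fun w hw => ?_
    simp only [hc' u w hw, ← hc u w hw, mul_add]
  exact ⟨t, fun u v huv => ⟨ht u v huv, by rw [← hc u v huv]; exact ht u v huv⟩⟩

open Classical in
theorem Dual.ind_star {G : SimpleGraph V} (D : Dual G) (f : D.Fc) {u v : V} (huv : G.Adj u v)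
    (hne : (D.star f).Adj u v → D.l s(u, v) ≠ D.r s(u, v)) :
    ind (D.star f) s(u, v) =
      (if D.l s(u, v) = f then 1 else 0) + (if D.r s(u, v) = f then 1 else 0) := by
  by_cases h : (D.star f).Adj u v
  · rw [ind_of_adj h]
    have := hne h
    rcases h.2 with e | e
    · rw [if_pos e, if_neg fun e' => this (e.trans e'.symm), add_zero]
    · rw [if_pos e, if_neg fun e' => this (e'.trans e.symm), zero_add]
  · rw [ind_of_not h, if_neg fun e => h ⟨huv, Or.inl e⟩, if_neg fun e => h ⟨huv, Or.inr e⟩,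
      add_zero]

theorem Dual.star_le {G : SimpleGraph V} (D : Dual G) (f : D.Fc) : D.star f ≤ G :=
  fun _ _ h => h.1

theorem Dual.star_isCyc {G : SimpleGraph V} (D : Dual G) (h : TwoConn G) (f : D.Fc)
    (hf : D.star f ≠ ⊥) : IsCyc (D.star f) := by
  classical
  refine isCyc_of_min hf (fun v => ?_) fun S hS => ?_
  · rw [← bd_sub (D.star_le f) fun w _ hw => ind_of_not hw,
      ← D.even (fun g => if g = f then 1 else 0) v]
    exact bd_congr fun w hw => D.ind_star f hw fun _ => D.sides_ne h hw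
  · obtain ⟨c0, hc0⟩ := (D.cob fun e => ind (D.star f) e * S e).1 fun v => by
      rw [bd_sub (D.star_le f) fun w _ hw => by simp [ind_of_not hw], ← hS v]
      exact bd_congr fun w hw => by simp [ind_of_adj hw]
    let c : D.Fc → ZMod 2 := fun g => c0 g + c0 f
    have hcf : c f = 0 := z2_add_self _
    have hc : ∀ u v, G.Adj u v →
        ind (D.star f) s(u, v) * S s(u, v) = c (D.l s(u, v)) + c (D.r s(u, v)) := by
      intro u v huv
      have := hc0 u v huv
      simp only [c]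
      rw [add_add_add_comm, z2_add_self, add_zero]
      exact this
    obtain ⟨t, ht⟩ := h.no_split
      (fun e => c (D.l e) + c (D.r e) + c (D.l e) * c (D.r e)) fun T hT u => by
        obtain ⟨c', hc'⟩ := (D.cob T).1 hT
        rw [← D.even (fun g => c g * (c' g + c' f)) u]
        refine bd_congr fun w hw => ?_
        have h1 := hc u w hw
        simp only [hc' u w hw]
        by_cases hs : (D.star f).Adj u w
        · rcases hs.2 with e | e
          · rw [e, hcf]
            generalize c (D.r s(u, w)) = a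
            generalize c' (D.r s(u, w)) = b
            generalize c' f = d
            revert a b d
            decide
          · rw [e, hcf]
            generalize c (D.l s(u, w)) = a
            generalize c' (D.l s(u, w)) = b
            generalize c' f = d
            revert a b d
            decide
        · rw [ind_of_not hs, zero_mul] at h1
          rw [z2_eq_of_add h1.symm]
          generalize c (D.r s(u, w)) = a
          generalize c' (D.r s(u, w)) = b
          generalize c' (D.l s(u, w)) = b'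
          generalize c' f = d
          revert a b b' d
          decide
    refine ⟨t, fun u v huv => ?_⟩
    have h1 := hc u v huv.1
    have h2 := ht u v huv.1
    rw [ind_of_adj huv, one_mul] at h1
    rw [h1, ← h2]
    rcases huv.2 with e | e <;> simp [e, hcf]

/-- a new vertex inside a face that is bounded by a cycle -/
theorem Dual.po_star {G : SimpleGraph V} (D : Dual G) (f : D.Fc) (hf : IsCyc (D.star f))
    (hne : ∀ u v, (D.star f).Adj u v → D.l s(u, v) ≠ D.r s(u, v)) :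
    PO G (D.star f).support := by
  classical
  have hnb : ∀ v, ∃ x y, v ∈ (D.star f).support →
      x ≠ y ∧ ∀ w, (D.star f).Adj v w ↔ w = x ∨ w = y := by
    intro v
    by_cases hv : v ∈ (D.star f).support
    · obtain ⟨x, y, h⟩ := hf.2.1 v hv
      exact ⟨x, y, fun _ => h⟩
    · exact ⟨v, v, fun h => absurd h hv⟩
  choose nx ny hn using hnb
  obtain ⟨v0, -⟩ : ∃ v0 : V, True := by
    by_contra hc
    exact hf.1 (by ext a; exact (hc ⟨a, trivial⟩).elim)
  let sd : D.Fc → Sym2 V → D.Fc ⊕ Sym2 V := fun g e => if g = f then Sum.inr e else Sum.inl g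
  let L : Sym2 (Option V) → D.Fc ⊕ Sym2 V := fun e =>
    if h : ∃ v, e = s(some v, none) then Sum.inr s(h.choose, nx h.choose)
    else sd (D.l (unsome v0 e)) (unsome v0 e)
  let R : Sym2 (Option V) → D.Fc ⊕ Sym2 V := fun e =>
    if h : ∃ v, e = s(some v, none) then Sum.inr s(h.choose, ny h.choose)
    else sd (D.r (unsome v0 e)) (unsome v0 e)
  have hch : ∀ v (h : ∃ w, s(some v, none) = s(some w, (none : Option V))), h.choose = v := by
    intro v h
    have := h.choose_spec
    simpa using this.symm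
  have hL1 : ∀ v, L s(some v, none) = Sum.inr s(v, nx v) := fun v => by
    have h : ∃ w, s(some v, none) = s(some w, (none : Option V)) := ⟨v, rfl⟩
    simp only [L, dif_pos h, hch v h]
  have hR1 : ∀ v, R s(some v, none) = Sum.inr s(v, ny v) := fun v => by
    have h : ∃ w, s(some v, none) = s(some w, (none : Option V)) := ⟨v, rfl⟩
    simp only [R, dif_pos h, hch v h]
  have hL2 : ∀ u v, L s(some u, some v) = sd (D.l s(u, v)) s(u, v) := fun u v => by
    simp only [L]
    rw [dif_neg (by simp)]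
    simp [unsome]
  have hR2 : ∀ u v, R s(some u, some v) = sd (D.r s(u, v)) s(u, v) := fun u v => by
    simp only [R]
    rw [dif_neg (by simp)]
    simp [unsome]
  have hsup : ∀ v, (v ∈ (D.star f).support ∧ v ∈ G.support) ↔ v ∈ (D.star f).support :=
    fun v => ⟨fun h => h.1, fun h => ⟨h, SimpleGraph.support_mono (D.star_le f) h⟩⟩
  have hbd : ∀ (J : Sym2 V → ZMod 2) v, bd (D.star f) J v =
      if v ∈ (D.star f).support then J s(v, nx v) + J s(v, ny v) else 0 := by
    intro J v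
    split_ifs with hv
    · obtain ⟨h1, h2⟩ := hn v hv
      refine bd_two ((h2 _).2 (Or.inl rfl)) ((h2 _).2 (Or.inr rfl)) h1 fun w hw a b => ?_
      rcases (h2 w).1 hw with e | e
      · exact absurd e a
      · exact absurd e b
    · exact bd_none fun w hw => absurd ⟨w, hw⟩ hv
  have hsd : ∀ (c : D.Fc ⊕ Sym2 V → ZMod 2) u v, G.Adj u v →
      c (sd (D.l s(u, v)) s(u, v)) + c (sd (D.r s(u, v)) s(u, v)) =
      ((if D.l s(u, v) = f then 0 else c (Sum.inl (D.l s(u, v)))) +
        (if D.r s(u, v) = f then 0 else c (Sum.inl (D.r s(u, v))))) +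
        ind (D.star f) s(u, v) * c (Sum.inr s(u, v)) := by
    intro c u v huv
    rw [D.ind_star f huv (hne u v)]
    simp only [sd]
    split_ifs <;> ring
  refine ⟨⟨D.Fc ⊕ Sym2 V, L, R, fun S => ⟨fun hS => ?_, ?_⟩⟩⟩
  · obtain ⟨J, hJ1, hJ2⟩ := exists_tjoin (G := D.star f) (R := (D.star f).Adj) (fun _ _ h => h)
      (fun v => if v ∈ (D.star f).support then S s(some v, none) else 0)
      (fun a b ha hb => (SimpleGraph.reachable_iff_reflTransGen _ _).1
        (hf.2.2 a (by by_contra h; simp [h] at ha) b (by by_contra h; simp [h] at hb)))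
      (by
        have := hS none
        rw [bd_apex_none] at this
        simpa only [hsup] using this)
    have hJ0 : ∀ u v, ¬ (D.star f).Adj u v → J s(u, v) = 0 := by
      intro u v huv
      by_contra h
      obtain ⟨a, b, hab, e⟩ := hJ1 _ h
      rcases Sym2.eq_iff.1 e with ⟨rfl, rfl⟩ | ⟨rfl, rfl⟩
      · exact huv hab
      · exact huv hab.symm
    obtain ⟨c, hc⟩ := (D.cob ((fun e => S (e.map some)) + J)).1 fun v => by
      have := hS (some v)
      rw [bd_apex_some] at this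
      rw [bd_add, bd_sub (S := J) (D.star_le f) fun w _ hw => hJ0 v w hw, hJ2]
      simpa only [hsup] using this
    have hap : ∀ v, v ∈ (D.star f).support → S s(some v, none) = J s(v, nx v) + J s(v, ny v) := by
      intro v hv
      have := hJ2 v
      rw [hbd, if_pos hv, if_pos hv] at this
      exact this.symm
    refine ⟨Sum.elim (fun g => c g + c f) J, fun a b hab => ?_⟩
    cases a <;> cases b
    · exact hab.elim
    · rw [Sym2.eq_swap, hL1, hR1]
      exact hap _ hab.1
    · rw [hL1, hR1]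
      exact hap _ hab.1
    · rename_i u v
      have h1 := hc u v hab
      have h2 : ind (D.star f) s(u, v) * J s(u, v) = J s(u, v) := by
        by_cases h : (D.star f).Adj u v
        · rw [ind_of_adj h, one_mul]
        · rw [hJ0 u v h, mul_zero]
      have h3 : ∀ g, (if g = f then 0 else c g + c f) = c g + c f := by
        intro g
        split_ifs with e
        · rw [e, z2_add_self]
        · rfl
      rw [hL2, hR2, hsd _ u v hab]
      simp only [Sum.elim_inl, Sum.elim_inr, h2, h3]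
      simp only [Pi.add_apply, Sym2.map_mk] at h1
      rw [add_add_add_comm, z2_add_self, add_zero, ← h1, add_assoc, z2_add_self, add_zero]
  · rintro ⟨c, hc⟩
    have hs : ∀ v, bd (apex G (D.star f).support) S (some v) = 0 := by
      intro v
      rw [bd_apex_some]
      have h1 : bd G (fun e => S (e.map some)) v =
          bd G ((fun e => (fun g => if g = f then 0 else c (Sum.inl g)) (D.l e) +
            (fun g => if g = f then 0 else c (Sum.inl g)) (D.r e)) +
            fun e => ind (D.star f) e * c (Sum.inr e)) v := by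
        refine bd_congr fun w hw => ?_
        have := hc (some v) (some w) hw
        rw [hL2, hR2, hsd _ v w hw] at this
        exact this
      rw [h1, bd_add, D.even (fun g => if g = f then 0 else c (Sum.inl g)), zero_add,
        bd_sub (D.star_le f) fun w _ hw => by simp [ind_of_not hw],
        bd_congr (T := fun e => c (Sum.inr e)) fun w hw => by simp [ind_of_adj hw], hbd]
      simp only [hsup]
      split_ifs with hv
      · rw [hc (some v) none ((hsup v).2 hv), hL1, hR1, z2_add_self]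
      · rfl
    intro a
    cases a with
    | some v => exact hs v
    | none =>
      have := sum_bd_univ (apex G (D.star f).support) S
      rw [Fintype.sum_option, Finset.sum_eq_zero fun v _ => hs v, add_zero] at this
      exact this

/-- a new edge inside a face -/
theorem Dual.add_edge {G : SimpleGraph V} (D : Dual G) (f : D.Fc) (hf : IsCyc (D.star f))
    (hne : ∀ u v, (D.star f).Adj u v → D.l s(u, v) ≠ D.r s(u, v)) {w y : V}
    (hw : w ∈ (D.star f).support) (hy : y ∈ (D.star f).support) (hwy : w ≠ y)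
    (hn : ¬ G.Adj w y) (f0 : D.Fc) (h0 : f0 ≠ f) :
    ∃ (D' : Dual (G ⊔ SimpleGraph.edge w y)) (g : D'.Fc), D'.star g = D.star f0 ∧
      ∀ u v, G.Adj u v → D.l s(u, v) ≠ D.r s(u, v) → D'.l s(u, v) ≠ D'.r s(u, v) := by
  classical
  obtain ⟨A, hA1, hA2⟩ := exists_join (G := D.star f) (R := (D.star f).Adj) (fun _ _ h => h)
    ((SimpleGraph.reachable_iff_reflTransGen _ _).1 (hf.2.2 w hw y hy))
  have hA0 : ∀ u v, ¬ (D.star f).Adj u v → A s(u, v) = 0 := by
    intro u v huv
    by_contra h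
    obtain ⟨a, b, hab, e⟩ := hA1 _ h
    rcases Sym2.eq_iff.1 e with ⟨rfl, rfl⟩ | ⟨rfl, rfl⟩
    · exact huv hab
    · exact huv hab.symm
  let sd : D.Fc → Sym2 V → Option D.Fc := fun g e => if g = f ∧ A e = 1 then none else some g
  let L : Sym2 V → Option D.Fc := fun e => if e = s(w, y) then none else sd (D.l e) e
  let R : Sym2 V → Option D.Fc := fun e => if e = s(w, y) then some f else sd (D.r e) e
  have hnew : ∀ u v, G.Adj u v → s(u, v) ≠ s(w, y) := by
    intro u v huv e
    rcases Sym2.eq_iff.1 e with ⟨rfl, rfl⟩ | ⟨rfl, rfl⟩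
    · exact hn huv
    · exact hn huv.symm
  have hadj : ∀ u v, (G ⊔ SimpleGraph.edge w y).Adj u v → G.Adj u v ∨ s(u, v) = s(w, y) := by
    intro u v h
    rcases h with h | h
    · exact Or.inl h
    · rw [SimpleGraph.edge_adj] at h
      exact Or.inr (Sym2.eq_iff.2 h.1)
  have hwy' : (G ⊔ SimpleGraph.edge w y).Adj w y := Or.inr (by simp [SimpleGraph.edge_adj, hwy])
  have hsd : ∀ (c : Option D.Fc → ZMod 2) u v, G.Adj u v → c (L s(u, v)) + c (R s(u, v)) =
      (c (some (D.l s(u, v))) + c (some (D.r s(u, v)))) + (c none + c (some f)) * A s(u, v) := by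
    intro c u v huv
    simp only [L, R, if_neg (hnew u v huv), sd]
    rcases z2_cases (A s(u, v)) with e | e
    · simp [e]
    · have hs : (D.star f).Adj u v := by
        by_contra h
        rw [hA0 u v h] at e
        exact absurd e (by decide)
      have := hne u v hs
      rcases hs.2 with e' | e'
      · rw [if_pos ⟨e', e⟩, if_neg fun h => this (e'.trans h.1.symm), e, e']
        generalize c (some (D.r s(u, v))) = a
        generalize c none = b
        generalize c (some f) = d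
        revert a b d
        decide
      · rw [if_neg fun h => this (h.1.trans e'.symm), if_pos ⟨e', e⟩, e, e']
        generalize c (some (D.l s(u, v))) = a
        generalize c none = b
        generalize c (some f) = d
        revert a b d
        decide
  have hbd : ∀ (S : Sym2 V → ZMod 2) v, bd (G ⊔ SimpleGraph.edge w y) S v =
      bd G (S + fun e => S s(w, y) * A e) v := by
    intro S v
    have h1 : bd (G ⊔ SimpleGraph.edge w y) S v = bd (G ⊔ SimpleGraph.edge w y)
        ((fun e => if e = s(w, y) then 0 else S e) +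
          fun e => S s(w, y) * if e = s(w, y) then 1 else 0) v := by
      refine bd_congr fun x _ => ?_
      simp only [Pi.add_apply]
      split_ifs with e
      · rw [e, zero_add, mul_one]
      · simp
    rw [h1, bd_add, bd_add, bd_smul, bd_smul, bd_edge hwy',
      bd_sub (S := A) (D.star_le f) fun x _ hx => hA0 v x hx, hA2,
      bd_sub (K := G) le_sup_left fun x h1 h2 => if_pos ((hadj v x h1).resolve_left h2),
      bd_congr (T := S) fun x hx => if_neg (hnew v x hx)]
  refine ⟨⟨Option D.Fc, L, R, fun S => ⟨fun hS => ?_, ?_⟩⟩, some f0, ?_, ?_⟩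
  · obtain ⟨c, hc⟩ := (D.cob (S + fun e => S s(w, y) * A e)).1 fun v => by rw [← hbd, hS]
    refine ⟨fun g => g.elim (c f + S s(w, y)) c, fun u v huv => ?_⟩
    rcases hadj u v huv with h | h
    · have h1 := hc u v h
      rw [hsd (fun g => g.elim (c f + S s(w, y)) c) u v h]
      simp only [Option.elim_some, Option.elim_none, Pi.add_apply] at h1 ⊢
      rw [← h1]
      generalize S s(u, v) = a
      generalize S s(w, y) = b
      generalize c f = d
      generalize A s(u, v) = e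
      revert a b d e
      decide
    · simp only [h, L, R, if_true, Option.elim_some, Option.elim_none]
      rw [add_comm (c f), add_assoc, z2_add_self, add_zero]
  · rintro ⟨c, hc⟩ v
    rw [hbd, ← D.even (fun g => c (some g)) v]
    refine bd_congr fun x hx => ?_
    have h1 := hc w y hwy'
    simp only [L, R, if_true] at h1
    simp only [Pi.add_apply]
    rw [hc v x (Or.inl hx), hsd c v x hx, h1, add_assoc, z2_add_self, add_zero]
  · have hs : ∀ g e, sd g e = some f0 ↔ g = f0 := by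
      intro g e
      simp only [sd]
      split_ifs with h
      · simp [h.1, h0.symm]
      · simp
    ext u v
    constructor
    · rintro ⟨h1, h2⟩
      rcases hadj u v h1 with h | h
      · simp only [L, R, if_neg (hnew u v h), hs] at h2
        exact ⟨h, h2⟩
      · simp [L, R, h, h0.symm] at h2
    · rintro ⟨h1, h2⟩
      refine ⟨Or.inl h1, ?_⟩
      simp only [L, R, if_neg (hnew u v h1), hs]
      exact h2
  · intro u v huv h
    simp only [L, R, if_neg (hnew u v huv), sd]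
    split_ifs with h1 h2 h2
    · exact absurd (h1.1.trans h2.1.symm) h
    · simp
    · simp
    · simpa using h

theorem exists_face {G : SimpleGraph V} {O : Set V} (h : TwoConn G) (hO : PO G O) :
    ∃ (D : Dual G) (f : D.Fc), D.star f ≠ ⊥ ∧
      ∀ v ∈ O, v ∈ G.support → v ∈ (D.star f).support := by
  classical
  by_cases h1 : ∃ a ∈ O, a ∈ G.support ∧ ∃ b ∈ O, b ∈ G.support ∧ a ≠ b
  swap
  · obtain ⟨D⟩ := hO.pd
    have : ∃ a ∈ G.support, ∀ v ∈ O, v ∈ G.support → v = a := by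
      by_cases h2 : ∃ a ∈ O, a ∈ G.support
      · obtain ⟨a, p, q⟩ := h2
        refine ⟨a, q, fun v p' q' => ?_⟩
        by_contra hn
        exact h1 ⟨v, p', q', a, p, q, hn⟩
      · obtain ⟨a, ha, -⟩ := h.1
        exact ⟨a, ha, fun v p q => absurd ⟨v, p, q⟩ h2⟩
    obtain ⟨a, ⟨b, hab⟩, ha⟩ := this
    have hs : (D.star (D.l s(a, b))).Adj a b := ⟨hab, Or.inl rfl⟩
    exact ⟨D, D.l s(a, b), fun e => by simp [e] at hs, fun v p q => by rw [ha v p q]; exact ⟨b, hs⟩⟩
  obtain ⟨a, ha1, ha2, b, hb1, hb2, hab⟩ := h1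
  have lift : ∀ {x : Option V} {u v : V},
      ReflTransGen (fun p q => G.Adj p q ∧ some p ≠ x ∧ some q ≠ x) u v →
      ReflTransGen (fun p q => (apex G O).Adj p q ∧ p ≠ x ∧ q ≠ x) (some u) (some v) := by
    intro x u v hr
    induction hr with
    | refl => exact ReflTransGen.refl
    | tail _ h2 ih => exact ih.tail h2
  have hsup : ∀ v, some v ∈ (apex G O).support → v ∈ G.support := by
    rintro v ⟨_ | w, hw⟩
    · exact hw.2
    · exact ⟨w, hw⟩
  have hH : TwoConn (apex G O) := by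
    refine ⟨⟨none, ⟨some a, ha1, ha2⟩, some a, ⟨none, ha1, ha2⟩, some b, ⟨none, hb1, hb2⟩,
      by simp, by simp, by simpa using hab⟩, fun x p q hp hq hpx hqx => ?_⟩
    cases x with
    | none =>
      obtain ⟨p, rfl⟩ := Option.ne_none_iff_exists'.1 hpx
      obtain ⟨q, rfl⟩ := Option.ne_none_iff_exists'.1 hqx
      exact lift (rtg_mono (fun _ _ h => ⟨h, by simp, by simp⟩)
        (h.reach (hsup p hp) (hsup q hq)))
    | some x =>
      obtain ⟨c, hc1, hc2, hc3⟩ : ∃ c ∈ O, c ∈ G.support ∧ c ≠ x := by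
        by_cases e : a = x
        · exact ⟨b, hb1, hb2, e ▸ hab.symm⟩
        · exact ⟨a, ha1, ha2, e⟩
      have key : ∀ p, p ∈ (apex G O).support → p ≠ some x →
          ReflTransGen (fun p q => (apex G O).Adj p q ∧ p ≠ some x ∧ q ≠ some x) (some c) p := by
        intro p hp hpx
        cases p with
        | none => exact ReflTransGen.single ⟨⟨hc1, hc2⟩, by simpa using hc3, hpx⟩
        | some p =>
          exact lift (rtg_mono
            (fun _ _ h => ⟨h.1, by simpa using h.2.1, by simpa using h.2.2⟩)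
            (h.2 x c p hc2 (hsup p hp) hc3 (by simpa using hpx)))
      exact (rtg_symm (fun x y h => ⟨h.1.symm, h.2.2, h.2.1⟩) (key p hp hpx)).trans (key q hq hqx)
  obtain ⟨D⟩ := hO
  let Z : D.Fc → Prop := fun g => ∃ v ∈ O, v ∈ G.support ∧
    (D.l s(none, some v) = g ∨ D.r s(none, some v) = g)
  let mg : D.Fc → Option D.Fc := fun g => if Z g then none else some g
  have hconst : ∀ c : D.Fc → ZMod 2, (∀ v ∈ O, v ∈ G.support →
      c (D.l s(none, some v)) = c (D.r s(none, some v))) →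
      ∀ g, Z g → c g = c (D.l s(none, some a)) := by
    intro c hc
    have : ∀ v ∈ O, v ∈ G.support → c (D.l s(none, some v)) = c (D.l s(none, some a)) := by
      intro v h1 h2
      by_cases e : v = a
      · rw [e]
      obtain ⟨S, p1, p2, p3, p4⟩ := hH.two_edges (v := none) (x := some v) (y := some a)
        ⟨h1, h2⟩ ⟨ha1, ha2⟩ (by simpa using e)
      obtain ⟨c', hc'⟩ := (D.cob S).1 p1
      have h3 := D.even (fun g => c g * c' g) none
      have h4 : ∀ w, (apex G O).Adj none w →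
          c (D.l s(none, w)) * c' (D.l s(none, w)) + c (D.r s(none, w)) * c' (D.r s(none, w)) =
          c (D.l s(none, w)) * S s(none, w) := by
        intro w hw
        rw [hc' none w hw]
        cases w with
        | none => exact hw.elim
        | some w => rw [← hc w hw.1 hw.2, mul_add]
      rw [bd_congr (T := fun e => c (D.l e) * S e) h4,
        bd_two (G := apex G O) (v := none) (x := some v) (y := some a) ⟨h1, h2⟩ ⟨ha1, ha2⟩ (by simpa using e)
          fun w _ q1 q2 => by simp [p4 w q1 q2], p2, p3, mul_one, mul_one] at h3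
      exact z2_eq_of_add h3
    rintro g ⟨v, h1, h2, rfl | rfl⟩
    · exact this v h1 h2
    · rw [← hc v h1 h2]
      exact this v h1 h2
  let D' : Dual G := ⟨Option D.Fc, fun e => mg (D.l (e.map some)), fun e => mg (D.r (e.map some)),
    fun S => ⟨fun hS => by
      obtain ⟨c, hc⟩ := (D.cob fun e => if none ∈ e then 0 else S (unsome a e)).1 fun x => by
        cases x with
        | none => exact bd_none fun w _ => by simp
        | some x =>
          rw [bd_apex_some, bd_congr (T := S) fun w _ => by simp [unsome], hS]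
          simp
      have h1 := hconst c fun v p q => z2_eq_of_add (by
        have := hc none (some v) ⟨p, q⟩
        simpa using this.symm)
      have h2 : ∀ g, (mg g).elim (c (D.l s(none, some a))) c = c g := by
        intro g
        simp only [mg]
        split_ifs with hz
        · exact (h1 g hz).symm
        · rfl
      refine ⟨fun g => g.elim (c (D.l s(none, some a))) c, fun u v huv => ?_⟩
      simp only [h2]
      simpa [unsome] using hc (some u) (some v) huv, by
      rintro ⟨c, hc⟩ v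
      have h1 := D.even (fun g => c (mg g)) (some v)
      rw [bd_apex_some] at h1
      rw [bd_congr (T := fun e => c (mg (D.l (e.map some))) + c (mg (D.r (e.map some))))
        fun w hw => hc v w hw]
      split_ifs at h1 with hv
      · have e1 : mg (D.l s(some v, none)) = none :=
          if_pos ⟨v, hv.1, hv.2, Or.inl (by rw [Sym2.eq_swap])⟩
        have e2 : mg (D.r s(some v, none)) = none :=
          if_pos ⟨v, hv.1, hv.2, Or.inr (by rw [Sym2.eq_swap])⟩
        simpa only [e1, e2, z2_add_self, add_zero] using h1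
      · simpa only [add_zero] using h1⟩⟩
  have main : ∀ v ∈ O, v ∈ G.support → v ∈ (D'.star none).support := by
    intro v h1 h2
    have hz : Z (D.l s(none, some v)) := ⟨v, h1, h2, Or.inl rfl⟩
    have hs : (D.star (D.l s(none, some v))).Adj (some v) none :=
      ⟨⟨h1, h2⟩, Or.inl (by rw [Sym2.eq_swap])⟩
    obtain ⟨y, hy1, hy2⟩ := (D.star_isCyc hH _ fun e => by simp [e] at hs).twoConn.second hs
    obtain ⟨y, rfl⟩ := Option.ne_none_iff_exists'.1 hy2
    refine ⟨y, hy1.1, ?_⟩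
    rcases hy1.2 with e | e
    · exact Or.inl (if_pos (by rw [Sym2.map_mk, e]; exact hz))
    · exact Or.inr (if_pos (by rw [Sym2.map_mk, e]; exact hz))
  refine ⟨D', none, fun e => ?_, main⟩
  obtain ⟨y, hy⟩ := main a ha1 ha2
  simp [e] at hy

end Pool.Agent.Pl
end

-- merged part: Pool.Agent.Work.MP_5bd7f1_co.PD.Disc
section
/-! The user interface: outer cycle, inside of a cycle, splitting along a path. -/

set_option autoImplicit false
open Relation

namespace Pool.Agent.Pl

variable {V : Type} [Fintype V] {G : SimpleGraph V} {m : ℕ} {F : ℤ → V}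

omit [Fintype V] in
theorem Cyc.mono {G' : SimpleGraph V} (h : Cyc G m F) (hG : G ≤ G') : Cyc G' m F :=
  ⟨h.1, fun i => hG (h.2.1 i), h.2.2⟩

/-- a face as outer face -/
def Dual.disc (D : Dual G) (h : TwoConn G) (f : D.Fc) (hc : Cyc G m F) (hf : cycG F = D.star f) :
    Disc G m F :=
  { D with
    two := h, cyc := hc, f0 := f
    out := fun u v huv => by rw [hf]; exact ⟨fun h => h.2, fun h => ⟨huv, h⟩⟩ }

theorem Disc.star_f0 (D : Disc G m F) : D.toDual.star D.f0 = cycG F := by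
  ext u v
  exact ⟨fun h => (D.out u v h.1).2 h.2,
    fun h => ⟨cycG_le D.cyc h, (D.out u v (cycG_le D.cyc h)).1 h⟩⟩

theorem exists_disc {O : Set V} (h : TwoConn G) (hO : PO G O) :
    ∃ m F, Nonempty (Disc G m F) ∧ ∀ v ∈ O, v ∈ G.support → v ∈ Set.range F := by
  obtain ⟨D, f, h1, h2⟩ := exists_face h hO
  obtain ⟨m, F, h3, h4⟩ := (D.star_isCyc h f h1).exists_cyc
  refine ⟨m, F, ⟨D.disc h f (h3.mono (D.star_le f)) h4⟩, fun v p q => ?_⟩
  rw [← cycG_support h3, h4]
  exact h2 v p q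

theorem Disc.po (D : Disc G m F) : PO G (Set.range F) := by
  rw [← cycG_support D.cyc, ← D.star_f0]
  exact D.toDual.po_star D.f0 (D.star_f0 ▸ D.cyc.isCyc) fun u v h => D.toDual.sides_ne D.two h.1

/-- start the outer cycle at another vertex -/
def Disc.shift (D : Disc G m F) (k : ℤ) : Disc G m fun i => F (i + k) :=
  { D.toDual with
    two := D.two, cyc := (D.cyc.shift k).1, f0 := D.f0
    out := by rw [(D.cyc.shift k).2]; exact D.out }

/-- run round the outer cycle the other way -/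
def Disc.rev (D : Disc G m F) : Disc G m fun i => F (-i) :=
  { D.toDual with
    two := D.two, cyc := D.cyc.rev.1, f0 := D.f0
    out := by rw [D.cyc.rev.2]; exact D.out }

theorem Disc.shift_In (D : Disc G m F) (k : ℤ) (K : SimpleGraph V) : (D.shift k).In K = D.In K :=
  rfl

theorem Disc.rev_In (D : Disc G m F) (K : SimpleGraph V) : D.rev.In K = D.In K := rfl

theorem Disc.In_le (D : Disc G m F) (K : SimpleGraph V) : D.In K ≤ G := fun _ _ h => h.1

theorem Disc.ins_spec (D : Disc G m F) {K : SimpleGraph V} (hK : IsCyc K) (hG : K ≤ G) :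
    D.ins K D.f0 = 0 ∧
      ∀ u v, G.Adj u v → ind K s(u, v) = D.ins K (D.l s(u, v)) + D.ins K (D.r s(u, v)) := by
  have h : ∃ c : D.Fc → ZMod 2, c D.f0 = 0 ∧
      ∀ u v, G.Adj u v → ind K s(u, v) = c (D.l s(u, v)) + c (D.r s(u, v)) := by
    obtain ⟨c, hc⟩ := (D.cob (ind K)).1 fun v => by
      rw [bd_sub hG fun w _ hw => ind_of_not hw, hK.even]
    refine ⟨fun g => c g + c D.f0, z2_add_self _, fun u v huv => ?_⟩
    rw [add_add_add_comm, z2_add_self, add_zero]
    exact hc u v huv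
  unfold Disc.ins
  rw [dif_pos h]
  exact h.choose_spec

theorem Disc.zero (D : Disc G m F) (c : D.Fc → ZMod 2) (h0 : c D.f0 = 0)
    (hc : ∀ u v, G.Adj u v → c (D.l s(u, v)) = c (D.r s(u, v))) {u v : V} (huv : G.Adj u v) :
    c (D.l s(u, v)) = 0 ∧ c (D.r s(u, v)) = 0 := by
  obtain ⟨t, ht⟩ := D.toDual.uniq D.two c hc
  have h1 := D.cyc.2.1 0
  have h2 := (D.out _ _ h1).1 ((cycG_adj D.cyc 0 _).2 (Or.inl rfl))
  have h3 : t = 0 := by
    rcases h2 with e | e
    · rw [← (ht _ _ h1).1, e, h0]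
    · rw [← (ht _ _ h1).2, e, h0]
  exact h3 ▸ ht u v huv

/-- both sides of an edge off `K` agree -/
theorem Disc.ins_eq (D : Disc G m F) {K : SimpleGraph V} (hK : IsCyc K) (hG : K ≤ G) {u v : V}
    (huv : G.Adj u v) (hn : ¬ K.Adj u v) : D.ins K (D.l s(u, v)) = D.ins K (D.r s(u, v)) := by
  have h := (D.ins_spec hK hG).2 u v huv
  rw [ind_of_not hn] at h
  exact z2_eq_of_add h.symm

theorem Disc.not_In (D : Disc G m F) {K : SimpleGraph V} {u v : V} (huv : G.Adj u v)
    (hn : ¬ (D.In K).Adj u v) : D.ins K (D.l s(u, v)) = 0 ∧ D.ins K (D.r s(u, v)) = 0 :=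
  ⟨(z2_cases _).resolve_right fun h => hn ⟨huv, Or.inl h⟩,
    (z2_cases _).resolve_right fun h => hn ⟨huv, Or.inr h⟩⟩

/-- a face colouring that does not change across edges outside `K` is constant outside `K` -/
theorem Disc.outside (D : Disc G m F) {K : SimpleGraph V} (hK : IsCyc K) (hG : K ≤ G)
    (c : D.Fc → ZMod 2) (h0 : c D.f0 = 0)
    (hc : ∀ u v, G.Adj u v → ¬ (D.In K).Adj u v → c (D.l s(u, v)) = c (D.r s(u, v)))
    {u v : V} (huv : G.Adj u v) :
    (D.ins K (D.l s(u, v)) = 0 → c (D.l s(u, v)) = 0) ∧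
      (D.ins K (D.r s(u, v)) = 0 → c (D.r s(u, v)) = 0) := by
  obtain ⟨i0, i1⟩ := D.ins_spec hK hG
  let c2 : D.Fc → ZMod 2 := fun g => c g * (1 + D.ins K g)
  have h1 : ∀ u v, G.Adj u v → ¬ K.Adj u v → c2 (D.l s(u, v)) + c2 (D.r s(u, v)) = 0 := by
    intro u v huv hn
    have e := D.ins_eq hK hG huv hn
    by_cases hi : (D.In K).Adj u v
    · have : D.ins K (D.r s(u, v)) = 1 := hi.2.elim (fun h => e ▸ h) id
      simp only [c2, e, this, z2_add_self, mul_zero]
    · simp only [c2, e, hc u v huv hi, z2_add_self]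
  obtain ⟨t, ht⟩ := hK.min (S := fun e => c2 (D.l e) + c2 (D.r e)) fun w => by
    rw [← bd_sub hG fun x p q => h1 w x p q]
    exact D.toDual.even c2 w
  have h2 := fun u v huv => D.zero (fun g => c2 g + t * D.ins K g) (by simp [c2, h0, i0])
    (fun u v huv => by
      apply z2_eq_of_add
      rw [add_add_add_comm, ← mul_add, ← i1 u v huv]
      by_cases hk : K.Adj u v
      · rw [ind_of_adj hk, mul_one, ← ht u v hk, z2_add_self]
      · rw [ind_of_not hk, h1 u v huv hk, mul_zero, add_zero]) (u := u) (v := v) huv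
  obtain ⟨p, q⟩ := h2 u v huv
  constructor
  · intro e
    simpa [c2, e] using p
  · intro e
    simpa [c2, e] using q

theorem Disc.le_In (D : Disc G m F) {K : SimpleGraph V} (hK : IsCyc K) (hG : K ≤ G) :
    K ≤ D.In K := by
  intro u v huv
  have h := (D.ins_spec hK hG).2 u v (hG huv)
  rw [ind_of_adj huv] at h
  refine ⟨hG huv, ?_⟩
  generalize D.ins K (D.l s(u, v)) = a at h ⊢
  generalize D.ins K (D.r s(u, v)) = b at h ⊢
  revert a b
  decide

/-- a vertex off `K` with one edge inside has all its edges inside -/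
theorem Disc.side (D : Disc G m F) {K : SimpleGraph V} (hK : IsCyc K) (hG : K ≤ G) {v w x : V}
    (hv : v ∉ K.support) (hw : (D.In K).Adj v w) (hx : G.Adj v x) : (D.In K).Adj v x := by
  by_contra hn
  have hne : w ≠ x := fun e => hn (e ▸ hw)
  obtain ⟨S, p1, p2, p3, p4⟩ := D.two.two_edges hw.1 hx hne
  obtain ⟨c, hc⟩ := (D.cob S).1 p1
  have h3 := D.toDual.even (fun g => D.ins K g * c g) v
  have h4 : ∀ y, G.Adj v y → D.ins K (D.l s(v, y)) = D.ins K (D.r s(v, y)) :=
    fun y hy => D.ins_eq hK hG hy fun h => hv ⟨y, h⟩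
  have h5 : D.ins K (D.l s(v, w)) = 1 := hw.2.elim id fun h => (h4 w hw.1).trans h
  rw [bd_congr (T := fun e => D.ins K (D.l e) * S e)
      (fun y hy => by simp only [hc v y hy, ← h4 y hy, mul_add]),
    bd_two hw.1 hx hne fun y _ q1 q2 => by simp [p4 y q1 q2], p2, p3, h5,
    (D.not_In hx hn).1] at h3
  exact absurd h3 (by decide)

/-- an outer edge inside `K` lies on `K` -/
theorem Disc.outer_edge (D : Disc G m F) {K : SimpleGraph V} (hK : IsCyc K) (hG : K ≤ G)
    {u v : V} (h : (cycG F).Adj u v) (hi : (D.In K).Adj u v) : K.Adj u v := by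
  by_contra hn
  have e := D.ins_eq hK hG hi.1 hn
  have i0 := (D.ins_spec hK hG).1
  have h1 : D.ins K (D.l s(u, v)) = 0 := by
    rcases (D.out u v hi.1).1 h with p | p
    · rw [p, i0]
    · rw [e, p, i0]
  have h2 : D.ins K (D.l s(u, v)) = 1 := hi.2.elim id fun h => e.trans h
  rw [h1] at h2
  exact absurd h2 (by decide)

/-- an outer vertex inside `K` lies on `K` -/
theorem Disc.outer_vertex (D : Disc G m F) {K : SimpleGraph V} (hK : IsCyc K) (hG : K ≤ G)
    {i : ℤ} (hi : F i ∈ (D.In K).support) : F i ∈ K.support := by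
  by_contra hn
  obtain ⟨w, hw⟩ := hi
  exact hn ⟨_, D.outer_edge hK hG ((cycG_adj D.cyc i _).2 (Or.inl rfl))
    (D.side hK hG hn hw (D.cyc.2.1 i))⟩

theorem Disc.inDual (D : Disc G m F) {K : SimpleGraph V} (hK : IsCyc K) (hG : K ≤ G) :
    ∃ (D' : Dual (D.In K)) (f : D'.Fc), D'.star f = K ∧
      ∀ u v, K.Adj u v → D'.l s(u, v) ≠ D'.r s(u, v) := by
  classical
  obtain ⟨i0, i1⟩ := D.ins_spec hK hG
  let π : D.Fc → D.Fc := fun g => if D.ins K g = 1 then g else D.f0
  have hπ : ∀ g, π g = D.f0 ↔ D.ins K g = 0 := by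
    intro g
    simp only [π]
    split_ifs with h
    · exact ⟨fun e => e ▸ i0, fun e => absurd (e.symm.trans h) (by decide)⟩
    · exact ⟨fun _ => (z2_cases _).resolve_right h, fun _ => rfl⟩
  refine ⟨⟨D.Fc, fun e => π (D.l e), fun e => π (D.r e), fun S => ⟨fun hS => ?_, ?_⟩⟩,
    D.f0, ?_, ?_⟩
  · obtain ⟨c, hc⟩ := (D.cob fun e => ind (D.In K) e * S e).1 fun v => by
      rw [bd_sub (D.In_le K) fun w _ hw => by simp [ind_of_not hw], ← hS v]
      exact bd_congr fun w hw => by simp [ind_of_adj hw]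
    have h1 := fun u v huv => D.outside hK hG (fun g => c g + c D.f0) (z2_add_self _)
      (fun u v huv hn => by
        have := hc u v huv
        simp only [ind_of_not hn, zero_mul] at this
        rw [z2_eq_of_add this.symm]) (u := u) (v := v) huv
    have h2 : ∀ g, (D.ins K g = 0 → c g + c D.f0 = 0) → c (π g) = c g := by
      intro g hg
      simp only [π]
      split_ifs with h
      · rfl
      · exact (z2_eq_of_add (hg ((z2_cases _).resolve_right h))).symm
    refine ⟨c, fun u v huv => ?_⟩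
    rw [h2 _ (h1 u v huv.1).1, h2 _ (h1 u v huv.1).2, ← hc u v huv.1]
    simp [ind_of_adj huv]
  · rintro ⟨c, hc⟩ v
    rw [bd_congr (T := fun e => c (π (D.l e)) + c (π (D.r e))) fun w hw => hc v w hw,
      ← bd_sub (D.In_le K) fun w p q => by
        rw [(hπ _).2 (D.not_In p q).1, (hπ _).2 (D.not_In p q).2, z2_add_self]]
    exact D.toDual.even (fun g => c (π g)) v
  · ext u v
    constructor
    · rintro ⟨h1, h2⟩
      by_contra hn
      have e := D.ins_eq hK hG h1.1 hn
      have e1 : D.ins K (D.l s(u, v)) = 1 := h1.2.elim id fun h => e.trans h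
      have e0 : D.ins K (D.l s(u, v)) = 0 :=
        h2.elim (fun h => (hπ _).1 h) fun h => e.trans ((hπ _).1 h)
      exact absurd (e0.symm.trans e1) (by decide)
    · intro h
      refine ⟨D.le_In hK hG h, ?_⟩
      have := i1 u v (hG h)
      rw [ind_of_adj h] at this
      simp only [hπ]
      generalize D.ins K (D.l s(u, v)) = a at this ⊢
      generalize D.ins K (D.r s(u, v)) = b at this ⊢
      revert a b
      decide
  · intro u v h e
    have := i1 u v (hG h)
    rw [ind_of_adj h] at this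
    have e' : π (D.l s(u, v)) = π (D.r s(u, v)) := e
    have h3 : D.ins K (D.l s(u, v)) = 0 ↔ D.ins K (D.r s(u, v)) = 0 := by rw [← hπ, ← hπ, e']
    generalize D.ins K (D.l s(u, v)) = a at this h3
    generalize D.ins K (D.r s(u, v)) = b at this h3
    revert a b
    decide

theorem Disc.po_In (D : Disc G m F) {K : SimpleGraph V} (hK : IsCyc K) (hG : K ≤ G) :
    PO (D.In K) K.support := by
  obtain ⟨D', f, h1, h2⟩ := D.inDual hK hG
  have := D'.po_star f (by rw [h1]; exact hK) fun u v h => h2 u v (by rw [h1] at h; exact h)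
  rw [h1] at this
  exact this

theorem Disc.ins_mono (D : Disc G m F) {K L : SimpleGraph V} (hK : IsCyc K) (hG : K ≤ G)
    (hL : IsCyc L) (hLK : L ≤ D.In K) {u v : V} (huv : G.Adj u v) :
    (D.ins K (D.l s(u, v)) = 0 → D.ins L (D.l s(u, v)) = 0) ∧
      (D.ins K (D.r s(u, v)) = 0 → D.ins L (D.r s(u, v)) = 0) :=
  D.outside hK hG (D.ins L) (D.ins_spec hL (hLK.trans (D.In_le K))).1
    (fun _ _ p q => D.ins_eq hL (hLK.trans (D.In_le K)) p fun h => q (hLK h)) huv

theorem Disc.In_mono (D : Disc G m F) {K L : SimpleGraph V} (hK : IsCyc K) (hG : K ≤ G)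
    (hL : IsCyc L) (hLK : L ≤ D.In K) : D.In L ≤ D.In K := by
  intro u v huv
  obtain ⟨p, q⟩ := D.ins_mono hK hG hL hLK huv.1
  refine ⟨huv.1, huv.2.imp (fun h => ?_) fun h => ?_⟩
  · exact (z2_cases _).resolve_left fun e => absurd ((p e).symm.trans h) (by decide)
  · exact (z2_cases _).resolve_left fun e => absurd ((q e).symm.trans h) (by decide)

theorem Disc.In_outer (D : Disc G m F) : D.In (cycG F) = G := by
  classical
  obtain ⟨i0, i1⟩ := D.ins_spec D.cyc.isCyc (cycG_le D.cyc)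
  refine le_antisymm (D.In_le _) fun u v huv => ⟨huv, ?_⟩
  obtain ⟨p, q⟩ := D.zero (fun g => D.ins (cycG F) g + (1 + if g = D.f0 then 1 else 0))
    (by simp [i0, z2_add_self]) (fun u v huv => by
      apply z2_eq_of_add
      rw [add_add_add_comm, ← i1 u v huv, ← D.star_f0,
        D.toDual.ind_star D.f0 huv fun _ => D.toDual.sides_ne D.two huv,
        add_add_add_comm 1, z2_add_self 1, zero_add, z2_add_self]) huv
  by_cases e : D.l s(u, v) = D.f0
  · have e' : D.r s(u, v) ≠ D.f0 := fun h => D.toDual.sides_ne D.two huv (e.trans h.symm)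
    simp only [if_neg e', add_zero] at q
    exact Or.inr (z2_eq_of_add q)
  · simp only [if_neg e, add_zero] at p
    exact Or.inl (z2_eq_of_add p)

/-- theta lemma: a cycle `P1 ⊔ P2` and a path `Q` inside it with the same ends -/
theorem Disc.theta (D : Disc G m F) {P1 P2 Q : SimpleGraph V}
    (h12 : IsCyc (P1 ⊔ P2)) (h1 : IsCyc (P1 ⊔ Q)) (h2 : IsCyc (P2 ⊔ Q))
    (d12 : P1 ⊓ P2 = ⊥) (d1 : P1 ⊓ Q = ⊥) (d2 : P2 ⊓ Q = ⊥)
    (hG : P1 ⊔ P2 ≤ G) (hQ : Q ≤ D.In (P1 ⊔ P2)) :
    D.In (P1 ⊔ Q) ⊔ D.In (P2 ⊔ Q) = D.In (P1 ⊔ P2) ∧ D.In (P1 ⊔ Q) ⊓ D.In (P2 ⊔ Q) = Q := by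
  have g1 : P1 ⊔ Q ≤ D.In (P1 ⊔ P2) := sup_le (le_sup_left.trans (D.le_In h12 hG)) hQ
  have g2 : P2 ⊔ Q ≤ D.In (P1 ⊔ P2) := sup_le (le_sup_right.trans (D.le_In h12 hG)) hQ
  obtain ⟨a0, a1⟩ := D.ins_spec h1 (g1.trans (D.In_le _))
  obtain ⟨b0, b1⟩ := D.ins_spec h2 (g2.trans (D.In_le _))
  obtain ⟨c0, c1⟩ := D.ins_spec h12 hG
  have dj : ∀ {A B : SimpleGraph V}, A ⊓ B = ⊥ → ∀ u v, A.Adj u v → ¬ B.Adj u v := by
    intro A B h u v p q
    have : (A ⊓ B).Adj u v := ⟨p, q⟩
    rw [h] at this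
    exact this
  have hi : ∀ {A B : SimpleGraph V}, A ⊓ B = ⊥ → ∀ u v,
      ind (A ⊔ B) s(u, v) = ind A s(u, v) + ind B s(u, v) := by
    intro A B h u v
    by_cases p : A.Adj u v
    · rw [ind_of_adj p, ind_of_not (dj h u v p), ind_of_adj (K := A ⊔ B) (Or.inl p), add_zero]
    · by_cases q : B.Adj u v
      · rw [ind_of_adj q, ind_of_not p, ind_of_adj (K := A ⊔ B) (Or.inr q), zero_add]
      · rw [ind_of_not p, ind_of_not q, ind_of_not (K := A ⊔ B) fun h => h.elim p q, add_zero]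
  have z := fun u v huv => D.zero
    (fun g => D.ins (P1 ⊔ Q) g + D.ins (P2 ⊔ Q) g + D.ins (P1 ⊔ P2) g) (by simp [a0, b0, c0])
    (fun u v huv => by
      apply z2_eq_of_add
      rw [add_add_add_comm, add_add_add_comm (D.ins (P1 ⊔ Q) _), ← a1 u v huv, ← b1 u v huv,
        ← c1 u v huv, hi d12, hi d1, hi d2]
      generalize ind P1 s(u, v) = a
      generalize ind P2 s(u, v) = b
      generalize ind Q s(u, v) = c
      revert a b c
      decide) (u := u) (v := v) huv
  have aux : ∀ a b c : ZMod 2, a + b + c = 0 → c = 1 → a = 1 ∨ b = 1 := by decide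
  constructor
  · refine le_antisymm (sup_le (D.In_mono h12 hG h1 g1) (D.In_mono h12 hG h2 g2))
      fun u v huv => ?_
    obtain ⟨p, q⟩ := z u v huv.1
    rcases huv.2 with e | e
    · exact (aux _ _ _ p e).imp (fun h => ⟨huv.1, Or.inl h⟩) fun h => ⟨huv.1, Or.inl h⟩
    · exact (aux _ _ _ q e).imp (fun h => ⟨huv.1, Or.inr h⟩) fun h => ⟨huv.1, Or.inr h⟩
  · refine le_antisymm (fun u v huv => ?_)
      (le_inf (le_sup_right.trans (D.le_In h1 (g1.trans (D.In_le _))))
        (le_sup_right.trans (D.le_In h2 (g2.trans (D.In_le _)))))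
    obtain ⟨⟨huv, r1⟩, -, r2⟩ := huv
    obtain ⟨p, q⟩ := z u v huv
    obtain ⟨m1, m2⟩ := D.ins_mono h12 hG h1 g1 huv
    obtain ⟨m3, m4⟩ := D.ins_mono h12 hG h2 g2 huv
    have e1 := a1 u v huv
    have e2 := b1 u v huv
    have key : ind (P1 ⊔ Q) s(u, v) = 1 ∧ ind (P2 ⊔ Q) s(u, v) = 1 := by
      rw [e1, e2]
      have t : ∀ x y z : ZMod 2, (z = 0 → x = 0) → (z = 0 → y = 0) → x + y + z = 0 →
          x * y = 0 := by decide
      have t' : ∀ x1 x2 y1 y2 : ZMod 2, x1 * y1 = 0 → x2 * y2 = 0 → (x1 = 1 ∨ x2 = 1) →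
          (y1 = 1 ∨ y2 = 1) → x1 + x2 = 1 ∧ y1 + y2 = 1 := by
        intro x1 x2 y1 y2
        rcases z2_cases x1 with rfl | rfl <;> rcases z2_cases x2 with rfl | rfl <;>
          revert y1 y2 <;> decide
      exact t' _ _ _ _ (t _ _ _ m1 m3 p) (t _ _ _ m2 m4 q) r1 r2
    have k1 : (P1 ⊔ Q).Adj u v := by
      by_contra h
      exact absurd ((ind_of_not h).symm.trans key.1) (by decide)
    have k2 : (P2 ⊔ Q).Adj u v := by
      by_contra h
      exact absurd ((ind_of_not h).symm.trans key.2) (by decide)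
    exact k1.elim (fun p => k2.elim (fun q => absurd q (dj d12 u v p)) id) id

/-- Splitting along a path `F a, q, F b` whose inner vertices are off the outer cycle. -/
theorem Disc.split (D : Disc G m F) {a b : ℤ} (hab : a < b) (hb : b < a + m) {q : List V}
    (hq : List.IsChain G.Adj (F a :: q ++ [F b])) (hn : q.Nodup) (ho : ∀ x ∈ q, x ∉ Set.range F)
    (hc : q = [] → ¬ (cycG F).Adj (F a) (F b)) :
    ∃ G1 G2 : SimpleGraph V,
      G1 = D.In (arcG F a b ⊔ listG (F a :: q ++ [F b])) ∧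
      G2 = D.In (arcG F b (a + m) ⊔ listG (F a :: q ++ [F b])) ∧
      IsCyc (arcG F a b ⊔ listG (F a :: q ++ [F b])) ∧
      IsCyc (arcG F b (a + m) ⊔ listG (F a :: q ++ [F b])) ∧
      G1 ⊔ G2 = G ∧ G1 ⊓ G2 = listG (F a :: q ++ [F b]) ∧
      arcG F a b ≤ G1 ∧ arcG F b (a + m) ≤ G2 ∧
      (∀ x, x ∈ G1.support → x ∈ G2.support → x ∈ F a :: q ++ [F b]) ∧
      (∀ i, a < i → i < b → F i ∉ G2.support) ∧ (∀ i, b < i → i < a + m → F i ∉ G1.support) ∧
      PO G1 {x | x ∈ q ∨ ∃ i, a ≤ i ∧ i ≤ b ∧ x = F i} ∧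
      PO G2 {x | x ∈ q ∨ ∃ i, b ≤ i ∧ i ≤ a + m ∧ x = F i} := by
  have cy := D.cyc
  have hF : ∀ i j, F i = F j → i - j < m → j - i < m → i = j := by
    intro i j e p q
    have := Int.eq_zero_of_abs_lt_dvd ((cy.2.2 i j).1 e) (abs_lt.2 ⟨by omega, p⟩)
    omega
  have hper : F (a + m) = F a := (cy.2.2 _ _).2 ⟨1, by ring⟩
  have hnd : (F a :: q ++ [F b]).Nodup := by
    rw [List.cons_append, List.nodup_cons, List.nodup_append]
    refine ⟨fun h => ?_, hn, List.nodup_singleton _, fun x hx y hy e => ho x hx ⟨b, ?_⟩⟩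
    · rcases List.mem_append.1 h with h | h
      · exact ho _ h ⟨a, rfl⟩
      · have := hF a b (List.mem_singleton.1 h) (by omega) (by omega)
        omega
    · rw [e, List.mem_singleton.1 hy]
  set Q := listG (F a :: q ++ [F b]) with hQ
  have hQs : Q.support = {x | x ∈ F a :: q ++ [F b]} := listG_support hnd
  have hQp : IsPth Q (F a) (F b) := listG_isPth hnd
  have hQG : Q ≤ G := listG_le hq
  have hQF : ∀ i, F i ∈ Q.support → F i = F a ∨ F i = F b := by
    intro i hi
    rw [hQs] at hi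
    simp only [List.cons_append, List.mem_cons, List.mem_append, List.not_mem_nil, or_false,
      Set.mem_ofPred_eq] at hi
    rcases hi with h | h | h
    · exact Or.inl h
    · exact absurd ⟨i, rfl⟩ (ho _ h)
    · exact Or.inr h
  have hd : cycG F ⊓ Q = ⊥ := by
    refine le_bot_iff.1 fun u v huv => ?_
    obtain ⟨h1, h2⟩ := huv
    obtain ⟨i, rfl⟩ : u ∈ Set.range F := cycG_support cy ▸ ⟨v, h1⟩
    obtain ⟨j, rfl⟩ : v ∈ Set.range F := cycG_support cy ▸ ⟨_, h1.symm⟩
    have hab' : (cycG F).Adj (F a) (F b) ∧ Q.Adj (F a) (F b) := by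
      rcases hQF i ⟨_, h2⟩ with e | e <;> rcases hQF j ⟨_, h2.symm⟩ with e' | e'
      · exact absurd (e.trans e'.symm) h1.ne
      · exact e ▸ e' ▸ ⟨h1, h2⟩
      · exact e ▸ e' ▸ ⟨h1.symm, h2.symm⟩
      · exact absurd (e.trans e'.symm) h1.ne
    cases q with
    | nil => exact hc rfl hab'.1
    | cons x q =>
      obtain ⟨y, hy⟩ := hQp.2.1
      have h3 : Q.Adj (F a) x := by
        rw [hQ, List.cons_append, List.cons_append, listG_cons]
        refine Or.inr ?_
        rw [SimpleGraph.edge_adj]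
        exact ⟨Or.inl ⟨rfl, rfl⟩, fun e => ho x (by simp) ⟨a, e⟩⟩
      exact ho x (by simp) ⟨b, ((hy _).1 hab'.2).trans ((hy _).1 h3).symm⟩
  have d1 : arcG F a b ⊓ Q = ⊥ := le_bot_iff.1 (hd ▸ inf_le_inf_right Q (arcG_le cy a b))
  have d2 : arcG F b (a + m) ⊓ Q = ⊥ := le_bot_iff.1 (hd ▸ inf_le_inf_right Q (arcG_le cy b _))
  have s1 := arcG_support cy hab
  have s2 := arcG_support cy hb
  have c1 : IsCyc (arcG F a b ⊔ Q) := by
    refine (arcG_isPth cy hab hb).isCyc hQp (fun x h1 h2 => ?_) d1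
    rw [s1] at h1
    obtain ⟨i, -, -, rfl⟩ := h1
    exact hQF i h2
  have c2 : IsCyc (arcG F b (a + m) ⊔ Q) := by
    have := arcG_isPth cy hb (by omega)
    rw [hper] at this
    refine this.symm.isCyc hQp (fun x h1 h2 => ?_) d2
    rw [s2] at h1
    obtain ⟨i, -, -, rfl⟩ := h1
    exact hQF i h2
  obtain ⟨u1, u2⟩ := arcG_sup cy hab hb
  have g1 : arcG F a b ⊔ Q ≤ G := sup_le ((arcG_le cy _ _).trans (cycG_le cy)) hQG
  have g2 : arcG F b (a + m) ⊔ Q ≤ G := sup_le ((arcG_le cy _ _).trans (cycG_le cy)) hQG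
  obtain ⟨t1, t2⟩ := D.theta (P1 := arcG F a b) (P2 := arcG F b (a + m)) (Q := Q)
    (u1 ▸ cy.isCyc) c1 c2 u2 d1 d2 (u1 ▸ cycG_le cy) (by rw [u1, D.In_outer]; exact hQG)
  rw [u1, D.In_outer] at t1
  have sup : ∀ (A B : SimpleGraph V) x, x ∈ (A ⊔ B).support → x ∈ A.support ∨ x ∈ B.support := by
    rintro A B x ⟨y, h | h⟩
    · exact Or.inl ⟨y, h⟩
    · exact Or.inr ⟨y, h⟩
  have o2 : ∀ i, a < i → i < b → F i ∉ (D.In (arcG F b (a + m) ⊔ Q)).support := by
    intro i p1 p2 h
    rcases sup _ _ _ (D.outer_vertex c2 g2 h) with h | h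
    · rw [s2] at h
      obtain ⟨j, r1, r2, e⟩ := h
      have := hF i j e (by omega) (by omega)
      omega
    · rcases hQF i h with e | e
      · have := hF i a e (by omega) (by omega)
        omega
      · have := hF i b e (by omega) (by omega)
        omega
  have o1 : ∀ i, b < i → i < a + m → F i ∉ (D.In (arcG F a b ⊔ Q)).support := by
    intro i p1 p2 h
    rcases sup _ _ _ (D.outer_vertex c1 g1 h) with h | h
    · rw [s1] at h
      obtain ⟨j, r1, r2, e⟩ := h
      have := hF i j e (by omega) (by omega)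
      omega
    · rcases hQF i h with e | e
      · have := hF i a e (by omega) (by omega)
        omega
      · have := hF i b e (by omega) (by omega)
        omega
  have hmem : ∀ x ∈ F a :: q ++ [F b], x = F a ∨ x ∈ q ∨ x = F b := by
    intro x hx
    simpa using hx
  refine ⟨_, _, rfl, rfl, c1, c2, t1, t2, le_sup_left.trans (D.le_In c1 g1),
    le_sup_left.trans (D.le_In c2 g2), fun x h1 h2 => ?_, o2, o1, ?_, ?_⟩
  · by_contra hx
    have hx' : x ∉ Q.support := by rwa [hQs]
    have end1 : ∀ i, x = F i → i ≠ a ∧ i ≠ b ∧ i ≠ a + m := by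
      rintro i rfl
      refine ⟨?_, ?_, ?_⟩ <;> rintro rfl
      · exact hx (by simp)
      · exact hx (by simp)
      · exact hx (by simp [hper])
    by_cases k1 : x ∈ (arcG F a b ⊔ Q).support
    · have := (sup _ _ _ k1).resolve_right hx'
      rw [s1] at this
      obtain ⟨i, r1, r2, e⟩ := this
      obtain ⟨n1, n2, -⟩ := end1 i e
      exact o2 i (by omega) (by omega) (e ▸ h2)
    by_cases k2 : x ∈ (arcG F b (a + m) ⊔ Q).support
    · have := (sup _ _ _ k2).resolve_right hx'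
      rw [s2] at this
      obtain ⟨i, r1, r2, e⟩ := this
      obtain ⟨-, n1, n2⟩ := end1 i e
      exact o1 i (by omega) (by omega) (e ▸ h1)
    obtain ⟨y, hy⟩ := h1
    obtain ⟨z, hz⟩ := h2
    have : (D.In (arcG F a b ⊔ Q) ⊓ D.In (arcG F b (a + m) ⊔ Q)).Adj x y :=
      ⟨hy, D.side c2 g2 k2 hz hy.1⟩
    rw [t2] at this
    exact hx' ⟨y, this⟩
  · refine (D.po_In c1 g1).mono le_rfl fun x hx _ => ?_
    rcases hx with hx | hx
    · exact SimpleGraph.support_mono le_sup_right (by rw [hQs]; simp [hx])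
    · exact SimpleGraph.support_mono le_sup_left (by rw [s1]; exact hx)
  · refine (D.po_In c2 g2).mono le_rfl fun x hx _ => ?_
    rcases hx with hx | hx
    · exact SimpleGraph.support_mono le_sup_right (by rw [hQs]; simp [hx])
    · exact SimpleGraph.support_mono le_sup_left (by rw [s2]; exact hx)

theorem Disc.face (D : Disc G m F) {K : SimpleGraph V} (hK : IsCyc K) (hG : K ≤ G)
    (he : D.In K = K) : ∃ f : D.Fc, D.toDual.star f = K ∧ f ≠ D.f0 := by
  obtain ⟨u, v, huv⟩ : ∃ u v, K.Adj u v := by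
    by_contra hn
    exact hK.1 (by ext u v; exact ⟨fun h => hn ⟨u, v, h⟩, fun h => h.elim⟩)
  obtain ⟨f, h1, h2⟩ : ∃ f, D.ins K f = 1 ∧ (D.toDual.star f).Adj u v := by
    rcases (D.le_In hK hG huv).2 with e | e
    · exact ⟨_, e, hG huv, Or.inl rfl⟩
    · exact ⟨_, e, hG huv, Or.inr rfl⟩
  have h3 : D.toDual.star f ≤ K := by
    rw [← he]
    rintro x y ⟨p, q⟩
    exact ⟨p, q.imp (fun e => by rw [e, h1]) fun e => by rw [e, h1]⟩
  have h4 := D.toDual.star_isCyc D.two f fun e => by simp [e] at h2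
  obtain ⟨t, ht⟩ := hK.min (S := ind (D.toDual.star f)) fun x => by
    rw [bd_sub h3 fun w _ hw => ind_of_not hw, h4.even]
  refine ⟨f, le_antisymm h3 fun x y hxy => ?_, fun e => ?_⟩
  · by_contra hn
    have := (ht x y hxy).trans (ht u v huv).symm
    rw [ind_of_not hn, ind_of_adj h2] at this
    exact absurd this (by decide)
  · rw [e, (D.ins_spec hK hG).1] at h1
    exact absurd h1 (by decide)

/-- a cycle with nothing inside is a face: any two of its vertices can be joined -/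
theorem Disc.add_chord (D : Disc G m F) {K : SimpleGraph V} (hK : IsCyc K) (hG : K ≤ G)
    (he : D.In K = K) {w y : V} (hw : w ∈ K.support) (hy : y ∈ K.support)
    (hwy : w ≠ y) : PO (G ⊔ SimpleGraph.edge w y) (Set.range F) := by
  by_cases hn : G.Adj w y
  · have : G ⊔ SimpleGraph.edge w y = G := by
      refine sup_eq_left.2 fun u v h => ?_
      rw [SimpleGraph.edge_adj] at h
      rcases h.1 with ⟨rfl, rfl⟩ | ⟨rfl, rfl⟩
      · exact hn
      · exact hn.symm
    rw [this]
    exact D.po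
  obtain ⟨f, h1, h2⟩ := D.face hK hG he
  obtain ⟨D', g, h3, h4⟩ := D.toDual.add_edge f (h1 ▸ hK)
    (fun u v h => D.toDual.sides_ne D.two h.1) (h1 ▸ hw) (h1 ▸ hy) hwy hn D.f0 h2.symm
  rw [D.star_f0] at h3
  have := D'.po_star g (h3 ▸ D.cyc.isCyc) fun u v h => by
    rw [h3] at h
    exact h4 u v (cycG_le D.cyc h) (D.toDual.sides_ne D.two (cycG_le D.cyc h))
  rwa [h3, cycG_support D.cyc] at this

/-- a cycle with nothing inside can be made the outer cycle -/
theorem Disc.reroot (D : Disc G m F) {n : ℕ} {C : ℤ → V} (hC : Cyc G n C)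
    (he : D.In (cycG C) = cycG C) : Nonempty (Disc G n C) := by
  obtain ⟨f, h1, -⟩ := D.face hC.isCyc (cycG_le hC) he
  exact ⟨D.toDual.disc D.two f hC h1.symm⟩

theorem Disc.In_two (D : Disc G m F) {K : SimpleGraph V} (hK : IsCyc K) (hG : K ≤ G) :
    TwoConn (D.In K) := by
  have hle := D.le_In hK hG
  obtain ⟨⟨a, ha, b, hb, c, hc, h1, h2, h3⟩, hT⟩ := hK.twoConn
  refine ⟨⟨a, SimpleGraph.support_mono hle ha, b, SimpleGraph.support_mono hle hb, c,
    SimpleGraph.support_mono hle hc, h1, h2, h3⟩, fun x => ?_⟩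
  obtain ⟨k, hk1, hk2⟩ : ∃ k ∈ K.support, k ≠ x := by
    by_cases e : a = x
    · exact ⟨b, hb, e ▸ h1.symm⟩
    · exact ⟨a, ha, e⟩
  have onK : ∀ p ∈ K.support, p ≠ x →
      ReflTransGen (fun u v => (D.In K).Adj u v ∧ u ≠ x ∧ v ≠ x) p k :=
    fun p hp hx => rtg_mono (fun _ _ h => ⟨hle h.1, h.2⟩) (hT x p k hp hk1 hx hk2)
  have key : ∀ p ∈ (D.In K).support, p ≠ x →
      ReflTransGen (fun u v => (D.In K).Adj u v ∧ u ≠ x ∧ v ≠ x) p k := by
    intro p hp hx
    have hr := D.two.2 x p k (SimpleGraph.support_mono (D.In_le K) hp)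
      (SimpleGraph.support_mono hG hk1) hx hk2
    induction hr using ReflTransGen.head_induction_on with
    | refl => exact ReflTransGen.refl
    | @head p q h _ ih =>
      by_cases hpK : p ∈ K.support
      · exact onK p hpK hx
      · obtain ⟨w, hw⟩ := hp
        have := D.side hK hG hpK hw h.1
        exact ReflTransGen.head ⟨this, h.2⟩ (ih ⟨p, this.symm⟩ h.2.2)
  intro p q hp hq hpx hqx
  exact (key p hp hpx).trans (rtg_symm (fun x y h => ⟨h.1.symm, h.2.2, h.2.1⟩) (key q hq hqx))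

/-- the closed disc of a cycle, with that cycle as outer cycle -/
theorem Disc.sub (D : Disc G m F) {n : ℕ} {C : ℤ → V} (hC : Cyc G n C) :
    Nonempty (Disc (D.In (cycG C)) n C) := by
  obtain ⟨D', f, h1, -⟩ := D.inDual hC.isCyc (cycG_le hC)
  refine ⟨D'.disc (D.In_two hC.isCyc (cycG_le hC)) f ⟨hC.1, fun i => ?_, hC.2.2⟩ h1.symm⟩
  exact D.le_In hC.isCyc (cycG_le hC) ((cycG_adj hC i _).2 (Or.inl rfl))

open Classical in
theorem IsPth.bd_ind {K : SimpleGraph V} {a b : V} (h : IsPth K a b) (v : V) :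
    bd K (ind K) v = (if v = a then 1 else 0) + (if v = b then 1 else 0) := by
  obtain ⟨h1, ⟨x, h2⟩, ⟨y, h3⟩, h4, -⟩ := h
  by_cases ha : v = a
  · subst ha
    rw [bd_one ((h2 x).2 rfl) fun w p q => absurd ((h2 w).1 p) q, ind_of_adj ((h2 x).2 rfl)]
    simp [h1]
  by_cases hb : v = b
  · subst hb
    rw [bd_one ((h3 y).2 rfl) fun w p q => absurd ((h3 w).1 p) q, ind_of_adj ((h3 y).2 rfl)]
    simp [ha]
  rw [if_neg ha, if_neg hb, add_zero]
  by_cases hv : v ∈ K.support
  · obtain ⟨p, q, h5, h6⟩ := h4 v hv ha hb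
    rw [bd_two ((h6 p).2 (Or.inl rfl)) ((h6 q).2 (Or.inr rfl)) h5
      fun w r1 r2 r3 => (((h6 w).1 r1).elim r2 r3).elim,
      ind_of_adj ((h6 p).2 (Or.inl rfl)), ind_of_adj ((h6 q).2 (Or.inr rfl)), z2_add_self]
  · exact bd_none fun w hw => absurd ⟨w, hw⟩ hv

/-- two disjoint connected sets cannot join alternating points of the outer cycle -/
theorem Disc.no_cross (D : Disc G m F) {a b c d : ℤ} (h1 : a < b) (h2 : b < c) (h3 : c < d)
    (h4 : d < a + m) {A B : Set V} (hd : Disjoint A B)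
    (hA : ReflTransGen (fun x y => G.Adj x y ∧ x ∈ A ∧ y ∈ A) (F a) (F c))
    (hB : ReflTransGen (fun x y => G.Adj x y ∧ x ∈ B ∧ y ∈ B) (F b) (F d)) : False := by
  classical
  have cy := D.cyc
  have hF : ∀ i j, F i = F j → i - j < m → j - i < m → i = j := by
    intro i j e p q
    have := Int.eq_zero_of_abs_lt_dvd ((cy.2.2 i j).1 e) (abs_lt.2 ⟨by omega, p⟩)
    omega
  obtain ⟨J, hJ1, hJ2⟩ := exists_join (G := G) (fun _ _ h => h.1) hA
  have hJ0 : ∀ v w, v ∉ A → J s(v, w) = 0 := by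
    intro v w hv
    by_contra h
    obtain ⟨x, y, ⟨-, p1, p2⟩, e⟩ := hJ1 _ h
    rcases Sym2.eq_iff.1 e with ⟨rfl, rfl⟩ | ⟨rfl, rfl⟩
    · exact hv p1
    · exact hv p2
  have hle : arcG F a c ≤ G := (arcG_le cy a c).trans (cycG_le cy)
  obtain ⟨c0, hc0⟩ := (D.cob (J + ind (arcG F a c))).1 fun v => by
    rw [bd_add, hJ2, bd_sub hle fun w _ hw => ind_of_not hw,
      (arcG_isPth cy (by omega) (by omega)).bd_ind, z2_add_self]
  let k : D.Fc → ZMod 2 := fun g => c0 g + c0 D.f0
  have hk0 : k D.f0 = 0 := z2_add_self _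
  have hk : ∀ u v, G.Adj u v → u ∉ A →
      ind (arcG F a c) s(u, v) = k (D.l s(u, v)) + k (D.r s(u, v)) := by
    intro u v huv hu
    have := hc0 u v huv
    simp only [Pi.add_apply, hJ0 u v hu, zero_add] at this
    simp only [k]
    rw [add_add_add_comm, z2_add_self, add_zero, this]
  let p : Sym2 V → ZMod 2 := fun e => k (D.l e) + k (D.r e) + k (D.l e) * k (D.r e)
  have hout : ∀ u v, (cycG F).Adj u v → u ∉ A → p s(u, v) = ind (arcG F a c) s(u, v) := by
    intro u v huv hu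
    rw [hk u v (cycG_le cy huv) hu]
    rcases (D.out u v (cycG_le cy huv)).1 huv with e | e <;> simp [p, e, hk0]
  have loc : ∀ v x y, v ∉ A → G.Adj v x → G.Adj v y → p s(v, x) = p s(v, y) := by
    intro v x y hv hx hy
    by_cases hxy : x = y
    · rw [hxy]
    obtain ⟨S, p1, p2, p3, p4⟩ := D.two.two_edges hx hy hxy
    obtain ⟨c', hc'⟩ := (D.cob S).1 p1
    have h5 := D.toDual.even (fun g => k g * (c' g + c' D.f0)) v
    rw [bd_congr (T := fun e => p e * S e) (fun w hw => ?_),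
      bd_two hx hy hxy fun w _ q1 q2 => by simp [p4 w q1 q2], p2, p3, mul_one, mul_one] at h5
    · exact z2_eq_of_add h5
    · have e1 := hk v w hw hv
      simp only [p, hc' v w hw]
      by_cases hs : (arcG F a c).Adj v w
      · rcases (D.out v w hw).1 (arcG_le cy a c hs) with e | e
        · rw [e, hk0]
          generalize k (D.r s(v, w)) = a
          generalize c' (D.r s(v, w)) = b
          generalize c' D.f0 = d
          revert a b d
          decide
        · rw [e, hk0]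
          generalize k (D.l s(v, w)) = a
          generalize c' (D.l s(v, w)) = b
          generalize c' D.f0 = d
          revert a b d
          decide
      · rw [ind_of_not hs] at e1
        rw [z2_eq_of_add e1.symm]
        generalize k (D.r s(v, w)) = a
        generalize c' (D.r s(v, w)) = b
        generalize c' (D.l s(v, w)) = b'
        generalize c' D.f0 = d
        revert a b b' d
        decide
  have hB' : ∀ x ∈ B, x ∉ A := fun x h1 h2 => Set.disjoint_left.1 hd h2 h1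
  have hbd : F b ≠ F d := fun e => by
    have := hF b d e (by omega) (by omega)
    omega
  have hb : F b ∈ B := by
    rcases hB.cases_head with e | ⟨z, hz, -⟩
    · exact absurd e hbd
    · exact hz.2.1
  have main : ∀ v, ReflTransGen (fun x y => G.Adj x y ∧ x ∈ B ∧ y ∈ B) (F b) v →
      v ∈ B ∧ ∀ w, G.Adj v w → p s(v, w) = 1 := by
    intro v hv
    induction hv with
    | refl =>
      refine ⟨hb, fun w hw => ?_⟩
      rw [loc _ w _ (hB' _ hb) hw (cy.2.1 b),
        hout _ _ ((cycG_adj cy b _).2 (Or.inl rfl)) (hB' _ hb), ind_of_adj]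
      exact (SimpleGraph.fromRel_adj _ _ _).2
        ⟨(cy.2.1 b).ne, Or.inl ⟨b, by omega, by omega, rfl, rfl⟩⟩
    | tail _ h ih =>
      refine ⟨h.2.2, fun w hw => ?_⟩
      rw [loc _ w _ (hB' _ h.2.2) hw h.1.symm, Sym2.eq_swap]
      exact ih.2 _ h.1
  obtain ⟨q1, q2⟩ := main _ hB
  have := q2 _ (cy.2.1 d)
  rw [hout _ _ ((cycG_adj cy d _).2 (Or.inl rfl)) (hB' _ q1), ind_of_not] at this
  · exact absurd this (by decide)
  · intro h
    have : F d ∈ (arcG F a c).support := ⟨_, h⟩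
    rw [arcG_support cy (by omega)] at this
    obtain ⟨i, r1, r2, e⟩ := this
    have := hF d i e (by omega) (by omega)
    omega

end Pool.Agent.Pl
end

-- merged part: Pool.Agent.Work.MP_5bd7f1_co.KZ.Col
section
/-! Three-colourings, critical graphs: definitions and basic facts. -/

set_option autoImplicit false
open Relation Pool.Agent.Pl

namespace Pool.Agent.KZ

variable {V : Type}

/-- proper colouring with three colours -/
def Prp (G : SimpleGraph V) (φ : V → Fin 3) : Prop := ∀ u v, G.Adj u v → φ u ≠ φ v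

def Col (G : SimpleGraph V) : Prop := ∃ φ, Prp G φ

/-- number of edges -/
noncomputable def ne (G : SimpleGraph V) : ℕ := G.edgeSet.ncard

/-- number of non-isolated vertices -/
noncomputable def nv (G : SimpleGraph V) : ℕ := G.support.ncard

/-- the edges inside `W` -/
def on (G : SimpleGraph V) (W : Set V) : SimpleGraph V where
  Adj a b := G.Adj a b ∧ a ∈ W ∧ b ∈ W
  symm := ⟨fun _ _ h => ⟨h.1.symm, h.2.2, h.2.1⟩⟩
  loopless := ⟨fun _ h => G.loopless.irrefl _ h.1⟩

/-- image of a graph under a vertex map -/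
def push (G : SimpleGraph V) (π : V → V) : SimpleGraph V where
  Adj u v := u ≠ v ∧ ∃ a b, G.Adj a b ∧ π a = u ∧ π b = v
  symm := ⟨fun _ _ ⟨h, a, b, p, q, r⟩ => ⟨h.symm, b, a, p.symm, r, q⟩⟩
  loopless := ⟨fun _ h => h.1 rfl⟩

/-- delete one edge -/
def less (G : SimpleGraph V) (u v : V) : SimpleGraph V where
  Adj a b := G.Adj a b ∧ s(a, b) ≠ s(u, v)
  symm := ⟨fun a b h => ⟨h.1.symm, by rw [Sym2.eq_swap]; exact h.2⟩⟩
  loopless := ⟨fun _ h => G.loopless.irrefl _ h.1⟩

/-- `φ` on the vertices of `C` extends to `G` -/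
def Ext (G C : SimpleGraph V) (φ : V → Fin 3) : Prop :=
  ∃ χ, Prp G χ ∧ ∀ v ∈ C.support, χ v = φ v

/-- critical for the precoloured subgraph `C` -/
def Crit (G C : SimpleGraph V) : Prop :=
  ∀ u v, G.Adj u v → ¬ C.Adj u v → ∃ φ, Prp (less G u v) φ ∧ ¬ Ext G C φ

/-- critical for one colouring of `C` -/
def PCrit (G C : SimpleGraph V) (ψ : V → Fin 3) : Prop :=
  ¬ Ext G C ψ ∧ ∀ H, C ≤ H → H ≤ G → H ≠ G → Ext H C ψ

theorem Prp.mono {G H : SimpleGraph V} {φ : V → Fin 3} (h : Prp G φ) (hH : H ≤ G) : Prp H φ :=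
  fun u v k => h u v (hH k)

theorem Col.mono {G H : SimpleGraph V} (h : Col G) (hH : H ≤ G) : Col H :=
  h.imp fun _ k => k.mono hH

theorem Ext.mono {G H C : SimpleGraph V} {φ : V → Fin 3} (h : Ext G C φ) (hH : H ≤ G) :
    Ext H C φ := h.imp fun _ k => ⟨k.1.mono hH, k.2⟩

theorem ext_bot {G : SimpleGraph V} {φ : V → Fin 3} : Ext G ⊥ φ ↔ Col G :=
  ⟨fun ⟨χ, h, _⟩ => ⟨χ, h⟩, fun ⟨χ, h⟩ => ⟨χ, h, fun _ ⟨_, k⟩ => k.elim⟩⟩

theorem on_le (G : SimpleGraph V) (W : Set V) : on G W ≤ G := fun _ _ h => h.1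

theorem on_mono {G H : SimpleGraph V} {W U : Set V} (h : G ≤ H) (k : W ⊆ U) : on G W ≤ on H U :=
  fun _ _ p => ⟨h p.1, k p.2.1, k p.2.2⟩

theorem on_supp (G : SimpleGraph V) : on G G.support = G := by
  ext a b
  exact ⟨fun h => h.1, fun h => ⟨h, ⟨b, h⟩, ⟨a, h.symm⟩⟩⟩

theorem less_le (G : SimpleGraph V) (u v : V) : less G u v ≤ G := fun _ _ h => h.1

theorem less_ne {G : SimpleGraph V} {u v : V} (h : G.Adj u v) : less G u v ≠ G := fun e => by
  have : (less G u v).Adj u v := e.symm ▸ h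
  exact this.2 rfl

theorem le_less {G H : SimpleGraph V} {u v : V} (h : H ≤ G) (k : ¬ H.Adj u v) :
    H ≤ less G u v := fun a b p => ⟨h p, fun e => k (by
      have : s(a, b) ∈ H.edgeSet := p
      rwa [e] at this)⟩

theorem exists_edge {G H : SimpleGraph V} (h : H ≤ G) (k : H ≠ G) :
    ∃ u v, G.Adj u v ∧ ¬ H.Adj u v := by
  by_contra hn
  push Not at hn
  exact k (le_antisymm h fun u v p => hn u v p)

theorem Prp.pull {G : SimpleGraph V} {π : V → V} {φ : V → Fin 3} (h : Prp (push G π) φ)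
    (hπ : ∀ a b, G.Adj a b → π a ≠ π b) : Prp G (fun v => φ (π v)) :=
  fun a b k => h _ _ ⟨hπ a b k, a, b, k, rfl, rfl⟩

theorem PCrit.crit {G C : SimpleGraph V} {ψ : V → Fin 3} (h : PCrit G C ψ) (hC : C ≤ G) :
    Crit G C := by
  intro u v huv hn
  obtain ⟨χ, h1, h2⟩ := h.2 _ (le_less hC hn) (less_le G u v) (less_ne huv)
  exact ⟨χ, h1, fun ⟨χ', k1, k2⟩ => h.1 ⟨χ', k1, fun x hx => (k2 x hx).trans (h2 x hx)⟩⟩

theorem exists_pcrit [Fintype V] {G C : SimpleGraph V} {ψ : V → Fin 3} (hC : C ≤ G)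
    (h : ¬ Ext G C ψ) : ∃ H, C ≤ H ∧ H ≤ G ∧ PCrit H C ψ := by
  obtain ⟨H, h1, h2⟩ := exists_minimal_le_of_wellFoundedLT
    (fun H : SimpleGraph V => C ≤ H ∧ ¬ Ext H C ψ) G ⟨hC, h⟩
  refine ⟨H, h2.1.1, h1, h2.1.2, fun K k1 k2 k3 => ?_⟩
  by_contra hn
  exact k3 (le_antisymm k2 (h2.2 ⟨k1, hn⟩ k2))

theorem Crit.col_lt {G H : SimpleGraph V} (h : Crit G ⊥) (hH : H ≤ G) (k : H ≠ G) : Col H := by
  obtain ⟨u, v, p, q⟩ := exists_edge hH k
  obtain ⟨φ, r, -⟩ := h u v p id
  exact ⟨φ, r.mono (le_less hH q)⟩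

theorem Crit.not_col {G : SimpleGraph V} (h : Crit G ⊥) (k : G ≠ ⊥) : ¬ Col G := by
  obtain ⟨u, v, p⟩ := SimpleGraph.ne_bot_iff_exists_adj.1 k
  obtain ⟨φ, -, r⟩ := h u v p id
  exact fun c => r (ext_bot.2 c)

theorem exists_crit [Fintype V] {G : SimpleGraph V} (h : ¬ Col G) :
    ∃ H, H ≤ G ∧ ¬ Col H ∧ Crit H ⊥ := by
  obtain ⟨H, -, h1, h2⟩ := exists_pcrit (C := ⊥) (ψ := fun _ => 0) bot_le (mt ext_bot.1 h)
  exact ⟨H, h1, mt ext_bot.2 h2.1, h2.crit bot_le⟩

open Classical in
/-- two colourings that agree round the set `Q` -/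
theorem glue {G : SimpleGraph V} (Q : Set V) {φ χ : V → Fin 3}
    (h1 : ∀ u v, G.Adj u v → u ∉ Q → v ∉ Q → φ u ≠ φ v)
    (h2 : ∀ u v, G.Adj u v → u ∈ Q → χ u ≠ χ v)
    (h3 : ∀ u v, G.Adj u v → u ∈ Q → v ∉ Q → χ v = φ v) :
    Prp G (fun v => if v ∈ Q then χ v else φ v) := by
  intro u v h
  by_cases hu : u ∈ Q <;> by_cases hv : v ∈ Q <;> simp only [hu, hv, if_true, if_false]
  · exact h2 u v h hu
  · rw [← h3 u v h hu hv]; exact h2 u v h hu
  · rw [← h3 v u h.symm hv hu]; exact (h2 v u h.symm hv).symm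
  · exact h1 u v h hu hv

theorem third (a b : Fin 3) : ∃ c : Fin 3, c ≠ a ∧ c ≠ b := by revert a b; decide

/-- a free vertex of a critical graph has three neighbours -/
theorem Crit.third_nb {G C : SimpleGraph V} (h : Crit G C) {v : V} (hv : v ∈ G.support)
    (hn : v ∉ C.support) (x y : V) : ∃ z, G.Adj v z ∧ z ≠ x ∧ z ≠ y := by
  classical
  by_contra hc
  push Not at hc
  obtain ⟨w, hw⟩ := hv
  obtain ⟨φ, p, q⟩ := h v w hw fun k => hn ⟨w, k⟩
  obtain ⟨c, c1, c2⟩ := third (φ x) (φ y)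
  refine q ⟨_, glue (G := G) {v} (φ := φ) (χ := fun u => if u = v then c else φ u) ?_ ?_ ?_, ?_⟩
  · intro a b k ha hb
    refine p a b ⟨k, fun e => ?_⟩
    rcases Sym2.eq_iff.1 e with ⟨rfl, -⟩ | ⟨-, rfl⟩
    · exact ha rfl
    · exact hb rfl
  · rintro a b k rfl
    simp only [if_true, if_neg k.ne']
    by_cases e : b = x
    · exact e ▸ c1
    · exact hc b k e ▸ c2
  · intro a b _ _ hb
    exact if_neg hb
  · intro u hu
    exact if_neg fun (e : u = v) => hn (e ▸ hu)

theorem perm3 (a b : Fin 3) : ∃ σ : Fin 3 → Fin 3, Function.Injective σ ∧ σ a = b :=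
  ⟨Equiv.swap a b, (Equiv.swap a b).injective, Equiv.swap_apply_left a b⟩

/-- a part that hangs on one vertex can be coloured -/
theorem Crit.no_piece {G C : SimpleGraph V} (h : Crit G C) {Q : Set V} {x a : V} (ha : a ∈ Q)
    (has : a ∈ G.support) (hQ : ∀ u ∈ Q, ∀ w, G.Adj u w → w ∈ Q ∨ w = x)
    (hC : ∀ u ∈ Q, u ∉ C.support) {χ : V → Fin 3} (hχ : ∀ u v, G.Adj u v → u ∈ Q → χ u ≠ χ v) :
    False := by
  classical
  obtain ⟨w, hw⟩ := has
  obtain ⟨φ, p, q⟩ := h a w hw fun k => hC a ha ⟨w, k⟩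
  obtain ⟨σ, s1, s2⟩ := perm3 (χ x) (φ x)
  refine q ⟨_, glue (G := G) Q (φ := φ) (χ := fun u => σ (χ u)) ?_ ?_ ?_, ?_⟩
  · intro u v k hu hv
    refine p u v ⟨k, fun e => ?_⟩
    rcases Sym2.eq_iff.1 e with ⟨rfl, -⟩ | ⟨-, rfl⟩
    · exact hu ha
    · exact hv ha
  · exact fun u v k hu e => hχ u v k hu (s1 e)
  · intro u v k hu hv
    rw [(hQ u hu v k).resolve_left hv]
    exact s2
  · intro u hu
    exact if_neg fun e => hC u e hu

/-- the edges that meet `Q` -/
def meet (G : SimpleGraph V) (Q : Set V) : SimpleGraph V where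
  Adj a b := G.Adj a b ∧ (a ∈ Q ∨ b ∈ Q)
  symm := ⟨fun _ _ h => ⟨h.1.symm, h.2.symm⟩⟩
  loopless := ⟨fun _ h => G.loopless.irrefl _ h.1⟩

theorem Crit.twoConn [Fintype V] {G C : SimpleGraph V} (h : Crit G C) (hC : C ≤ G) (hne : G ≠ C)
    (hc : C = ⊥ ∨ (Col G ∧ IsCyc C)) : TwoConn G := by
  by_contra hn
  have h3 : ∃ a ∈ G.support, ∃ b ∈ G.support, ∃ c ∈ G.support, a ≠ b ∧ a ≠ c ∧ b ≠ c := by
    rcases hc with rfl | ⟨-, hc⟩
    · obtain ⟨u, v, p⟩ := SimpleGraph.ne_bot_iff_exists_adj.1 hne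
      obtain ⟨z, z1, z2, -⟩ := h.third_nb ⟨v, p⟩ (fun ⟨_, k⟩ => k) v v
      exact ⟨u, ⟨v, p⟩, v, ⟨u, p.symm⟩, z, ⟨u, z1.symm⟩, p.ne, z1.ne, z2.symm⟩
    · obtain ⟨a, ha, b, hb, c, hc, k⟩ := hc.twoConn.1
      exact ⟨a, SimpleGraph.support_mono hC ha, b, SimpleGraph.support_mono hC hb, c,
        SimpleGraph.support_mono hC hc, k⟩
  obtain ⟨x, A, hx, ⟨a, ha⟩, hA, h1, -, b, hb, hbA, hbx⟩ := exists_piece h3 hn
  rcases hc with rfl | ⟨⟨χ, hχ⟩, hc⟩
  · obtain ⟨w, hw⟩ := hb
    obtain ⟨χ, hχ⟩ := h.col_lt (H := meet G A) (fun _ _ k => k.1) fun e => by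
      have k : (meet G A).Adj b w := e.symm ▸ hw
      rcases k.2 with k | k
      · exact hbA k
      · exact (h1 w k b hw.symm).elim hbA hbx
    exact h.no_piece ha (hA ha) h1 (fun _ _ ⟨_, k⟩ => k) fun u v k hu => hχ u v ⟨k, .inl hu⟩
  · by_cases hm : ∀ u ∈ A, u ∉ C.support
    · exact h.no_piece ha (hA ha) h1 hm fun u v k _ => hχ u v k
    · push Not at hm
      obtain ⟨u, hu, huC⟩ := hm
      refine h.no_piece (Q := {v | v ∉ A ∧ v ≠ x}) (x := x) (a := b) ⟨hbA, hbx⟩ hb
        ?_ ?_ fun u v k _ => hχ u v k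
      · intro v hv w k
        by_cases e : w = x
        · exact .inr e
        · exact .inl ⟨fun q => (h1 w q v k.symm).elim hv.1 hv.2, e⟩
      · intro v hv hvC
        have := hc.twoConn.2 x u v huC hvC (fun e => hx (e ▸ hu)) hv.2
        have key : ∀ y, ReflTransGen (fun p q => C.Adj p q ∧ p ≠ x ∧ q ≠ x) u y → y ∈ A := by
          intro y hy
          induction hy with
          | refl => exact hu
          | tail _ k ih => exact (h1 _ ih _ (hC k.1)).resolve_right k.2.2
        exact hv.1 (key v this)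

theorem col_of_small [Fintype V] {G : SimpleGraph V} {W : Set V} (h : W.ncard ≤ 3) :
    Col (on G W) := by
  classical
  have : Fintype.card W ≤ Fintype.card (Fin 3) := by
    rw [Fintype.card_fin, ← Nat.card_eq_fintype_card, Nat.card_coe_set_eq]
    exact h
  obtain ⟨f⟩ := Function.Embedding.nonempty_of_card_le this
  refine ⟨fun v => if hv : v ∈ W then f ⟨v, hv⟩ else 0, fun u v k => ?_⟩
  simp only [dif_pos k.2.1, dif_pos k.2.2]
  exact fun e => k.1.ne (congrArg Subtype.val (f.injective e))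

theorem ne_mono [Fintype V] {G H : SimpleGraph V} (h : H ≤ G) : ne H ≤ ne G :=
  Set.ncard_le_ncard (SimpleGraph.edgeSet_mono h) (Set.toFinite _)

end Pool.Agent.KZ
end

-- merged part: Pool.Agent.Work.MP_5bd7f1_co.KZ.Eul
section
/-! Faces, their lengths, Euler's formula. -/

set_option autoImplicit false
open Relation Pool.Agent.Pl

namespace Pool.Agent.KZ

variable {V : Type} [Fintype V] {G : SimpleGraph V}

/-- the edges as a finite set -/
noncomputable def eF (G : SimpleGraph V) : Finset (Sym2 V) := (Set.toFinite G.edgeSet).toFinset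

theorem mem_eF {e : Sym2 V} : e ∈ eF G ↔ e ∈ G.edgeSet := Set.Finite.mem_toFinset _

theorem mk_eF {u v : V} : s(u, v) ∈ eF G ↔ G.Adj u v := mem_eF

theorem card_eF (G : SimpleGraph V) : (eF G).card = ne G :=
  (Set.ncard_eq_toFinset_card _ _).symm

theorem eF_ind {P : Sym2 V → Prop} (h : ∀ u v, G.Adj u v → P s(u, v)) : ∀ e ∈ eF G, P e := by
  intro e he
  induction e using Sym2.ind with
  | _ u v => exact h u v (mk_eF.1 he)

open Classical in
/-- the faces that carry an edge -/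
noncomputable def fs (D : Dual G) : Finset D.Fc := (eF G).image D.l ∪ (eF G).image D.r

open Classical in
/-- number of edge sides on a face -/
noncomputable def len (D : Dual G) (f : D.Fc) : ℕ :=
  ∑ e ∈ eF G, ((if D.l e = f then 1 else 0) + (if D.r e = f then 1 else 0))

theorem mem_fs {D : Dual G} {f : D.Fc} :
    f ∈ fs D ↔ ∃ u v, G.Adj u v ∧ (D.l s(u, v) = f ∨ D.r s(u, v) = f) := by
  classical
  unfold fs
  simp only [Finset.mem_union, Finset.mem_image]
  constructor
  · rintro (⟨e, he, rfl⟩ | ⟨e, he, rfl⟩)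
    · exact eF_ind (P := fun e => ∃ u v, G.Adj u v ∧ (D.l s(u, v) = D.l e ∨ D.r s(u, v) = D.l e))
        (fun u v h => ⟨u, v, h, .inl rfl⟩) e he
    · exact eF_ind (P := fun e => ∃ u v, G.Adj u v ∧ (D.l s(u, v) = D.r e ∨ D.r s(u, v) = D.r e))
        (fun u v h => ⟨u, v, h, .inr rfl⟩) e he
  · rintro ⟨u, v, h, k | k⟩
    · exact .inl ⟨_, mk_eF.2 h, k⟩
    · exact .inr ⟨_, mk_eF.2 h, k⟩

theorem mem_fs' {D : Dual G} {f : D.Fc} : f ∈ fs D ↔ D.star f ≠ ⊥ := by
  rw [mem_fs, SimpleGraph.ne_bot_iff_exists_adj]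
  rfl

theorem l_fs (D : Dual G) {e : Sym2 V} (he : e ∈ eF G) : D.l e ∈ fs D :=
  eF_ind (P := fun e => D.l e ∈ fs D) (fun u v h => mem_fs.2 ⟨u, v, h, .inl rfl⟩) e he

theorem r_fs (D : Dual G) {e : Sym2 V} (he : e ∈ eF G) : D.r e ∈ fs D :=
  eF_ind (P := fun e => D.r e ∈ fs D) (fun u v h => mem_fs.2 ⟨u, v, h, .inr rfl⟩) e he

theorem len_ne {D : Dual G} {f : D.Fc} : len D f ≠ 0 ↔ f ∈ fs D := by
  classical
  unfold len fs
  rw [Ne, Finset.sum_eq_zero_iff]
  simp only [Finset.mem_union, Finset.mem_image, Nat.add_eq_zero_iff, ite_eq_right_iff,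
    one_ne_zero, imp_false, not_forall, not_and_or, not_not]
  constructor
  · rintro ⟨e, he, k | k⟩
    exacts [.inl ⟨e, he, k⟩, .inr ⟨e, he, k⟩]
  · rintro (⟨e, he, k⟩ | ⟨e, he, k⟩)
    exacts [⟨e, he, .inl k⟩, ⟨e, he, .inr k⟩]

theorem sum_mul_len (D : Dual G) (g : D.Fc → ℤ) :
    ∑ f ∈ fs D, g f * len D f = ∑ e ∈ eF G, (g (D.l e) + g (D.r e)) := by
  classical
  unfold len
  push_cast
  simp only [Finset.mul_sum]
  rw [Finset.sum_comm]
  refine Finset.sum_congr rfl fun e he => ?_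
  simp only [mul_add, mul_ite, mul_one, mul_zero, Finset.sum_add_distrib, Finset.sum_ite_eq,
    l_fs D he, r_fs D he, if_true]

theorem sum_len (D : Dual G) : ∑ f ∈ fs D, (len D f : ℤ) = 2 * ne G := by
  have := sum_mul_len D fun _ => 1
  simp only [one_mul, Finset.sum_const, card_eF] at this
  rw [this]
  simp [mul_comm]

theorem len_eq (D : Dual G) (h : TwoConn G) (f : D.Fc) : len D f = ne (D.star f) := by
  classical
  rw [← card_eF, Finset.card_eq_sum_ones, len,
    ← Finset.sum_subset (s₁ := eF (D.star f)) (s₂ := eF G)]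
  · refine Finset.sum_congr rfl (eF_ind fun u v k => ?_)
    have := D.sides_ne h k.1
    rcases k.2 with e | e
    · rw [if_pos e, if_neg fun q => this (e.trans q.symm)]
    · rw [if_pos e, if_neg fun q => this (q.trans e.symm)]
  · exact fun e he => mem_eF.2 (SimpleGraph.edgeSet_mono (D.star_le f) (mem_eF.1 he))
  · refine eF_ind fun u v k hn => ?_
    rw [if_neg fun q => hn (mk_eF.2 ⟨k, .inl q⟩), if_neg fun q => hn (mk_eF.2 ⟨k, .inr q⟩),
      add_zero]

open Classical in
/-- extension by zero from the edge set -/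
noncomputable def ext0 (G : SimpleGraph V) (S : G.edgeSet → ZMod 2) (e : Sym2 V) : ZMod 2 :=
  if h : e ∈ G.edgeSet then S ⟨e, h⟩ else 0

omit [Fintype V] in
theorem ext0_adj (S : G.edgeSet → ZMod 2) {u v : V} (h : G.Adj u v) :
    ext0 G S s(u, v) = S ⟨s(u, v), h⟩ := dif_pos h

theorem euler (D : Dual G) (h : TwoConn G) : (fs D).card + nv G = ne G + 2 := by
  classical
  have : Fact (Nat.Prime 2) := ⟨Nat.prime_two⟩
  let bdL : (G.edgeSet → ZMod 2) →ₗ[ZMod 2] (G.support → ZMod 2) :=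
    { toFun := fun S v => bd G (ext0 G S) v
      map_add' := fun S T => funext fun v => by
        rw [Pi.add_apply, ← bd_add]
        exact bd_congr fun w hw => by simp only [Pi.add_apply, ext0_adj _ hw]
      map_smul' := fun t S => funext fun v => by
        rw [RingHom.id_apply, Pi.smul_apply, smul_eq_mul, ← bd_smul]
        exact bd_congr fun w hw => by simp only [ext0_adj _ hw, Pi.smul_apply, smul_eq_mul] }
  let sm : (G.support → ZMod 2) →ₗ[ZMod 2] ZMod 2 :=
    { toFun := fun t => ∑ v, t v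
      map_add' := fun S T => by simp [Finset.sum_add_distrib]
      map_smul' := fun t S => by simp [Finset.mul_sum] }
  let co : (fs D → ZMod 2) →ₗ[ZMod 2] (G.edgeSet → ZMod 2) :=
    { toFun := fun c e => c ⟨D.l e, l_fs D (mem_eF.2 e.2)⟩ + c ⟨D.r e, r_fs D (mem_eF.2 e.2)⟩
      map_add' := fun S T => funext fun e => by simp only [Pi.add_apply]; ring
      map_smul' := fun t S => funext fun e => by
        simp only [Pi.smul_apply, smul_eq_mul, RingHom.id_apply]; ring }
  have off : ∀ (S : Sym2 V → ZMod 2) v, v ∉ G.support → bd G S v = 0 :=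
    fun S v hv => bd_none fun w hw => (hv ⟨w, hw⟩).elim
  have sumS : ∀ t : V → ZMod 2, (∀ v, v ∉ G.support → t v = 0) →
      ∑ v : G.support, t v = ∑ v, t v := by
    intro t ht
    rw [Finset.sum_set_coe (f := t)]
    exact Finset.sum_subset (Finset.subset_univ _) fun v _ hv => ht v (by simpa using hv)
  have e1 : LinearMap.range bdL = LinearMap.ker sm := by
    ext t
    constructor
    · rintro ⟨S, rfl⟩
      exact (sumS _ (off _)).trans (sum_bd_univ G _)
    · intro ht
      let T : V → ZMod 2 := fun v => if hv : v ∈ G.support then t ⟨v, hv⟩ else 0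
      have T0 : ∀ v, v ∉ G.support → T v = 0 := fun v hv => dif_neg hv
      have T1 : ∀ v : G.support, T v = t v := fun v => dif_pos v.2
      obtain ⟨J, -, hJ⟩ := exists_tjoin (G := G) (fun _ _ k => k) T
        (fun a b ha hb => h.reach (by_contra fun k => ha (T0 a k)) (by_contra fun k => hb (T0 b k)))
        (by rw [← sumS T T0, Finset.sum_congr rfl fun v _ => T1 v]; exact ht)
      refine ⟨fun e => J e, funext fun v => ?_⟩
      rw [← T1 v, ← hJ v]
      exact bd_congr fun w hw => ext0_adj _ hw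
  have e2 : LinearMap.range co = LinearMap.ker bdL := by
    ext S
    constructor
    · rintro ⟨c, rfl⟩
      funext v
      let c' : D.Fc → ZMod 2 := fun f => if hf : f ∈ fs D then c ⟨f, hf⟩ else 0
      refine Eq.trans (bd_congr fun w hw => ?_) (D.even c' v)
      rw [ext0_adj _ hw]
      simp only [c', dif_pos (l_fs D (mk_eF.2 hw)), dif_pos (r_fs D (mk_eF.2 hw))]
      rfl
    · intro hS
      obtain ⟨c, hc⟩ := (D.cob (ext0 G S)).1 fun v => by
        by_cases hv : v ∈ G.support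
        · exact congrFun hS ⟨v, hv⟩
        · exact off _ v hv
      refine ⟨fun f => c f, funext fun ⟨e, he⟩ => ?_⟩
      induction e using Sym2.ind with
      | _ u v => exact (hc u v he).symm.trans (ext0_adj _ he)
  obtain ⟨a, ⟨b, hab⟩, -⟩ := h.1
  have e3 : Module.finrank (ZMod 2) (LinearMap.ker co) = 1 := by
    have : LinearMap.ker co = Submodule.span (ZMod 2) {fun _ => 1} := by
      ext c
      rw [Submodule.mem_span_singleton]
      constructor
      · intro hc
        let c' : D.Fc → ZMod 2 := fun f => if hf : f ∈ fs D then c ⟨f, hf⟩ else 0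
        obtain ⟨t, ht⟩ := D.uniq h c' fun u v k => by
          simp only [c', dif_pos (l_fs D (mk_eF.2 k)), dif_pos (r_fs D (mk_eF.2 k))]
          exact z2_eq_of_add (congrFun hc ⟨s(u, v), k⟩)
        refine ⟨t, funext fun ⟨f, hf⟩ => ?_⟩
        obtain ⟨u, v, k, q⟩ := mem_fs.1 hf
        have : c' f = t := q.elim (fun q => q ▸ (ht u v k).1) fun q => q ▸ (ht u v k).2
        simp only [c', dif_pos hf] at this
        simp [this]
      · rintro ⟨t, rfl⟩
        funext e
        exact z2_add_self _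
    rw [this]
    exact finrank_span_singleton fun k =>
      one_ne_zero (congrFun k ⟨D.l s(a, b), l_fs D (mk_eF.2 hab)⟩)
  have e4 : Module.finrank (ZMod 2) (LinearMap.range sm) = 1 := by
    rw [LinearMap.range_eq_top.2, finrank_top, Module.finrank_self]
    intro t
    refine ⟨Pi.single ⟨a, b, hab⟩ t, ?_⟩
    simp [sm]
  have r1 := LinearMap.finrank_range_add_finrank_ker bdL
  have r2 := LinearMap.finrank_range_add_finrank_ker sm
  have r3 := LinearMap.finrank_range_add_finrank_ker co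
  rw [Module.finrank_fintype_fun_eq_card] at r1 r2 r3
  rw [e1] at r1
  rw [e2, e3, Fintype.card_coe] at r3
  rw [e4] at r2
  rw [← Nat.card_eq_fintype_card, Nat.card_coe_set_eq] at r1 r2
  unfold nv ne
  omega

theorem cyc_eq {A B : SimpleGraph V} (hA : IsCyc A) (hB : IsCyc B) (h : A ≤ B) : A = B := by
  refine le_antisymm h fun u v k => ?_
  obtain ⟨t, ht⟩ := hB.min (S := ind A) fun v =>
    (bd_sub h fun w _ hw => ind_of_not hw).trans (hA.even v)
  obtain ⟨a, b, hab⟩ := SimpleGraph.ne_bot_iff_exists_adj.1 hA.1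
  have e := (ht u v k).trans (ht a b (h hab)).symm
  rw [ind_of_adj hab] at e
  by_contra hc
  rw [ind_of_not hc] at e
  exact zero_ne_one e

/-- two faces with the same boundary fill the plane -/
theorem two_same (D : Dual G) (h : TwoConn G) {f g : D.Fc} (hfg : g ≠ f) (hg : g ∈ fs D)
    (hle : D.star g ≤ D.star f) : D.star f = G := by
  classical
  have hg' := mem_fs'.1 hg
  have e := cyc_eq (D.star_isCyc h g hg') (D.star_isCyc h f fun k => hg' (le_bot_iff.1 (k ▸ hle)))
    hle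
  obtain ⟨t, ht⟩ := D.uniq h (fun x => if x = f ∨ x = g then 1 else 0) fun u v k => by
    have n := D.sides_ne h k
    have i : (D.l s(u, v) = g ∨ D.r s(u, v) = g) ↔ (D.l s(u, v) = f ∨ D.r s(u, v) = f) :=
      ⟨fun q => (show (D.star f).Adj u v from e ▸ ⟨k, q⟩).2,
        fun q => (show (D.star g).Adj u v from e ▸ ⟨k, q⟩).2⟩
    refine if_congr ?_ rfl rfl
    generalize D.l s(u, v) = x at *
    generalize D.r s(u, v) = y at *
    grind
  obtain ⟨a, b, k, q⟩ := mem_fs.1 hg
  have t1 : t = 1 := by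
    rcases q with q | q
    · rw [← (ht a b k).1, if_pos (.inr q)]
    · rw [← (ht a b k).2, if_pos (.inr q)]
  refine le_antisymm (D.star_le f) fun u v k => ?_
  have := (ht u v k).1
  rw [t1] at this
  have q : D.l s(u, v) = f ∨ D.l s(u, v) = g := by
    by_contra n
    rw [if_neg n] at this
    exact zero_ne_one this
  rcases q with q | q
  · exact ⟨k, .inl q⟩
  · exact hle ⟨k, .inl q⟩

/-- two edges at `v` between the same two faces are all the edges at `v` -/
theorem deg_two (D : Dual G) (h : TwoConn G) {v x y z : V} (hx : G.Adj v x) (hy : G.Adj v y)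
    (hz : G.Adj v z) (hzx : z ≠ x) (hzy : z ≠ y) (hxy : x ≠ y)
    (hs : s(D.l s(v, x), D.r s(v, x)) = s(D.l s(v, y), D.r s(v, y))) : False := by
  obtain ⟨S, h1, h2, -, h4⟩ := h.two_edges hx hz hzx.symm
  obtain ⟨c, hc⟩ := (D.cob S).1 h1
  have e1 := hc v x hx
  have e2 := hc v y hy
  rw [h2] at e1
  rw [h4 y hxy.symm hzy.symm] at e2
  rcases Sym2.eq_iff.1 hs with ⟨p, q⟩ | ⟨p, q⟩
  · rw [p, q, ← e2] at e1
    exact one_ne_zero e1
  · rw [p, q, add_comm, ← e2] at e1
    exact one_ne_zero e1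

theorem cyc_ne_nv {K : SimpleGraph V} (h : IsCyc K) : ne K = nv K := by
  classical
  have s := K.sum_degrees_support_eq_twice_card_edges
  rw [Finset.sum_congr rfl (g := fun _ => 2) fun v hv => by
    obtain ⟨x, y, hxy, hw⟩ := h.2.1 v (Set.mem_toFinset.1 hv)
    rw [← SimpleGraph.card_neighborFinset_eq_degree, ← Finset.card_pair hxy]
    congr 1
    ext w
    simp [hw]] at s
  rw [Finset.sum_const, smul_eq_mul] at s
  unfold ne nv
  rw [Set.ncard_eq_toFinset_card' K.support, Set.ncard_eq_toFinset_card' K.edgeSet]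
  change K.edgeFinset.card = _
  omega

theorem cyc_ne {m : ℕ} {F : ℤ → V} (h : Cyc G m F) : ne (cycG F) = m := by
  rw [cyc_ne_nv h.isCyc, nv, cycG_support h]
  have m0 : (0 : ℤ) < m := by have := h.1; omega
  have : Set.range F = F '' Set.Ico (0 : ℤ) m := by
    ext x
    constructor
    · rintro ⟨i, rfl⟩
      refine ⟨i % m, ⟨Int.emod_nonneg _ m0.ne', Int.emod_lt_of_pos _ m0⟩, (h.2.2 _ _).2 ?_⟩
      exact Int.dvd_of_emod_eq_zero (Int.emod_eq_emod_iff_emod_sub_eq_zero.1
        (Int.emod_emod_of_dvd i dvd_rfl))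
    · rintro ⟨i, -, rfl⟩
      exact ⟨i, rfl⟩
  rw [this, Set.InjOn.ncard_image, ← Finset.coe_Ico, Set.ncard_coe_finset]
  · simp
  · intro i hi j hj e
    have := Int.eq_zero_of_abs_lt_dvd ((h.2.2 i j).1 e)
      (abs_lt.2 ⟨by have := hi.1; have := hj.2; omega, by have := hi.2; have := hj.1; omega⟩)
    omega

theorem cyc_param {K : SimpleGraph V} (h : IsCyc K) : ∃ F, Cyc K (ne K) F ∧ cycG F = K := by
  obtain ⟨m, F, h1, h2⟩ := h.exists_cyc
  have := cyc_ne h1
  rw [h2] at this
  exact ⟨F, this ▸ h1, h2⟩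

theorem three_le_len (D : Dual G) (h : TwoConn G) {f : D.Fc} (hf : f ∈ fs D) : 3 ≤ len D f := by
  obtain ⟨F, k, -⟩ := cyc_param (D.star_isCyc h f (mem_fs'.1 hf))
  rw [len_eq D h]
  exact k.1

end Pool.Agent.KZ
end

-- merged part: Pool.Agent.Work.MP_5bd7f1_co.KZ.Sub
section
/-! The dual of a subgraph and of the disc inside one of its faces. -/

set_option autoImplicit false
open Relation Pool.Agent.Pl

namespace Pool.Agent.KZ

variable {V : Type} [Fintype V] {G S : SimpleGraph V}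

/-- the two sides of an edge that is not in `S` -/
def Rl (D : Dual G) (S : SimpleGraph V) (g h : D.Fc) : Prop :=
  ∃ u v, G.Adj u v ∧ ¬ S.Adj u v ∧ g = D.l s(u, v) ∧ h = D.r s(u, v)

/-- the face of `S` that contains a face of `G` -/
def cl (D : Dual G) (S : SimpleGraph V) (g : D.Fc) : Quot (Rl D S) := Quot.mk _ g

theorem cl_lr (D : Dual G) {u v : V} (h : G.Adj u v) (k : ¬ S.Adj u v) :
    cl D S (D.l s(u, v)) = cl D S (D.r s(u, v)) := Quot.sound ⟨u, v, h, k, rfl, rfl⟩

theorem cl_inv (D : Dual G) {α : Type} (P : D.Fc → α)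
    (h : ∀ u v, G.Adj u v → ¬ S.Adj u v → P (D.l s(u, v)) = P (D.r s(u, v))) {g g' : D.Fc}
    (e : cl D S g = cl D S g') : P g = P g' :=
  congrArg (Quot.lift P (r := Rl D S) fun _ _ ⟨u, v, p, q, a, b⟩ => a ▸ b ▸ h u v p q) e

/-- the dual of a subgraph -/
@[reducible] def sub (D : Dual G) (hS : S ≤ G) : Dual S where
  Fc := Quot (Rl D S)
  l e := cl D S (D.l e)
  r e := cl D S (D.r e)
  cob T := by
    classical
    constructor
    · intro hT
      obtain ⟨c, hc⟩ := (D.cob fun e => ind S e * T e).1 fun v => by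
        rw [bd_sub hS fun w _ hw => by rw [ind_of_not hw, zero_mul], ← hT v]
        exact bd_congr fun w hw => by rw [ind_of_adj hw, one_mul]
      refine ⟨Quot.lift c fun _ _ ⟨u, v, p, q, a, b⟩ => ?_, fun u v h => ?_⟩
      · have := hc u v p
        rw [ind_of_not q, zero_mul] at this
        exact a ▸ b ▸ z2_eq_of_add this.symm
      · have := hc u v (hS h)
        rwa [ind_of_adj h, one_mul] at this
    · rintro ⟨c, hc⟩ v
      rw [bd_congr (T := fun e => c (cl D S (D.l e)) + c (cl D S (D.r e))) (hc v),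
        ← bd_sub (S := fun e => c (cl D S (D.l e)) + c (cl D S (D.r e))) hS
        fun w p q => by rw [cl_lr D p q, z2_add_self]]
      exact D.even (fun g => c (cl D S g)) v

theorem fib_one (D : Dual G) {g g' : D.Fc}
    (h : ∀ u v, G.Adj u v → ¬ S.Adj u v → D.l s(u, v) ≠ g ∧ D.r s(u, v) ≠ g)
    (e : cl D S g' = cl D S g) : g' = g := by
  have := cl_inv D (S := S) (fun x => x = g)
    (fun u v p q => propext (iff_of_false (h u v p q).1 (h u v p q).2)) e
  exact this ▸ rfl

theorem fib_two (D : Dual G) {a b : V} (hab : G.Adj a b) (hn : ¬ S.Adj a b)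
    (h : ∀ u v, G.Adj u v → ¬ S.Adj u v → cl D S (D.l s(u, v)) = cl D S (D.l s(a, b)) →
      s(u, v) = s(a, b)) {g : D.Fc} (e : cl D S g = cl D S (D.l s(a, b))) :
    g = D.l s(a, b) ∨ g = D.r s(a, b) := by
  have := cl_inv D (S := S) (fun x => x = D.l s(a, b) ∨ x = D.r s(a, b)) (fun u v p q => ?_) e
  · exact this ▸ .inl rfl
  · by_cases k : s(u, v) = s(a, b)
    · rw [k]
      exact propext (iff_of_true (.inl rfl) (.inr rfl))
    · have n := fun x => k (h u v p q x)
      refine propext (iff_of_false ?_ ?_)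
      · rintro (x | x)
        · exact n (x ▸ rfl)
        · exact n (x ▸ (cl_lr D hab hn).symm)
      · rintro (x | x)
        · exact n ((cl_lr D p q).trans (x ▸ rfl))
        · exact n ((cl_lr D p q).trans (x ▸ (cl_lr D hab hn).symm))

open Classical in
/-- the faces of `G` inside the face `K` of `S` -/
noncomputable def fib (D : Dual G) (S : SimpleGraph V) (K : Quot (Rl D S)) : Finset D.Fc :=
  (fs D).filter fun g => cl D S g = K

theorem mem_fib {D : Dual G} {K : Quot (Rl D S)} {g : D.Fc} :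
    g ∈ fib D S K ↔ g ∈ fs D ∧ cl D S g = K := by
  classical
  exact Finset.mem_filter

open Classical in
/-- the edges of `G` inside the face `K` of `S` -/
noncomputable def ins (D : Dual G) (S : SimpleGraph V) (K : Quot (Rl D S)) : Finset (Sym2 V) :=
  (eF G).filter fun e => e ∉ S.edgeSet ∧ cl D S (D.l e) = K

theorem mk_ins {D : Dual G} {K : Quot (Rl D S)} {u v : V} :
    s(u, v) ∈ ins D S K ↔ G.Adj u v ∧ ¬ S.Adj u v ∧ cl D S (D.l s(u, v)) = K := by
  classical
  unfold ins
  rw [Finset.mem_filter, mk_eF]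
  rfl

theorem sum_fib (D : Dual G) (hS : S ≤ G) (K : Quot (Rl D S)) :
    ∑ g ∈ fib D S K, (len D g : ℤ) = len (sub D hS) K + 2 * (ins D S K).card := by
  classical
  have h1 := sum_mul_len D fun g => if cl D S g = K then 1 else 0
  simp only [ite_mul, one_mul, zero_mul] at h1
  rw [fib, Finset.sum_filter, h1, ← Finset.sum_filter_add_sum_filter_not (eF G) (· ∈ S.edgeSet)]
  congr 1
  · unfold len
    push_cast
    refine Finset.sum_congr ?_ fun e _ => rfl
    ext e
    rw [Finset.mem_filter, mem_eF, mem_eF]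
    exact ⟨And.right, fun h => ⟨SimpleGraph.edgeSet_mono hS h, h⟩⟩
  · rw [ins, ← Finset.filter_filter, Finset.card_filter]
    push_cast
    rw [Finset.mul_sum]
    refine Finset.sum_congr rfl fun e he => ?_
    obtain ⟨p, q⟩ := Finset.mem_filter.1 he
    revert q
    refine eF_ind (P := fun e => e ∉ S.edgeSet → ((if cl D S (D.l e) = K then (1 : ℤ) else 0) +
      if cl D S (D.r e) = K then 1 else 0) = 2 * if cl D S (D.l e) = K then 1 else 0)
      (fun u v k q => ?_) e p
    rw [← cl_lr D k q, two_mul]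

theorem cl_fs (D : Dual G) (hS : S ≤ G) (h : TwoConn G) (h0 : S ≠ ⊥) {g : D.Fc} (hg : g ∈ fs D) :
    cl D S g ∈ fs (sub D hS) := by
  classical
  by_contra hn
  have n : ∀ u v, S.Adj u v → cl D S (D.l s(u, v)) ≠ cl D S g ∧ cl D S (D.r s(u, v)) ≠ cl D S g :=
    fun u v k => ⟨fun e => hn (mem_fs.2 ⟨u, v, k, .inl e⟩), fun e => hn (mem_fs.2 ⟨u, v, k, .inr e⟩)⟩
  obtain ⟨t, ht⟩ := D.uniq h (fun x => if cl D S x = cl D S g then 1 else 0) fun u v k => by
    by_cases q : S.Adj u v
    · rw [if_neg (n u v q).1, if_neg (n u v q).2]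
    · rw [cl_lr D k q]
  obtain ⟨a, b, k, q⟩ := mem_fs.1 hg
  obtain ⟨u, v, p⟩ := SimpleGraph.ne_bot_iff_exists_adj.1 h0
  have t0 := (ht u v (hS p)).1
  rw [if_neg (n u v p).1] at t0
  rcases q with q | q
  · have := (ht a b k).1
    rw [q, if_pos rfl, ← t0] at this
    exact one_ne_zero this
  · have := (ht a b k).2
    rw [q, if_pos rfl, ← t0] at this
    exact one_ne_zero this

theorem sum_fs (D : Dual G) (hS : S ≤ G) (h : TwoConn G) (h0 : S ≠ ⊥) (F : D.Fc → ℤ) :
    ∑ g ∈ fs D, F g = ∑ K ∈ fs (sub D hS), ∑ g ∈ fib D S K, F g := by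
  classical
  exact (Finset.sum_fiberwise_of_maps_to (fun g hg => cl_fs D hS h h0 hg) F).symm

/-- a face whose edges all lie in `S` is a face of `S` -/
theorem star_sub (D : Dual G) (hS : S ≤ G) {f : D.Fc} (hf : D.star f ≤ S) :
    (∀ g, cl D S g = cl D S f → g = f) ∧ (sub D hS).star (cl D S f) = D.star f := by
  have h1 : ∀ g, cl D S g = cl D S f → g = f := fun g =>
    fib_one D fun u v p q => ⟨fun e => q (hf ⟨p, .inl e⟩), fun e => q (hf ⟨p, .inr e⟩)⟩
  refine ⟨h1, ?_⟩
  ext u v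
  exact ⟨fun k => ⟨hS k.1, k.2.imp (h1 _) (h1 _)⟩,
    fun k => ⟨hf k, k.2.imp (congrArg (cl D S)) (congrArg (cl D S))⟩⟩

/-- a vertex off the boundary of a face of `S` has all or none of its edges inside -/
theorem side (D : Dual G) (hS : S ≤ G) (h : TwoConn G) {K : Quot (Rl D S)} {v y w : V}
    (hv : v ∉ ((sub D hS).star K).support) (hy : G.Adj v y) (hw : G.Adj v w)
    (e : cl D S (D.l s(v, y)) = K) : ¬ S.Adj v w ∧ cl D S (D.l s(v, w)) = K := by
  classical
  suffices k : cl D S (D.l s(v, w)) = K from ⟨fun q => hv ⟨w, q, .inl k⟩, k⟩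
  by_cases hyw : y = w
  · exact hyw ▸ e
  obtain ⟨T, p1, p2, p3, p4⟩ := h.two_edges hy hw hyw
  obtain ⟨c, hc⟩ := (D.cob T).1 p1
  have h3 := D.even (fun g => (if cl D S g = K then 1 else 0) * c g) v
  have h4 : ∀ x, G.Adj v x → (cl D S (D.r s(v, x)) = K ↔ cl D S (D.l s(v, x)) = K) := by
    intro x hx
    by_cases q : S.Adj v x
    · exact iff_of_false (fun k => hv ⟨x, q, .inr k⟩) fun k => hv ⟨x, q, .inl k⟩
    · rw [cl_lr D hx q]
  rw [bd_congr (T := fun e => (if cl D S (D.l e) = K then 1 else 0) * T e)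
      (fun x hx => by simp only [hc v x hx, h4 x hx, mul_add]),
    bd_two hy hw hyw fun x _ q1 q2 => by simp [p4 x q1 q2], p2, p3, if_pos e] at h3
  by_contra n
  rw [if_neg n] at h3
  exact absurd h3 (by decide)

/-- the closed disc bounded by a face of `S` -/
def inn (D : Dual G) (S : SimpleGraph V) (K : Quot (Rl D S)) : SimpleGraph V where
  Adj u v := G.Adj u v ∧ (cl D S (D.l s(u, v)) = K ∨ cl D S (D.r s(u, v)) = K)
  symm := ⟨fun u v h => ⟨h.1.symm, by rw [Sym2.eq_swap (a := v)]; exact h.2⟩⟩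
  loopless := ⟨fun _ h => G.loopless.irrefl _ h.1⟩

theorem inn_le (D : Dual G) (K : Quot (Rl D S)) : inn D S K ≤ G := fun _ _ h => h.1

theorem star_le_inn (D : Dual G) (hS : S ≤ G) (K : Quot (Rl D S)) :
    (sub D hS).star K ≤ inn D S K := fun _ _ h => ⟨hS h.1, h.2⟩

open Classical in
noncomputable def prj (D : Dual G) (S : SimpleGraph V) (K : Quot (Rl D S)) (g : D.Fc) :
    Option D.Fc := if cl D S g = K then some g else none

theorem prj_none {D : Dual G} {K : Quot (Rl D S)} {g : D.Fc} :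
    prj D S K g = none ↔ cl D S g ≠ K := by
  unfold prj
  split_ifs with h <;> simp [h]

theorem prj_some {D : Dual G} {K : Quot (Rl D S)} {g x : D.Fc} :
    prj D S K g = some x ↔ g = x ∧ cl D S x = K := by
  unfold prj
  split_ifs with h
  · exact ⟨fun e => by obtain rfl := Option.some.inj e; exact ⟨rfl, h⟩, fun e => e.1 ▸ rfl⟩
  · exact iff_of_false (by simp) fun e => h (e.1 ▸ e.2)

/-- the dual of the disc -/
@[reducible] noncomputable def innD (D : Dual G) (hS : S ≤ G) (h : TwoConn S) {K : Quot (Rl D S)}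
    (hK : K ∈ fs (sub D hS)) : Dual (inn D S K) where
  Fc := Option D.Fc
  l e := prj D S K (D.l e)
  r e := prj D S K (D.r e)
  cob T := by
    classical
    have hle := inn_le D K
    constructor
    · intro hT
      obtain ⟨c, hc⟩ := (D.cob fun e => ind (inn D S K) e * T e).1 fun v => by
        rw [bd_sub hle fun w _ hw => by rw [ind_of_not hw, zero_mul], ← hT v]
        exact bd_congr fun w hw => by rw [ind_of_adj hw, one_mul]
      let c2 : D.Fc → ZMod 2 := fun g => if cl D S g = K then 0 else c g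
      have cy := (sub D hS).star_isCyc h K (mem_fs'.1 hK)
      obtain ⟨t, ht⟩ := cy.min (S := fun e => c2 (D.l e) + c2 (D.r e)) fun v => by
        rw [← bd_sub (((sub D hS).star_le K).trans hS) fun w p q => ?_]
        · exact D.even c2 v
        · by_cases i : (inn D S K).Adj v w
          · have s : ¬ S.Adj v w := fun s => q ⟨s, i.2⟩
            have e := cl_lr D p s
            have e1 : cl D S (D.l s(v, w)) = K := i.2.elim id fun k => e.trans k
            simp only [c2, if_pos e1, if_pos (e.symm.trans e1), add_zero]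
          · have := hc v w p
            rw [ind_of_not i, zero_mul] at this
            simp only [c2, if_neg fun k => i ⟨p, .inl k⟩, if_neg fun k => i ⟨p, .inr k⟩]
            exact this.symm
      refine ⟨fun o => o.elim t c, fun u v k => ?_⟩
      have e := hc u v k.1
      rw [ind_of_adj k, one_mul] at e
      rw [e]
      have key : ∀ g, (g = D.l s(u, v) ∨ g = D.r s(u, v)) → c g = (prj D S K g).elim t c := by
        intro g hg
        by_cases q : cl D S g = K
        · rw [prj_some.2 ⟨rfl, q⟩]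
          rfl
        · rw [prj_none.2 q]
          have s : S.Adj u v := by
            by_contra s
            have e := cl_lr D k.1 s
            rcases hg with rfl | rfl
            · exact q (k.2.elim id fun x => e.trans x)
            · exact q (k.2.elim (fun x => e.symm.trans x) id)
          have := ht u v ⟨s, k.2⟩
          show _ = t
          rcases hg with rfl | rfl
          · simpa only [c2, if_neg q, if_pos (k.2.resolve_left q), add_zero] using this
          · simpa only [c2, if_neg q, if_pos (k.2.resolve_right q), zero_add] using this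
      rw [key _ (.inl rfl), key _ (.inr rfl)]
    · rintro ⟨c, hc⟩ v
      rw [bd_congr (T := fun e => c (prj D S K (D.l e)) + c (prj D S K (D.r e))) (hc v),
        ← bd_sub (S := fun e => c (prj D S K (D.l e)) + c (prj D S K (D.r e))) hle fun w p q => by
          rw [prj_none.2 fun k => q ⟨p, .inl k⟩, prj_none.2 fun k => q ⟨p, .inr k⟩, z2_add_self]]
      exact D.even (fun g => c (prj D S K g)) v

theorem innD_star (D : Dual G) (hS : S ≤ G) (h : TwoConn S) {K : Quot (Rl D S)}
    (hK : K ∈ fs (sub D hS)) : (innD D hS h hK).star none = (sub D hS).star K := by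
  ext u v
  constructor
  · rintro ⟨k, q⟩
    refine ⟨?_, k.2⟩
    by_contra s
    have e := cl_lr D k.1 s
    rcases q with q | q
    · exact prj_none.1 q (k.2.elim id fun x => e.trans x)
    · exact prj_none.1 q (k.2.elim (fun x => e.symm.trans x) id)
  · intro k
    refine ⟨star_le_inn D hS K k, ?_⟩
    have n := (sub D hS).sides_ne h k.1
    rcases k.2 with q | q
    · exact .inr (prj_none.2 fun x => n (q.trans x.symm))
    · exact .inl (prj_none.2 fun x => n (x.trans q.symm))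

theorem innD_len (D : Dual G) (hS : S ≤ G) (h : TwoConn S) {K : Quot (Rl D S)}
    (hK : K ∈ fs (sub D hS)) {g : D.Fc} (hg : cl D S g = K) :
    len (innD D hS h hK) (some g) = len D g := by
  classical
  unfold len
  rw [← Finset.sum_subset (s₁ := eF (inn D S K)) (s₂ := eF G)]
  · refine Finset.sum_congr rfl fun e _ => ?_
    have k : ∀ x, prj D S K x = some g ↔ x = g := fun x =>
      prj_some.trans (and_iff_left hg)
    simp only [k]
  · exact fun e he => mem_eF.2 (SimpleGraph.edgeSet_mono (inn_le D K) (mem_eF.1 he))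
  · refine eF_ind fun u v k hn => ?_
    rw [if_neg fun q => hn (mk_eF.2 ⟨k, .inl ((congrArg (cl D S) q).trans hg)⟩),
      if_neg fun q => hn (mk_eF.2 ⟨k, .inr ((congrArg (cl D S) q).trans hg)⟩), add_zero]

theorem innD_sum (D : Dual G) (hS : S ≤ G) (h : TwoConn S) {K : Quot (Rl D S)}
    (hK : K ∈ fs (sub D hS)) (F : ℕ → ℤ) :
    ∑ o ∈ fs (innD D hS h hK), F (len (innD D hS h hK) o) =
      F (len (innD D hS h hK) none) + ∑ g ∈ fib D S K, F (len D g) := by
  classical
  have e : fs (innD D hS h hK) = insert none ((fib D S K).image some) := by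
    ext o
    rw [Finset.mem_insert, Finset.mem_image]
    cases o with
    | none => exact iff_of_true (mem_fs'.2 (innD_star D hS h hK ▸ mem_fs'.1 hK)) (.inl rfl)
    | some g =>
      constructor
      · intro k
        obtain ⟨u, v, p, q⟩ := mem_fs.1 k
        refine .inr ⟨g, mem_fib.2 ?_, rfl⟩
        rcases q with q | q
        · exact ⟨mem_fs.2 ⟨u, v, p.1, .inl (prj_some.1 q).1⟩, (prj_some.1 q).2⟩
        · exact ⟨mem_fs.2 ⟨u, v, p.1, .inr (prj_some.1 q).1⟩, (prj_some.1 q).2⟩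
      · rintro (k | ⟨x, k, e⟩)
        · exact absurd k (by simp)
        · obtain rfl := Option.some.inj e
          rw [← len_ne, innD_len D hS h hK (mem_fib.1 k).2, len_ne]
          exact (mem_fib.1 k).1
  rw [e, Finset.sum_insert (by simp), Finset.sum_image fun _ _ _ _ k => Option.some.inj k]
  exact congrArg _ (Finset.sum_congr rfl fun g k => by rw [innD_len D hS h hK (mem_fib.1 k).2])

end Pool.Agent.KZ
end

-- merged part: Pool.Agent.Work.MP_5bd7f1_co.KZ.Mon
section
/-! Face weights and the discs inside the faces of a subgraph. -/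

set_option autoImplicit false
set_option linter.unusedVariables false
open Relation Pool.Agent.Pl

namespace Pool.Agent.KZ

variable {V : Type} [Fintype V] {G S C : SimpleGraph V}

/-- weight of a face of length `k` -/
def w (k : ℕ) : ℤ := if k = 4 then 0 else (k : ℤ) - 5

/-- bound for a critical disc with boundary length `k` -/
def W (k : ℕ) : ℤ :=
  if k = 3 then -5 else if k = 4 then -4 else if k = 5 then -2 else if k = 6 then 0 else (k : ℤ) - 7

def B (k : ℕ) : ℤ := if k = 0 then -8 else W k + w k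

theorem W_le {k : ℕ} (h : 3 ≤ k) : W k ≤ w k := by
  unfold W w
  split_ifs <;> omega

theorem W_amp {k : ℕ} (h : 3 ≤ k) : W (k + 2) = w k := by
  unfold W w
  split_ifs <;> omega

theorem w_chord {k a b : ℕ} (ha : 3 ≤ a) (hb : 3 ≤ b) (h : a + b = k + 2) : w a + w b ≤ W k := by
  unfold W w
  split_ifs <;> omega

theorem w_two {k a b : ℕ} (hk : 3 ≤ k) (ha : 3 ≤ a) (hb : 3 ≤ b) (h : a + b = k + 4) :
    w a + W b ≤ W k := by
  unfold W w
  split_ifs <;> omega

theorem W_base {k : ℕ} (h : 3 ≤ k) : (k : ℤ) - 8 ≤ W k := by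
  unfold W
  split_ifs <;> omega

noncomputable def tot (D : Dual G) : ℤ := ∑ f ∈ fs D, w (len D f)

structure Hyp (D : Dual G) (C : SimpleGraph V) : Prop where
  le : C ≤ G
  ne : G ≠ C
  crit : Crit G C
  alt : C = ⊥ ∨ (Col G ∧ IsCyc C ∧ ∃ f, D.star f = C)

theorem Hyp.two {D : Dual G} (h : Hyp D C) : TwoConn G :=
  h.crit.twoConn h.le h.ne (h.alt.imp id fun k => ⟨k.1, k.2.1⟩)

noncomputable def mu (G C : SimpleGraph V) : ℕ := (G.edgeSet \ C.edgeSet).ncard

/-- the bound for all smaller instances -/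
def Bd (V : Type) [Fintype V] (n : ℕ) : Prop :=
  ∀ (G C : SimpleGraph V) (D : Dual G), mu G C < n → Hyp D C → tot D ≤ B (ne C)

theorem inn_crit {D : Dual G} (hH : Hyp D C) (hS : S ≤ G) (hC : C ≤ S) (K : Quot (Rl D S)) :
    Crit (inn D S K) ((sub D hS).star K) := by
  classical
  intro u v huv hn
  have s : ¬ S.Adj u v := fun s => hn ⟨s, huv.2⟩
  obtain ⟨φ, p, q⟩ := hH.crit u v huv.1 fun k => s (hC k)
  refine ⟨φ, fun a b k => p a b ⟨k.1.1, k.2⟩, fun ⟨χ, c1, c2⟩ => q ?_⟩
  let Q : Set V := {x | x ∈ (inn D S K).support ∧ x ∉ ((sub D hS).star K).support}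
  have hQ : ∀ x ∈ Q, ∀ y, G.Adj x y → ¬ S.Adj x y ∧ cl D S (D.l s(x, y)) = K := by
    rintro x ⟨⟨z, hz⟩, hx⟩ y hy
    refine side D hS hH.two hx hz.1 hy (hz.2.elim id fun k => (cl_lr D hz.1 fun s => ?_).trans k)
    exact hx ⟨z, s, .inr k⟩
  have hb : ∀ x ∈ (inn D S K).support, x ∉ Q → χ x = φ x := fun x h1 h2 =>
    c2 x (by_contra fun k => h2 ⟨h1, k⟩)
  refine ⟨_, glue (G := G) Q (φ := φ) (χ := χ) ?_ ?_ ?_, fun x ⟨y, hy⟩ => ?_⟩
  · intro a b k ha hb'
    by_cases e : s(a, b) = s(u, v)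
    · have i : (inn D S K).Adj a b := by
        have : s(u, v) ∈ (inn D S K).edgeSet := huv
        rwa [← e] at this
      rw [← hb a ⟨b, i⟩ ha, ← hb b ⟨a, i.symm⟩ hb']
      exact c1 a b i
    · exact p a b ⟨k, e⟩
  · exact fun a b k ha => c1 a b ⟨k, .inl (hQ a ha b k).2⟩
  · intro a b k ha hb'
    have i : (inn D S K).Adj a b := ⟨k, .inl (hQ a ha b k).2⟩
    exact hb b ⟨a, i.symm⟩ hb'
  · exact if_neg fun k => (hQ x k y (hS (hC hy))).1 (hC hy)

theorem fib_triv (D : Dual G) (hS : S ≤ G) {K : Quot (Rl D S)} (hK : K ∈ fs (sub D hS))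
    (h : ins D S K = ∅) : ∃ g, fib D S K = {g} ∧ len D g = len (sub D hS) K := by
  obtain ⟨g, g1, g2⟩ : ∃ g ∈ fs D, cl D S g = K := by
    obtain ⟨u, v, p, q | q⟩ := mem_fs.1 hK
    · exact ⟨_, l_fs D (mk_eF.2 (hS p)), q⟩
    · exact ⟨_, r_fs D (mk_eF.2 (hS p)), q⟩
  have e : fib D S K = {g} := by
    ext x
    rw [Finset.mem_singleton, mem_fib]
    refine ⟨fun k => fib_one D (S := S) (fun u v p q => ?_) (k.2.trans g2.symm),
      fun k => k ▸ ⟨g1, g2⟩⟩
    have n : cl D S (D.l s(u, v)) ≠ K := fun k => by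
      have := mk_ins.2 ⟨p, q, k⟩
      rw [h] at this
      exact Finset.notMem_empty _ this
    exact ⟨fun k => n (k ▸ g2), fun k => n ((cl_lr D p q).trans (k ▸ g2))⟩
  refine ⟨g, e, ?_⟩
  have := sum_fib D hS K
  rw [e, h, Finset.sum_singleton] at this
  simpa using this

theorem mon {D : Dual G} (IH : Bd V (mu G C)) (hH : Hyp D C) (hS : S ≤ G) (hC : C ≤ S)
    (hCS : S ≠ C) (two : TwoConn S) {K : Quot (Rl D S)} (hK : K ∈ fs (sub D hS))
    (h0 : C = ⊥ → (sub D hS).star K ≠ S) :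
    ∑ g ∈ fib D S K, w (len D g) ≤ w (len (sub D hS) K) ∧
      ((ins D S K).Nonempty → ∑ g ∈ fib D S K, w (len D g) ≤ W (len (sub D hS) K)) := by
  have h3 := three_le_len (sub D hS) two hK
  have key : (ins D S K).Nonempty → ∑ g ∈ fib D S K, w (len D g) ≤ W (len (sub D hS) K) := by
    rintro ⟨e, he⟩
    induction e using Sym2.ind with
    | _ u v =>
    obtain ⟨p, q, r⟩ := mk_ins.1 he
    have hy : Hyp (innD D hS two hK) ((sub D hS).star K) := by
      refine ⟨star_le_inn D hS K, fun e => ?_, inn_crit hH hS hC K, .inr ⟨?_,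
        (sub D hS).star_isCyc two K (mem_fs'.1 hK), none, innD_star D hS two hK⟩⟩
      · have : (inn D S K).Adj u v := ⟨p, .inl r⟩
        rw [e] at this
        exact q this.1
      · rcases hH.alt with rfl | k
        · refine hH.crit.col_lt (inn_le D K) fun e => h0 rfl
            (le_antisymm ((sub D hS).star_le K) fun a b k => ⟨k, ?_⟩)
          have : (inn D S K).Adj a b := e.symm ▸ hS k
          exact this.2
        · exact k.1.mono (inn_le D K)
    have lt : mu (inn D S K) ((sub D hS).star K) < mu G C := by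
      obtain ⟨a, b, k1, k2⟩ := exists_edge hC hCS.symm
      refine Set.ncard_lt_ncard ⟨fun e he => ?_, fun k => ?_⟩ (Set.toFinite _)
      · induction e using Sym2.ind with
        | _ x y => exact ⟨he.1.1, fun c => he.2 ⟨hC c, he.1.2⟩⟩
      · have := k (show s(a, b) ∈ G.edgeSet \ C.edgeSet from ⟨hS k1, k2⟩)
        exact this.2 ⟨k1, this.1.2⟩
    have b := IH _ _ _ lt hy
    unfold tot at b
    rw [innD_sum, len_eq _ hy.two, innD_star, ← len_eq _ two, B, if_neg (by omega)] at b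
    omega
  refine ⟨?_, key⟩
  rcases (ins D S K).eq_empty_or_nonempty with h | h
  · obtain ⟨g, g1, g2⟩ := fib_triv D hS hK h
    rw [g1, Finset.sum_singleton, g2]
  · exact (key h).trans (W_le h3)

/-- subgraphs with three faces: the boundary cycle and a chord or a path -/
theorem three_faces {D : Dual G} (IH : Bd V (mu G C)) (hH : Hyp D C) (hc : IsCyc C) {f : D.Fc}
    (hf : D.star f = C) (hS : S ≤ G) (hC : C ≤ S) (hCS : S ≠ C) (two : TwoConn S)
    (h1 : ne S = nv S + 1)
    (h2 : ne S = ne C + 1 ∨ (ne S = ne C + 2 ∧ ∃ u v, G.Adj u v ∧ ¬ S.Adj u v)) :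
    tot D ≤ B (ne C) := by
  classical
  have h0 : S ≠ ⊥ := fun e => hc.1 (le_bot_iff.1 (e ▸ hC))
  obtain ⟨s1, s2⟩ := star_sub D hS (hf ▸ hC : D.star f ≤ S)
  have k0 : cl D S f ∈ fs (sub D hS) := mem_fs'.2 (by rw [s2, hf]; exact hc.1)
  have l0 : len (sub D hS) (cl D S f) = ne C := by rw [len_eq _ two, s2, hf]
  have eu := euler (sub D hS) two
  obtain ⟨K1, K2, n12, e12⟩ := Finset.card_eq_two.1
    (show ((fs (sub D hS)).erase (cl D S f)).card = 2 by rw [Finset.card_erase_of_mem k0]; omega)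
  have m1 : K1 ∈ fs (sub D hS) := Finset.mem_of_mem_erase (a := cl D S f) (by rw [e12]; simp)
  have m2 : K2 ∈ fs (sub D hS) := Finset.mem_of_mem_erase (a := cl D S f) (by rw [e12]; simp)
  have sm : ∀ F : Quot (Rl D S) → ℤ, ∑ K ∈ fs (sub D hS), F K = F (cl D S f) + (F K1 + F K2) := by
    intro F
    rw [← Finset.add_sum_erase _ F k0, e12, Finset.sum_pair n12]
  have sl := sum_len (sub D hS)
  rw [sm, l0] at sl
  have M := fun K hK => mon IH hH hS hC hCS two (K := K) hK fun e => (hc.1 e).elim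
  have t1 := three_le_len _ two m1
  have t2 := three_le_len _ two m2
  have t0 := l0 ▸ three_le_len _ two k0
  have a0 := l0 ▸ (M _ k0).1
  have a1 := M _ m1
  have a2 := M _ m2
  unfold tot
  rw [sum_fs D hS hH.two h0, sm, B, if_neg (by omega)]
  rcases h2 with h2 | ⟨h2, u, v, p, q⟩
  · have := w_chord t1 t2 (k := ne C) (by omega)
    omega
  · have hk := cl_fs D hS hH.two h0 (l_fs D (mk_eF.2 p))
    have nk : cl D S (D.l s(u, v)) ≠ cl D S f := fun e => q (hC (hf ▸ ⟨p, .inl (s1 _ e)⟩))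
    have := Finset.mem_erase.2 ⟨nk, hk⟩
    rw [e12, Finset.mem_insert, Finset.mem_singleton] at this
    rcases this with e | e
    · have := a1.2 ⟨_, mk_ins.2 ⟨p, q, e⟩⟩
      have := w_two t0 t2 t1 (by omega)
      omega
    · have := a2.2 ⟨_, mk_ins.2 ⟨p, q, e⟩⟩
      have := w_two t0 t1 t2 (by omega)
      omega

end Pool.Agent.KZ
end

-- merged part: Pool.Agent.Work.MP_5bd7f1_co.KZ.Clp
section
/-! Collapsing a face of length four. -/

set_option autoImplicit false
open Relation Pool.Agent.Pl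

namespace Pool.Agent.KZ

variable {V : Type} [Fintype V] {S : SimpleGraph V}

open Classical in
/-- send `c` to `a` -/
noncomputable def mv (c a : V) (v : V) : V := if v = c then a else v

omit [Fintype V] in
theorem mv_self (c a : V) : mv c a c = a := if_pos rfl

omit [Fintype V] in
theorem mv_ne {c a v : V} (h : v ≠ c) : mv c a v = v := if_neg h

open Classical in
/-- the edge of `S` above an edge of the collapsed graph -/
noncomputable def up (S : SimpleGraph V) (a c : V) (e : Sym2 V) : Sym2 V :=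
  if e ∈ S.edgeSet then e else e.map (mv a c)

open Classical in
/-- the other side of an edge -/
noncomputable def oth (D : Dual S) (f : D.Fc) (e : Sym2 V) : D.Fc :=
  if D.l e = f then D.r e else D.l e

/-- `a b c d` is the boundary of the face `f`, and `a, c` have no other common neighbour -/
structure Sq (D : Dual S) (f : D.Fc) (a b c d : V) : Prop where
  two : TwoConn S
  ab : S.Adj a b
  cb : S.Adj c b
  ad : S.Adj a d
  cd : S.Adj c d
  ac : a ≠ c
  bd : b ≠ d
  nac : ¬ S.Adj a c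
  com : ∀ x, S.Adj a x → S.Adj c x → x = b ∨ x = d
  face : ∀ u v, (D.star f).Adj u v ↔
    s(u, v) = s(a, b) ∨ s(u, v) = s(c, b) ∨ s(u, v) = s(a, d) ∨ s(u, v) = s(c, d)

theorem oth_spec (D : Dual S) (h : TwoConn S) {f : D.Fc} {u v : V} (k : (D.star f).Adj u v) :
    oth D f s(u, v) ≠ f ∧ s(D.l s(u, v), D.r s(u, v)) = s(f, oth D f s(u, v)) := by
  have n := D.sides_ne h k.1
  unfold oth
  split_ifs with e
  · exact ⟨fun q => n (e.trans q.symm), by rw [e]⟩
  · exact ⟨e, by rw [k.2.resolve_left e, Sym2.eq_swap]⟩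

theorem oth_sum (D : Dual S) (h : TwoConn S) {f : D.Fc} {u v : V} (k : (D.star f).Adj u v)
    {M : Type} [AddCommMonoid M] (g : D.Fc → M) :
    g (D.l s(u, v)) + g (D.r s(u, v)) = g f + g (oth D f s(u, v)) := by
  rcases Sym2.eq_iff.1 (oth_spec D h k).2 with ⟨p, q⟩ | ⟨p, q⟩
  · rw [p, q]
  · rw [p, q, add_comm]

open Classical in
theorem bd_less {G : SimpleGraph V} {x y : V} (h : G.Adj x y) (T : Sym2 V → ZMod 2) (v : V) :
    bd G T v = bd (less G x y) T v +
      T s(x, y) * ((if v = x then 1 else 0) + (if v = y then 1 else 0)) := by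
  rw [← bd_edge h, ← bd_smul]
  have e : T = (fun e => if e = s(x, y) then 0 else T e) +
      fun e => T s(x, y) * if e = s(x, y) then 1 else 0 := by
    funext e
    by_cases k : e = s(x, y) <;> simp [k]
  conv_lhs => rw [e, bd_add]
  congr 1
  rw [bd_sub (less_le G x y) fun w p q => if_pos (by_contra fun k => q ⟨p, k⟩)]
  exact bd_congr fun w k => if_neg k.2

omit [Fintype V] in
theorem push_mv {G : SimpleGraph V} {a c : V} (hac : a ≠ c) (hn : ¬ G.Adj a c) {u v : V} :
    (push G (mv c a)).Adj u v ↔ (u ≠ c ∧ v ≠ c ∧ G.Adj u v) ∨ (u = a ∧ G.Adj c v) ∨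
      (v = a ∧ G.Adj u c) := by
  constructor
  · rintro ⟨-, x, y, k, rfl, rfl⟩
    by_cases hx : x = c
    · subst hx
      rw [mv_self, mv_ne k.ne']
      exact .inr (.inl ⟨rfl, k⟩)
    · by_cases hy : y = c
      · subst hy
        rw [mv_self, mv_ne hx]
        exact .inr (.inr ⟨rfl, k⟩)
      · rw [mv_ne hx, mv_ne hy]
        exact .inl ⟨hx, hy, k⟩
  · rintro (⟨p, q, k⟩ | ⟨rfl, k⟩ | ⟨rfl, k⟩)
    · exact ⟨k.ne, u, v, k, mv_ne p, mv_ne q⟩
    · exact ⟨fun e => hn (e ▸ k.symm), c, v, k, mv_self _ _, mv_ne k.ne'⟩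
    · exact ⟨fun e => hn (e ▸ k), u, c, k, mv_ne k.ne, mv_self _ _⟩

open Classical in
theorem bd_push {G : SimpleGraph V} {a c : V} (hac : a ≠ c) (hn : ¬ G.Adj a c)
    (hc : ∀ x, G.Adj a x → ¬ G.Adj c x) (T : Sym2 V → ZMod 2) (v : V) :
    bd (push G (mv c a)) T v = if v = c then 0 else
      bd G (fun e => T (e.map (mv c a))) v +
        if v = a then bd G (fun e => T (e.map (mv c a))) c else 0 := by
  split_ifs with h1 h2
  · refine bd_none fun w k => ?_
    rcases (push_mv hac hn).1 k with k | k | k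
    · exact (k.1 h1).elim
    · exact (hac (k.1.symm.trans h1)).elim
    · exact (k.2.ne h1).elim
  · subst h2
    unfold bd
    rw [← Finset.sum_add_distrib]
    refine Finset.sum_congr rfl fun w _ => ?_
    simp only [push_mv hac hn, Sym2.map_mk, mv_self, mv_ne hac]
    by_cases p : G.Adj v w
    · have q : w ≠ c := fun e => hn (e ▸ p)
      simp [p, hc w p, q, hac, mv_ne q]
    · by_cases q : G.Adj c w
      · simp [p, q, mv_ne q.ne']
      · simp [p, q, hn]
  · rw [add_zero]
    unfold bd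
    rw [← Finset.add_sum_erase _ _ (Finset.mem_univ a), ← Finset.add_sum_erase _ _ (Finset.mem_univ a),
      ← Finset.add_sum_erase _ _ (Finset.mem_erase.2 ⟨hac.symm, Finset.mem_univ c⟩),
      ← Finset.add_sum_erase _ _ (Finset.mem_erase.2 ⟨hac.symm, Finset.mem_univ c⟩), ← add_assoc,
      ← add_assoc]
    congr 1
    · simp only [push_mv hac hn, Sym2.map_mk, mv_self, mv_ne hac, mv_ne h1]
      by_cases p : G.Adj v a
      · have q : ¬ G.Adj v c := fun k => hc v p.symm k.symm
        simp [p, q, h1, h2, hac, hac.symm]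
      · by_cases q : G.Adj v c <;> simp [p, q, h2, hac.symm]
    · refine Finset.sum_congr rfl fun w hw => ?_
      simp only [Finset.mem_erase] at hw
      simp [push_mv hac hn, mv_ne h1, mv_ne hw.1, h1, h2, hw.1, hw.2.1]

/-- the graph without the two edges at `c` -/
def S0 (S : SimpleGraph V) (b c d : V) : SimpleGraph V := less (less S c b) c d

section
variable {D : Dual S} {f : D.Fc} {a b c d : V} (h : Sq D f a b c d)
include h

theorem Sq.s_ab : (D.star f).Adj a b := (h.face a b).2 (.inl rfl)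
theorem Sq.s_cb : (D.star f).Adj c b := (h.face c b).2 (.inr (.inl rfl))
theorem Sq.s_ad : (D.star f).Adj a d := (h.face a d).2 (.inr (.inr (.inl rfl)))
theorem Sq.s_cd : (D.star f).Adj c d := (h.face c d).2 (.inr (.inr (.inr rfl)))

theorem Sq.ne1 : s(a, b) ≠ s(a, d) := fun e => h.bd (Sym2.congr_right.1 e)
theorem Sq.ne2 : s(c, d) ≠ s(c, b) := fun e => h.bd (Sym2.congr_right.1 e).symm

theorem Sq.s0_a {x : V} (k : S.Adj a x) : (S0 S b c d).Adj a x := by
  have n : ∀ y, s(a, x) ≠ s(c, y) := fun y e => by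
    rcases Sym2.eq_iff.1 e with ⟨p, -⟩ | ⟨-, p⟩
    · exact h.ac p
    · exact h.nac (p ▸ k)
  exact ⟨⟨k, n b⟩, n d⟩

theorem Sq.s0_com (x : V) (p : (S0 S b c d).Adj a x) : ¬ (S0 S b c d).Adj c x := fun q => by
  rcases h.com x p.1.1 q.1.1 with rfl | rfl
  · exact q.1.2 rfl
  · exact q.2 rfl

theorem Sq.push_s0 : push (S0 S b c d) (mv c a) = push S (mv c a) := by
  ext u v
  rw [push_mv (G := S0 S b c d) h.ac fun k => h.nac k.1.1, push_mv h.ac h.nac]
  have key : ∀ v, S.Adj c v → (a ≠ c ∧ v ≠ c ∧ (S0 S b c d).Adj a v) ∨ (S0 S b c d).Adj c v := by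
    intro v k
    by_cases p : S.Adj a v
    · exact .inl ⟨h.ac, k.ne', h.s0_a p⟩
    · exact .inr ⟨⟨k, fun e => p (Sym2.congr_right.1 e ▸ h.ab)⟩,
        fun e => p (Sym2.congr_right.1 e ▸ h.ad)⟩
  constructor
  · exact Or.imp (fun k => ⟨k.1, k.2.1, k.2.2.1.1⟩)
      (Or.imp (fun k => ⟨k.1, k.2.1.1⟩) fun k => ⟨k.1, k.2.1.1⟩)
  · rintro (⟨p, q, k⟩ | ⟨rfl, k⟩ | ⟨rfl, k⟩)
    · have n : ∀ y, s(u, v) ≠ s(c, y) := fun y e => by
        rcases Sym2.eq_iff.1 e with ⟨e, -⟩ | ⟨-, e⟩
        exacts [p e, q e]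
      exact .inl ⟨p, q, ⟨k, n b⟩, n d⟩
    · exact (key v k).imp id fun q => .inl ⟨rfl, q⟩
    · exact (key u k.symm).imp (fun q => ⟨q.2.1, q.1, q.2.2.symm⟩) fun q => .inr ⟨rfl, q.symm⟩

theorem Sq.up_down {u v : V} (k : (S0 S b c d).Adj u v) :
    (push S (mv c a)).Adj (mv c a u) (mv c a v) ∧ up S a c s(mv c a u, mv c a v) = s(u, v) := by
  have key : ∀ v, (S0 S b c d).Adj c v → (push S (mv c a)).Adj a v ∧ up S a c s(a, v) = s(c, v) := by
    intro v k
    have n : ¬ S.Adj a v := fun p => h.s0_com v (h.s0_a p) k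
    refine ⟨(push_mv h.ac h.nac).2 (.inr (.inl ⟨rfl, k.1.1⟩)), ?_⟩
    rw [up, if_neg (show s(a, v) ∉ S.edgeSet from n), Sym2.map_mk, mv_self,
      mv_ne fun (e : v = a) => h.nac (e ▸ k.1.1.symm)]
  by_cases hu : u = c
  · subst hu
    rw [mv_self, mv_ne k.ne']
    exact key v k
  · by_cases hv : v = c
    · subst hv
      rw [mv_self, mv_ne hu, Sym2.eq_swap, Sym2.eq_swap (a := u)]
      exact ⟨(key u k.symm).1.symm, (key u k.symm).2⟩
    · rw [mv_ne hu, mv_ne hv]
      exact ⟨(push_mv h.ac h.nac).2 (.inl ⟨hu, hv, k.1.1⟩), if_pos k.1.1⟩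

theorem Sq.down_up {u v : V} (k : (push S (mv c a)).Adj u v) :
    ∃ x y, (S0 S b c d).Adj x y ∧ mv c a x = u ∧ mv c a y = v ∧ up S a c s(u, v) = s(x, y) := by
  rw [← h.push_s0] at k
  obtain ⟨-, x, y, k, rfl, rfl⟩ := k
  exact ⟨x, y, k, rfl, rfl, (h.up_down k).2⟩

theorem Sq.down_eq {u v x : V} (k : (S0 S b c d).Adj u v) (hx : S.Adj a x) :
    s(mv c a u, mv c a v) = s(a, x) ↔ s(u, v) = s(a, x) := by
  have e := h.up_down (h.s0_a hx)
  rw [mv_ne h.ac, mv_ne fun (q : x = c) => h.nac (q ▸ hx)] at e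
  constructor
  · intro q
    rw [← (h.up_down k).2, q, e.2]
  · intro q
    rw [← Sym2.map_mk, q, Sym2.map_mk, mv_ne h.ac, mv_ne fun (q : x = c) => h.nac (q ▸ hx)]

theorem Sq.off {u v : V} (k : (S0 S b c d).Adj u v) (h1 : s(u, v) ≠ s(a, b))
    (h2 : s(u, v) ≠ s(a, d)) : D.l s(u, v) ≠ f ∧ D.r s(u, v) ≠ f := by
  have : ¬ (D.star f).Adj u v := fun q => by
    rcases (h.face u v).1 q with e | e | e | e
    exacts [h1 e, k.1.2 e, h2 e, k.2 e]
  exact ⟨fun e => this ⟨k.1.1, .inl e⟩, fun e => this ⟨k.1.1, .inr e⟩⟩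

end

open Classical in
noncomputable def clL (D : Dual S) (f : D.Fc) (a b c d : V) (e : Sym2 V) : D.Fc :=
  if e = s(a, b) then oth D f s(a, b) else if e = s(a, d) then oth D f s(a, d)
  else D.l (up S a c e)

open Classical in
noncomputable def clR (D : Dual S) (f : D.Fc) (a b c d : V) (e : Sym2 V) : D.Fc :=
  if e = s(a, b) then oth D f s(c, b) else if e = s(a, d) then oth D f s(c, d)
  else D.r (up S a c e)

open Classical in
theorem Sq.sides {D : Dual S} {f : D.Fc} {a b c d : V} (h : Sq D f a b c d) {M : Type}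
    [AddCommGroup M] (g : D.Fc → M) {u v : V} (k : (S0 S b c d).Adj u v) :
    g (clL D f a b c d s(mv c a u, mv c a v)) + g (clR D f a b c d s(mv c a u, mv c a v)) =
      g (D.l s(u, v)) + g (D.r s(u, v)) +
        ((if s(u, v) = s(a, b) then g (oth D f s(c, b)) - g f else 0) +
          if s(u, v) = s(a, d) then g (oth D f s(c, d)) - g f else 0) := by
  unfold clL clR
  simp only [h.down_eq k h.ab, h.down_eq k h.ad, (h.up_down k).2]
  by_cases e1 : s(u, v) = s(a, b)
  · simp only [e1, if_true, if_neg h.ne1, oth_sum D h.two h.s_ab g]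
    abel
  · by_cases e2 : s(u, v) = s(a, d)
    · simp only [e2, if_true, if_neg h.ne1.symm, oth_sum D h.two h.s_ad g]
      abel
    · simp only [if_neg e1, if_neg e2, add_zero]

/-- the dual of the collapsed graph -/
@[reducible] noncomputable def clp {D : Dual S} {f : D.Fc} {a b c d : V} (h : Sq D f a b c d) :
    Dual (push S (mv c a)) where
  Fc := D.Fc
  l := clL D f a b c d
  r := clR D f a b c d
  cob T0 := by
    classical
    have bp := bd_push (G := S0 S b c d) h.ac (fun k => h.nac k.1.1) h.s0_com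
    rw [h.push_s0] at bp
    have cd' : (less S c b).Adj c d := ⟨h.cd, h.ne2⟩
    have bl : ∀ (T : Sym2 V → ZMod 2) v, bd S T v = bd (S0 S b c d) T v +
        T s(c, d) * ((if v = c then 1 else 0) + (if v = d then 1 else 0)) +
        T s(c, b) * ((if v = c then 1 else 0) + (if v = b then 1 else 0)) := fun T v => by
      rw [bd_less h.cb, bd_less cd']
      rfl
    have ba : ∀ (T : Sym2 V → ZMod 2) t v, bd (S0 S b c d)
        (fun e => T e + t * if e = s(a, d) then 1 else 0) v = bd (S0 S b c d) T v +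
          t * ((if v = a then 1 else 0) + (if v = d then 1 else 0)) := fun T t v => by
      rw [← bd_edge (h.s0_a h.ad), ← bd_smul, ← bd_add]
      rfl
    have z : ∀ t x y s : ZMod 2, t * (x + s) + t * (y + s) = t * x + t * y := by decide
    constructor
    · intro hT
      let T1 : Sym2 V → ZMod 2 := fun e => T0 (e.map (mv c a))
      let t := bd (S0 S b c d) T1 c
      let T : Sym2 V → ZMod 2 := fun e => if e = s(c, b) then 0 else if e = s(c, d) then t else
        T1 e + t * if e = s(a, d) then 1 else 0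
      have Tcb : T s(c, b) = 0 := if_pos rfl
      have Tcd : T s(c, d) = t := by simp only [T, if_neg h.ne2, if_true]
      have T2 : ∀ u v, (S0 S b c d).Adj u v →
          T s(u, v) = T1 s(u, v) + t * if s(u, v) = s(a, d) then 1 else 0 := fun u v k => by
        simp only [T, if_neg k.1.2, if_neg k.2]
      obtain ⟨c', hc⟩ := (D.cob T).1 fun v => by
        rw [bl, Tcb, Tcd, zero_mul, add_zero, bd_congr (T := fun e => T1 e + t *
          if e = s(a, d) then 1 else 0) (T2 v), ba, add_assoc, z]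
        have := bp T0 v
        rw [hT] at this
        by_cases e1 : v = c
        · subst e1
          simp only [if_neg h.ac.symm, if_true, mul_zero, mul_one, zero_add]
          exact z2_add_self _
        · rw [if_neg e1] at this ⊢
          rw [mul_zero, add_zero, mul_ite, mul_one, mul_zero]
          exact this.symm
      refine ⟨c', fun u v k0 => ?_⟩
      obtain ⟨x, y, k, rfl, rfl, -⟩ := h.down_up k0
      have e1 := hc c b h.cb
      have e2 := hc c d h.cd
      rw [oth_sum D h.two h.s_cb, Tcb] at e1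
      rw [oth_sum D h.two h.s_cd, Tcd] at e2
      rw [h.sides c' k, ← hc x y k.1.1, T2 x y k, ← z2_eq_of_add e1.symm, sub_self, ite_self,
        zero_add, e2]
      change T1 s(x, y) = _
      generalize T1 s(x, y) = p
      generalize c' f = q
      generalize c' (oth D f s(c, d)) = r
      split_ifs <;> revert p q r <;> decide
    · rintro ⟨c', hc⟩ v
      let c2 := Function.update c' f (c' (oth D f s(c, b)))
      have u1 : c2 f = c' (oth D f s(c, b)) := Function.update_self ..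
      have u2 : ∀ g, g ≠ f → c2 g = c' g := fun g hg => Function.update_of_ne hg ..
      have o1 := u2 _ (oth_spec D h.two h.s_cb).1
      let t := c2 f + c2 (oth D f s(c, d))
      have key : ∀ v, bd (S0 S b c d) (fun e => T0 (e.map (mv c a))) v =
          t * (if v = a then 1 else 0) + t * (if v = c then 1 else 0) := by
        intro v
        have ev := D.even c2 v
        rw [bl, oth_sum D h.two h.s_cb, oth_sum D h.two h.s_cd, o1, ← u1, z2_add_self, zero_mul,
          add_zero] at ev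
        rw [bd_congr (T := fun e => (c2 (D.l e) + c2 (D.r e)) + t * if e = s(a, d) then 1 else 0),
          ba, eq_neg_of_add_eq_zero_left ev, ZMod.neg_eq_self_mod_two, add_comm, z]
        intro w k
        have s := h.sides c2 k
        have nl : clL D f a b c d s(mv c a v, mv c a w) ≠ f ∧
            clR D f a b c d s(mv c a v, mv c a w) ≠ f := by
          unfold clL clR
          simp only [h.down_eq k h.ab, h.down_eq k h.ad, (h.up_down k).2]
          split_ifs with e1 e2
          · exact ⟨(oth_spec D h.two h.s_ab).1, (oth_spec D h.two h.s_cb).1⟩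
          · exact ⟨(oth_spec D h.two h.s_ad).1, (oth_spec D h.two h.s_cd).1⟩
          · exact h.off k e1 e2
        rw [u2 _ nl.1, u2 _ nl.2, o1, ← u1, sub_self, ite_self, zero_add] at s
        rw [Sym2.map_mk, hc _ _ (h.up_down k).1, s]
        congr 1
        simp only [t]
        generalize c2 f = q
        generalize c2 (oth D f s(c, d)) = r
        split_ifs <;> revert q r <;> decide
      rw [bp, key, key]
      by_cases e1 : v = c
      · exact if_pos e1
      · by_cases e2 : v = a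
        · simp only [if_neg e1, if_pos e2, if_neg h.ac.symm, if_true, mul_one, mul_zero, add_zero,
            zero_add]
          exact z2_add_self _
        · simp only [if_neg e1, if_neg e2, mul_zero, add_zero]

section
variable {D : Dual S} {f : D.Fc} {a b c d : V} (h : Sq D f a b c d)
include h

theorem clp_ne {u v : V} (k0 : (push S (mv c a)).Adj u v) :
    clL D f a b c d s(u, v) ≠ f ∧ clR D f a b c d s(u, v) ≠ f := by
  obtain ⟨x, y, k, rfl, rfl, -⟩ := h.down_up k0
  unfold clL clR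
  rw [(h.up_down k).2]
  split_ifs with e1 e2
  · exact ⟨(oth_spec D h.two h.s_ab).1, (oth_spec D h.two h.s_cb).1⟩
  · exact ⟨(oth_spec D h.two h.s_ad).1, (oth_spec D h.two h.s_cd).1⟩
  · exact h.off k (mt (h.down_eq k h.ab).2 e1) (mt (h.down_eq k h.ad).2 e2)

theorem clp_len {K : D.Fc} (hK : K ≠ f) : len (clp h) K = len D K := by
  classical
  let g : D.Fc → ℤ := fun x => if x = K then 1 else 0
  have gf : g f = 0 := if_neg hK.symm
  have cd' : (less S c b).Adj c d := ⟨h.cd, h.ne2⟩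
  have er : ∀ {G : SimpleGraph V} {x y : V}, eF (less G x y) = (eF G).erase s(x, y) := by
    intro G x y
    ext e
    induction e using Sym2.ind with
    | _ u v => rw [Finset.mem_erase, mk_eF, mk_eF]; exact and_comm
  have e1 : ∑ e ∈ eF (push S (mv c a)), (g (clL D f a b c d e) + g (clR D f a b c d e)) =
      ∑ e ∈ eF (S0 S b c d), (g (clL D f a b c d (e.map (mv c a))) +
        g (clR D f a b c d (e.map (mv c a)))) := by
    refine (Finset.sum_nbij' (Sym2.map (mv c a)) (up S a c) ?_ ?_ ?_ ?_ fun _ _ => rfl).symm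
    · exact eF_ind fun u v k => mk_eF.2 (h.up_down k).1
    · refine eF_ind fun u v k => ?_
      obtain ⟨x, y, k, -, -, e⟩ := h.down_up k
      exact e ▸ mk_eF.2 k
    · exact eF_ind fun u v k => (h.up_down k).2
    · refine eF_ind fun u v k0 => ?_
      obtain ⟨x, y, k, rfl, rfl, e⟩ := h.down_up k0
      rw [e, Sym2.map_mk]
  have e0 : ∑ e ∈ eF (S0 S b c d), (g (clL D f a b c d (e.map (mv c a))) +
        g (clR D f a b c d (e.map (mv c a)))) = ∑ e ∈ eF (S0 S b c d), (g (D.l e) + g (D.r e)) +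
        (g (oth D f s(c, b)) + g (oth D f s(c, d))) := by
    rw [Finset.sum_congr rfl (g := fun e => g (D.l e) + g (D.r e) +
        ((if e = s(a, b) then g (oth D f s(c, b)) - g f else 0) +
          if e = s(a, d) then g (oth D f s(c, d)) - g f else 0))
      (eF_ind fun u v k => h.sides g k), Finset.sum_add_distrib]
    congr 1
    rw [Finset.sum_add_distrib, Finset.sum_ite_eq', Finset.sum_ite_eq',
      if_pos (mk_eF.2 (h.s0_a h.ab)), if_pos (mk_eF.2 (h.s0_a h.ad)), gf, sub_zero, sub_zero]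
  rw [e0] at e1
  have e2 := Finset.add_sum_erase (eF S) (fun e => g (D.l e) + g (D.r e)) (mk_eF.2 h.cb)
  have e3 := Finset.add_sum_erase (eF (less S c b)) (fun e => g (D.l e) + g (D.r e)) (mk_eF.2 cd')
  rw [← er] at e2 e3
  simp only [oth_sum D h.two h.s_cb g, oth_sum D h.two h.s_cd g, gf] at e2 e3
  have c1 : (len (clp h) K : ℤ) =
      ∑ e ∈ eF (push S (mv c a)), (g (clL D f a b c d e) + g (clR D f a b c d e)) := by
    unfold len
    push_cast
    rfl
  have c2 : (len D K : ℤ) = ∑ e ∈ eF S, (g (D.l e) + g (D.r e)) := by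
    unfold len
    push_cast
    rfl
  have : (len (clp h) K : ℤ) = len D K := by
    rw [c1, c2, ← e2, ← e3, e1]
    unfold S0
    omega
  exact_mod_cast this

theorem clp_fs {K : D.Fc} : K ∈ fs (clp h) ↔ K ≠ f ∧ K ∈ fs D := by
  by_cases hK : K = f
  · refine iff_of_false (fun k => ?_) fun k => k.1 hK
    obtain ⟨u, v, p, q | q⟩ := mem_fs.1 k
    · exact (clp_ne h p).1 (q.trans hK)
    · exact (clp_ne h p).2 (q.trans hK)
  · rw [← len_ne, clp_len h hK, len_ne]
    exact (and_iff_right hK).symm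

end

end Pool.Agent.KZ
end

-- merged part: Pool.Agent.Work.MP_5bd7f1_co.KZ.Four
section
/-! The induction step at a face of length four. -/

set_option autoImplicit false
open Relation Pool.Agent.Pl

namespace Pool.Agent.KZ

variable {V : Type} [Fintype V] {G C H : SimpleGraph V}

/-- the edges of `G` above the edges of `H` -/
def lift (G H : SimpleGraph V) (a c : V) : SimpleGraph V where
  Adj u v := G.Adj u v ∧ H.Adj (mv c a u) (mv c a v) ∧ ¬ (u = c ∧ G.Adj a v) ∧ ¬ (v = c ∧ G.Adj a u)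
  symm := ⟨fun _ _ h => ⟨h.1.symm, h.2.1.symm, h.2.2.2, h.2.2.1⟩⟩
  loopless := ⟨fun _ h => G.loopless.irrefl _ h.1⟩

section
variable {a c : V} (hac : a ≠ c) (hn : ¬ G.Adj a c) (hH : H ≤ push G (mv c a))
include hac hn hH

omit [Fintype V] in
theorem H_ne {u v : V} (k : H.Adj u v) : u ≠ c := by
  rcases (push_mv hac hn).1 (hH k) with q | q | q
  exacts [q.1, q.1 ▸ hac, q.2.ne]

omit [Fintype V] in
theorem lift_of {u v : V} (k : H.Adj u v) (q : G.Adj u v) : (lift G H a c).Adj u v := by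
  have hu := H_ne hac hn hH k
  have hv := H_ne hac hn hH k.symm
  exact ⟨q, by rwa [mv_ne hu, mv_ne hv], fun e => hu e.1, fun e => hv e.1⟩

omit [Fintype V] in
theorem lift_c {v : V} (k : H.Adj a v) (q : ¬ G.Adj a v) : (lift G H a c).Adj c v := by
  have hv := H_ne hac hn hH k.symm
  have : G.Adj c v := by
    rcases (push_mv hac hn).1 (hH k) with p | p | p
    exacts [(q p.2.2).elim, p.2, (hn p.2).elim]
  exact ⟨this, by rwa [mv_self, mv_ne hv], fun e => q e.2, fun e => hv e.1⟩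

omit [Fintype V] in
theorem G_of {u v : V} (k : H.Adj u v) (hu : u ≠ a) (hv : v ≠ a) : G.Adj u v := by
  rcases (push_mv hac hn).1 (hH k) with p | p | p
  exacts [p.2.2, (hu p.1).elim, (hv p.1).elim]

omit [Fintype V] in
/-- every edge of `H` lifts -/
theorem lifts {u v : V} (k : H.Adj u v) : ∃ x y, (lift G H a c).Adj x y ∧
    (x = u ∨ (u = a ∧ x = c)) ∧ (y = v ∨ (v = a ∧ y = c)) := by
  by_cases q : G.Adj u v
  · exact ⟨u, v, lift_of hac hn hH k q, .inl rfl, .inl rfl⟩
  · by_cases hu : u = a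
    · subst hu
      exact ⟨c, v, lift_c hac hn hH k q, .inr ⟨rfl, rfl⟩, .inl rfl⟩
    · by_cases hv : v = a
      · subst hv
        exact ⟨u, c, (lift_c hac hn hH k.symm fun p => q p.symm).symm, .inl rfl, .inr ⟨rfl, rfl⟩⟩
      · exact (q (G_of hac hn hH k hu hv)).elim

omit [Fintype V] in
theorem two_lift {S : SimpleGraph V} {b d x0 y0 : V} (two : TwoConn H) (hL : lift G H a c ≤ S)
    (hs : ∀ u ∈ S.support, u ∈ H.support ∨ u = b ∨ u = c ∨ u = d) (ab : S.Adj a b)
    (cb : S.Adj c b) (ad : S.Adj a d) (cd : S.Adj c d) (hbd : b ≠ d) (hx : H.Adj a x0)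
    (gx : G.Adj a x0) (hy : H.Adj a y0) (gy : ¬ G.Adj a y0) : TwoConn S := by
  refine ⟨⟨a, ⟨b, ab⟩, b, ⟨a, ab.symm⟩, c, ⟨b, cb⟩, ab.ne, hac, cb.ne'⟩, ?_⟩
  suffices k : ∀ x, ∃ z, ∀ u ∈ S.support, u ≠ x →
      ReflTransGen (fun p q => S.Adj p q ∧ p ≠ x ∧ q ≠ x) u z by
    intro x u v hu hv hux hvx
    obtain ⟨z, hz⟩ := k x
    exact (hz u hu hux).trans (rtg_symm (fun _ _ h => ⟨h.1.symm, h.2.2, h.2.1⟩) (hz v hv hvx))
  intro x
  have off : ∀ x, x = a ∨ x = c → ∀ u v, ReflTransGen (fun p q => H.Adj p q ∧ p ≠ a ∧ q ≠ a) u v →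
      ReflTransGen (fun p q => S.Adj p q ∧ p ≠ x ∧ q ≠ x) u v := by
    intro x hx u v
    refine rtg_mono fun p q k => ⟨hL (lift_of hac hn hH k.1 (G_of hac hn hH k.1 k.2.1 k.2.2)), ?_⟩
    rcases hx with rfl | rfl
    · exact k.2
    · exact ⟨H_ne hac hn hH k.1, H_ne hac hn hH k.1.symm⟩
  by_cases xa : x = a
  · subst xa
    refine ⟨c, fun u hu hux => ?_⟩
    rcases hs u hu with k | rfl | rfl | rfl
    · exact (off x (.inl rfl) u y0 (two.2 x u y0 k ⟨x, hy.symm⟩ hux hy.ne')).tail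
        ⟨(hL (lift_c hac hn hH hy gy)).symm, hy.ne', hac.symm⟩
    · exact .single ⟨cb.symm, hux, hac.symm⟩
    · exact .refl
    · exact .single ⟨cd.symm, hux, hac.symm⟩
  · refine ⟨a, fun u hu hux => ?_⟩
    by_cases xc : x = c
    · subst xc
      rcases hs u hu with k | rfl | rfl | rfl
      · by_cases ua : u = a
        · exact ua ▸ .refl
        · exact (off x (.inr rfl) u x0 (two.2 a u x0 k ⟨a, hx.symm⟩ ua hx.ne')).tail
            ⟨(hL (lift_of hac hn hH hx gx)).symm, H_ne hac hn hH hx.symm, hac⟩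
      · exact .single ⟨ab.symm, hux, hac⟩
      · exact (hux rfl).elim
      · exact .single ⟨ad.symm, hux, hac⟩
    · have ca : ReflTransGen (fun p q => S.Adj p q ∧ p ≠ x ∧ q ≠ x) c a := by
        by_cases e : b = x
        · have e' : d ≠ x := fun q => hbd (e.trans q.symm)
          exact .tail (.single ⟨cd, Ne.symm xc, e'⟩) ⟨ad.symm, e', Ne.symm xa⟩
        · exact .tail (.single ⟨cb, Ne.symm xc, e⟩) ⟨ab.symm, e, Ne.symm xa⟩
      rcases hs u hu with k | rfl | rfl | rfl
      · have := two.2 x u a k ⟨x0, hx⟩ hux (Ne.symm xa)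
        clear hu hux k
        induction this using ReflTransGen.head_induction_on with
        | refl => exact .refl
        | @head p q k _ ih =>
          obtain ⟨p', q', l, hp, hq⟩ := lifts hac hn hH k.1
          rcases hp with rfl | ⟨rfl, -⟩
          · rcases hq with rfl | ⟨-, rfl⟩
            · exact ih.head ⟨hL l, k.2⟩
            · exact ca.head ⟨hL l, k.2.1, Ne.symm xc⟩
          · exact .refl
      · exact .single ⟨ab.symm, hux, Ne.symm xa⟩
      · exact ca
      · exact .single ⟨ad.symm, hux, Ne.symm xa⟩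

end

/-- the two faces beside the collapsed face stay apart -/
theorem apart {S : SimpleGraph V} {D : Dual S} {f : D.Fc} {a b c d : V} (h : Sq D f a b c d)
    (hH : H ≤ push S (mv c a)) (two : TwoConn H) {x0 y0 : V} (hx : H.Adj a x0) (sx : S.Adj a x0)
    (hy : H.Adj a y0) (sy : ¬ S.Adj a y0)
    (hc : ∀ y, (S0 S b c d).Adj c y → H.Adj a y) :
    cl (clp h) H (oth D f s(c, b)) ≠ cl (clp h) H (oth D f s(c, d)) := by
  classical
  intro e
  obtain ⟨T, t1, -, t3, t4⟩ := two.two_edges hx hy fun q => sy (q ▸ sx)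
  obtain ⟨c', hc'⟩ := ((sub (clp h) hH).cob T).1 t1
  let g : D.Fc → ZMod 2 := fun x => c' (cl (clp h) H x)
  have ev := D.even g c
  have cd' : (less S c b).Adj c d := ⟨h.cd, h.ne2⟩
  have val : ∀ y, (S0 S b c d).Adj c y → g (D.l s(c, y)) + g (D.r s(c, y)) = T s(a, y) := by
    intro y k
    have s := h.sides g k
    have n : ∀ z, S.Adj a z → s(c, y) ≠ s(a, z) := fun z q e => by
      rcases Sym2.eq_iff.1 e with ⟨p, -⟩ | ⟨p, -⟩
      · exact h.ac p.symm
      · exact h.nac (p ▸ q)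
    rw [if_neg (n b h.ab), if_neg (n d h.ad), add_zero, add_zero, mv_self, mv_ne k.ne'] at s
    rw [← s]
    exact (hc' a y (hc y k)).symm
  have y1 : (S0 S b c d).Adj c y0 := by
    rcases (push_mv h.ac h.nac).1 (hH hy) with p | p | p
    · exact (sy p.2.2).elim
    · exact ⟨⟨p.2, fun e => sy (Sym2.congr_right.1 e ▸ h.ab)⟩,
        fun e => sy (Sym2.congr_right.1 e ▸ h.ad)⟩
    · exact (h.nac p.2).elim
  rw [bd_less h.cb, bd_less cd', oth_sum D h.two h.s_cb, oth_sum D h.two h.s_cd,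
    show less (less S c b) c d = S0 S b c d from rfl,
    bd_one y1 fun w k q => (val w k).trans (t4 w (fun p => h.s0_com w (h.s0_a (p ▸ sx)) k) q),
    val y0 y1, t3, if_pos rfl, if_neg h.cd.ne, if_neg h.cb.ne,
    show g (oth D f s(c, b)) = g (oth D f s(c, d)) from congrArg c' e] at ev
  generalize g f + g (oth D f s(c, d)) = t at ev
  revert t
  decide

/-- the faces on the two edges at a corner of the collapsed face -/
theorem corner {D : Dual G} {S : SimpleGraph V} (IH : Bd V (mu G C)) (hH : Hyp D C) (hS : S ≤ G)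
    (hC : C ≤ S) (hCS : S ≠ C) (two : TwoConn S)
    (h0 : ∀ K, C = ⊥ → (sub D hS).star K ≠ S) {f : D.Fc} (hf : D.star f ≤ S) {a c x : V}
    (hac : a ≠ c) (ax : (D.star f).Adj a x) (cx : (D.star f).Adj c x) (hc : c ∉ C.support)
    (hcy : C = ⊥ ∨ IsCyc C) {F : Finset (Quot (Rl D S))} {k : ℕ} (hk : 3 ≤ k)
    (hF : ∀ K, K ∈ F ↔ K = oth (sub D hS) (cl D S f) s(a, x) ∨
      K = oth (sub D hS) (cl D S f) s(c, x))
    (hl : ∑ K ∈ F, (len (sub D hS) K : ℤ) = k + 2) :
    ∑ K ∈ F, ∑ g ∈ fib D S K, w (len D g) ≤ w k := by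
  classical
  obtain ⟨s1, s2⟩ := star_sub D hS hf
  have ax' : ((sub D hS).star (cl D S f)).Adj a x := s2 ▸ ax
  have cx' : ((sub D hS).star (cl D S f)).Adj c x := s2 ▸ cx
  have sid : ∀ {u : V}, ((sub D hS).star (cl D S f)).Adj u x →
      ((sub D hS).star (oth (sub D hS) (cl D S f) s(u, x))).Adj u x := by
    intro u k
    refine ⟨k.1, ?_⟩
    rcases Sym2.eq_iff.1 (oth_spec _ two k).2 with ⟨-, q⟩ | ⟨q, -⟩
    exacts [.inr q, .inl q]
  have m1 := mem_fs.2 ⟨a, x, sid ax'⟩
  have m2 := mem_fs.2 ⟨c, x, sid cx'⟩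
  have M := fun K hK => mon IH hH hS hC hCS two (K := K) hK (h0 K)
  generalize e1 : oth (sub D hS) (cl D S f) s(a, x) = g1 at *
  generalize e2 : oth (sub D hS) (cl D S f) s(c, x) = g2 at *
  by_cases e : g1 = g2
  · subst e
    have eF : F = {g1} := by
      ext K
      rw [hF, or_self, Finset.mem_singleton]
    rw [eF, Finset.sum_singleton] at hl ⊢
    have only : ∀ z, S.Adj x z → z = a ∨ z = c := by
      intro z hz
      by_contra n
      push Not at n
      refine deg_two (sub D hS) two ax'.1.symm cx'.1.symm hz n.1 n.2 hac ?_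
      rw [Sym2.eq_swap (a := x), Sym2.eq_swap (a := x), (oth_spec _ two ax').2,
        (oth_spec _ two cx').2, e1, e2]
    have xC : x ∉ C.support := by
      intro hx
      rcases hcy with rfl | hcy
      · exact hx.elim fun _ k => k
      · obtain ⟨p, q, hpq, hw⟩ := hcy.2.1 x hx
        have kp := (hw p).2 (.inl rfl)
        have kq := (hw q).2 (.inr rfl)
        rcases only p (hC kp) with rfl | rfl
        · rcases only q (hC kq) with rfl | rfl
          · exact hpq rfl
          · exact hc ⟨x, kq.symm⟩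
        · exact hc ⟨x, kp.symm⟩
    obtain ⟨z, z1, z2, z3⟩ := hH.crit.third_nb ⟨a, ax.1.symm⟩ xC a c
    have zS : ¬ S.Adj x z := fun q => (only z q).elim z2 z3
    have hK : cl D S (D.l s(x, z)) = g1 := by
      by_contra n
      have nf : cl D S (D.l s(x, z)) ≠ cl D S f := fun q => zS (hf ⟨z1, .inl (s1 _ q)⟩)
      refine (side D hS hH.two (K := cl D S (D.l s(x, z))) ?_ z1 ax.1.symm rfl).1 ax'.1.symm
      rintro ⟨y, hy⟩
      have : ∀ u, ((sub D hS).star (cl D S f)).Adj u x →
          oth (sub D hS) (cl D S f) s(u, x) = g1 →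
          ¬ ((sub D hS).star (cl D S (D.l s(x, z)))).Adj u x := by
        intro u p q r
        have := (oth_spec _ two p).2
        rw [q] at this
        rcases Sym2.eq_iff.1 this with ⟨i, j⟩ | ⟨i, j⟩ <;> rcases r.2 with r | r
        exacts [nf (r.symm.trans i), n (r.symm.trans j), n (r.symm.trans i), nf (r.symm.trans j)]
      rcases only y hy.1 with rfl | rfl
      · exact this _ ax' e1 hy.symm
      · exact this _ cx' e2 hy.symm
    have := (M _ m1).2 ⟨_, mk_ins.2 ⟨z1, zS, hK⟩⟩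
    rwa [show len (sub D hS) g1 = k + 2 by exact_mod_cast hl, W_amp hk] at this
  · have eF : F = {g1, g2} := by
      ext K
      rw [hF, Finset.mem_insert, Finset.mem_singleton]
    rw [eF, Finset.sum_pair e] at hl ⊢
    have := w_chord (three_le_len _ two m1) (three_le_len _ two m2) (k := k)
      (by exact_mod_cast hl)
    have := W_le hk
    have := (M _ m1).1
    have := (M _ m2).1
    omega

theorem four {D : Dual G} (IH : Bd V (mu G C)) (hH : Hyp D C) {ψ : V → Fin 3} (hψ : Prp C ψ)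
    (hP : PCrit G C ψ) {f : D.Fc} (h4 : len D f = 4) {a b c d : V}
    (face : ∀ u v, (D.star f).Adj u v ↔
      s(u, v) = s(a, b) ∨ s(u, v) = s(c, b) ∨ s(u, v) = s(a, d) ∨ s(u, v) = s(c, d))
    (hac : a ≠ c) (hbd : b ≠ d) (hn : ¬ G.Adj a c) (hc : c ∉ C.support)
    (hcol : C ≠ ⊥ → ∃ φ, Prp G φ ∧ φ a = φ c) : tot D ≤ B (ne C) := by
  classical
  have ab := (face a b).2 (.inl rfl)
  have cb := (face c b).2 (.inr (.inl rfl))
  have ad := (face a d).2 (.inr (.inr (.inl rfl)))
  have cd := (face c d).2 (.inr (.inr (.inr rfl)))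
  have Cc : ∀ u v, C.Adj u v → u ≠ c := fun u v k e => hc ⟨v, e ▸ k⟩
  have C1 : C ≤ push G (mv c a) := fun u v k =>
    (push_mv hac hn).2 (.inl ⟨Cc u v k, Cc v u k.symm, hH.le k⟩)
  have π3 : ∀ u v, G.Adj u v → mv c a u ≠ mv c a v := by
    intro u v k
    by_cases hu : u = c
    · subst hu
      rw [mv_self, mv_ne k.ne']
      exact fun e => hn (e ▸ k.symm)
    · by_cases hv : v = c
      · subst hv
        rw [mv_self, mv_ne hu]
        exact fun e => hn (e ▸ k)
      · rw [mv_ne hu, mv_ne hv]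
        exact k.ne
  obtain ⟨H, CH, HG, hHP⟩ := exists_pcrit (ψ := ψ) C1 fun ⟨χ, p, q⟩ =>
    hP.1 ⟨_, p.pull π3, fun v ⟨y, k⟩ => by
      rw [mv_ne (Cc v y k), q v ⟨y, k⟩]⟩
  have HC : H ≠ C := fun e => hHP.1 ⟨ψ, e ▸ hψ, fun _ _ => rfl⟩
  have CL : C ≤ lift G H a c := fun u v k => lift_of hac hn HG (CH k) (hH.le k)
  have altH : C = ⊥ ∨ (Col H ∧ IsCyc C) := by
    rcases hH.alt with e | k
    · exact .inl e
    · obtain ⟨φ, p, q⟩ := hcol k.2.1.1
      refine .inr ⟨⟨φ, fun u v r => ?_⟩, k.2.1⟩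
      rcases (push_mv hac hn).1 (HG r) with r | ⟨rfl, r⟩ | ⟨rfl, r⟩
      · exact p u v r.2.2
      · exact q ▸ p c v r
      · exact q ▸ p u c r
  have twoH := (hHP.crit CH).twoConn CH HC altH
  obtain ⟨y0, hy, gy⟩ : ∃ y, H.Adj a y ∧ ¬ G.Adj a y := by
    by_contra k
    push Not at k
    refine hHP.1 (hP.2 H CH (fun u v r => ?_) fun e => ?_)
    · by_cases hu : u = a
      · exact hu ▸ k v (hu ▸ r)
      · by_cases hv : v = a
        · exact hv ▸ (k u (hv ▸ r.symm)).symm
        · exact G_of hac hn HG r hu hv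
    · exact H_ne hac hn HG (show H.Adj c b from e ▸ cb.1) rfl
  obtain ⟨x0, hx, gx⟩ : ∃ x, H.Adj a x ∧ G.Adj a x := by
    by_contra k
    push Not at k
    obtain ⟨χ, p, q⟩ := hP.2 (lift G H a c) CL (fun _ _ r => r.1) fun e => by
      have : (lift G H a c).Adj c b := e.symm ▸ cb.1
      exact this.2.2.1 ⟨rfl, ab.1⟩
    refine hHP.1 ⟨fun v => χ (mv a c v), fun u v r => ?_, fun v ⟨y, r⟩ => ?_⟩
    · beta_reduce
      by_cases hu : u = a
      · subst hu
        rw [mv_self, mv_ne r.ne']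
        exact p _ _ (lift_c hac hn HG r (k v r))
      · by_cases hv : v = a
        · subst hv
          rw [mv_self, mv_ne hu]
          exact p _ _ (lift_c hac hn HG r.symm (k u r.symm)).symm
        · rw [mv_ne hu, mv_ne hv]
          exact p _ _ (lift_of hac hn HG r (G_of hac hn HG r hu hv))
    · beta_reduce
      rw [mv_ne fun (e : v = a) => k y (e ▸ CH r) (e ▸ hH.le r), q v ⟨y, r⟩]
  obtain ⟨S, hSd⟩ : ∃ S, S = lift G H a c ⊔ D.star f := ⟨_, rfl⟩
  have hL : lift G H a c ≤ S := hSd ▸ le_sup_left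
  have hf : D.star f ≤ S := hSd ▸ le_sup_right
  have cs : ∀ u v, S.Adj u v → (lift G H a c).Adj u v ∨ (D.star f).Adj u v :=
    fun u v k => by rwa [hSd] at k
  have hS : S ≤ G := fun u v k => (cs u v k).elim (fun q => q.1) fun q => q.1
  have two : TwoConn S := by
    refine two_lift hac hn HG twoH hL (fun u ⟨v, k⟩ => ?_) (hf ab) (hf cb) (hf ad) (hf cd) hbd
      hx gx hy gy
    rcases cs u v k with q | q
    · by_cases e : u = c
      · exact .inr (.inr (.inl e))
      · exact .inl ⟨_, mv_ne e ▸ q.2.1⟩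
    · rcases (face u v).1 q with e | e | e | e <;>
        rcases Sym2.eq_iff.1 e with ⟨rfl, -⟩ | ⟨rfl, -⟩ <;>
        first
          | exact .inl ⟨x0, hx⟩
          | simp
  obtain ⟨s1, s2⟩ := star_sub D hS hf
  have fc : ∀ y, (D.star f).Adj c y → y = b ∨ y = d := by
    intro y k
    rcases (face c y).1 k with e | e | e | e
    · rcases Sym2.eq_iff.1 e with ⟨p, -⟩ | ⟨p, -⟩
      exacts [(hac p.symm).elim, (cb.ne p).elim]
    · exact .inl (Sym2.congr_right.1 e)
    · rcases Sym2.eq_iff.1 e with ⟨p, -⟩ | ⟨p, -⟩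
      exacts [(hac p.symm).elim, (cd.ne p).elim]
    · exact .inr (Sym2.congr_right.1 e)
  have sq : Sq (sub D hS) (cl D S f) a b c d :=
    ⟨two, hf ab, hf cb, hf ad, hf cd, hac, hbd, fun k => hn (hS k), fun x p q =>
      (cs c x q).elim (fun r => (r.2.2.1 ⟨rfl, hS p⟩).elim) (fc x), s2 ▸ face⟩
  have HS : H ≤ push S (mv c a) := fun u v k => by
    obtain ⟨x, y, l, p, q⟩ := lifts hac hn HG k
    refine ⟨k.ne, x, y, hL l, ?_, ?_⟩
    · rcases p with rfl | ⟨rfl, rfl⟩
      exacts [mv_ne (H_ne hac hn HG k), mv_self _ _]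
    · rcases q with rfl | ⟨rfl, rfl⟩
      exacts [mv_ne (H_ne hac hn HG k.symm), mv_self _ _]
  have extra : ∀ u v, (push S (mv c a)).Adj u v → ¬ H.Adj u v →
      s(u, v) = s(a, b) ∨ s(u, v) = s(a, d) := by
    rintro _ _ ⟨-, x, y, k, rfl, rfl⟩ n
    rcases cs x y k with q | q
    · exact (n q.2.1).elim
    · rw [← Sym2.map_mk]
      rcases (face x y).1 q with e | e | e | e <;> rw [e, Sym2.map_mk]
      · rw [mv_ne hac, mv_ne cb.ne']; exact .inl rfl
      · rw [mv_self, mv_ne cb.ne']; exact .inl rfl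
      · rw [mv_ne hac, mv_ne cd.ne']; exact .inr rfl
      · rw [mv_self, mv_ne cd.ne']; exact .inr rfl
  have ap := apart sq HS twoH hx (hL (lift_of hac hn HG hx gx)) hy (fun k => gy (hS k))
    fun y k => by
      rcases cs c y k.1.1 with q | q
      · have := q.2.1
        rwa [mv_self, mv_ne q.ne'] at this
      · rcases fc y q with rfl | rfl
        exacts [(k.1.2 rfl).elim, (k.2 rfl).elim]
  have cy0 : S.Adj c y0 := hL (lift_c hac hn HG hy gy)
  have Sb : S ≠ ⊥ := SimpleGraph.ne_bot_iff_exists_adj.2 ⟨a, b, hf ab⟩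
  have hCS : S ≠ C := fun e => hc ⟨b, e ▸ hf cb⟩
  have h0 : ∀ K, C = ⊥ → (sub D hS).star K ≠ S := by
    intro K _ e
    have cy : IsCyc S := e ▸ (sub D hS).star_isCyc two K (by rw [e]; exact Sb)
    obtain ⟨p, q, -, hw⟩ := cy.2.1 c ⟨b, hf cb⟩
    have n1 : y0 ≠ b := fun e => gy (e ▸ ab.1)
    have n2 : y0 ≠ d := fun e => gy (e ▸ ad.1)
    have i1 := (hw b).1 (hf cb)
    have i2 := (hw d).1 (hf cd)
    have i3 := (hw y0).1 cy0
    (clear * - hbd i1 i2 i3 n1 n2; grind)
  have Lab : clL (sub D hS) (cl D S f) a b c d s(a, b) = oth (sub D hS) (cl D S f) s(a, b) :=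
    if_pos rfl
  have Rab : clR (sub D hS) (cl D S f) a b c d s(a, b) = oth (sub D hS) (cl D S f) s(c, b) :=
    if_pos rfl
  have Lad : clL (sub D hS) (cl D S f) a b c d s(a, d) = oth (sub D hS) (cl D S f) s(a, d) := by
    rw [clL, if_neg sq.ne1.symm, if_pos rfl]
  have Rad : clR (sub D hS) (cl D S f) a b c d s(a, d) = oth (sub D hS) (cl D S f) s(c, d) := by
    rw [clR, if_neg sq.ne1.symm, if_pos rfl]
  have pab : (push S (mv c a)).Adj a b := (push_mv hac sq.nac).2 (.inr (.inl ⟨rfl, hf cb⟩))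
  have pad : (push S (mv c a)).Adj a d := (push_mv hac sq.nac).2 (.inr (.inl ⟨rfl, hf cd⟩))
  have one : ∀ K', ins (clp sq) H K' = ∅ ∨ ins (clp sq) H K' = {s(a, b)} ∨
      ins (clp sq) H K' = {s(a, d)} := by
    intro K'
    have sb : ∀ e ∈ ins (clp sq) H K', e = s(a, b) ∨ e = s(a, d) := fun e he => by
      induction e using Sym2.ind with
      | _ u v => exact extra u v (mk_ins.1 he).1 (mk_ins.1 he).2.1
    by_cases i1 : s(a, b) ∈ ins (clp sq) H K'
    · refine .inr (.inl (Finset.eq_singleton_iff_unique_mem.2 ⟨i1, fun e he => ?_⟩))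
      refine (sb e he).resolve_right fun q => ap ?_
      rw [q] at he
      have j1 := mk_ins.1 i1
      have j2 := mk_ins.1 he
      rw [← Rab, ← Rad]
      exact ((cl_lr (clp sq) j1.1 j1.2.1).symm.trans j1.2.2).trans
        ((cl_lr (clp sq) j2.1 j2.2.1).symm.trans j2.2.2).symm
    · by_cases i2 : s(a, d) ∈ ins (clp sq) H K'
      · exact .inr (.inr (Finset.eq_singleton_iff_unique_mem.2 ⟨i2, fun e he =>
          (sb e he).resolve_left fun q => i1 (q ▸ he)⟩))
      · exact .inl (Finset.eq_empty_of_forall_notMem fun e he =>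
          (sb e he).elim (fun q => i1 (q ▸ he)) fun q => i2 (q ▸ he))
  have sl : ∀ K', ∑ K ∈ fib (clp sq) H K', (len (sub D hS) K : ℤ) =
      len (sub (clp sq) HS) K' + 2 * (ins (clp sq) H K').card := fun K' => by
    rw [← sum_fib]
    exact Finset.sum_congr rfl fun K hK => by
      rw [clp_len sq ((clp_fs sq).1 (mem_fib.1 hK).1).1]
  have maps : ∀ K ∈ fs (clp sq), cl (clp sq) H K ∈ fs (sub (clp sq) HS) := by
    intro K hK
    rw [← len_ne]
    intro e
    have h1 := sl (cl (clp sq) H K)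
    rw [e] at h1
    have h2 := Finset.single_le_sum (f := fun K => (len (sub D hS) K : ℤ))
      (fun _ _ => Int.natCast_nonneg _) (mem_fib.2 ⟨hK, rfl⟩ : K ∈ fib (clp sq) H _)
    have h3 := three_le_len _ two ((clp_fs sq).1 hK).2
    have h4 : (ins (clp sq) H (cl (clp sq) H K)).card ≤ 1 := by
      rcases one (cl (clp sq) H K) with q | q | q <;> rw [q] <;> simp
    have h5 := h2.trans_eq h1
    omega
  have M := fun K hK => mon IH hH hS (CL.trans hL) hCS two (K := K) hK (h0 K)
  have cor : ∀ x, (D.star f).Adj a x → (D.star f).Adj c x →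
      clL (sub D hS) (cl D S f) a b c d s(a, x) = oth (sub D hS) (cl D S f) s(a, x) →
      clR (sub D hS) (cl D S f) a b c d s(a, x) = oth (sub D hS) (cl D S f) s(c, x) →
      ∀ K' ∈ fs (sub (clp sq) HS), ins (clp sq) H K' = {s(a, x)} →
      ∑ K ∈ fib (clp sq) H K', ∑ g ∈ fib D S K, w (len D g) ≤ w (len (sub (clp sq) HS) K') := by
    intro x ax cx l r K' hK' e
    have j := mk_ins.1 (e ▸ Finset.mem_singleton_self _ : s(a, x) ∈ ins (clp sq) H K')
    refine corner IH hH hS (CL.trans hL) hCS two h0 hf hac ax cx hc (altH.imp id And.right)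
      (three_le_len _ twoH hK') (fun K => ?_) (by rw [sl, e]; simp)
    rw [← l, ← r, mem_fib]
    constructor
    · intro k
      exact fib_two (clp sq) j.1 j.2.1 (fun u v p q i => Finset.mem_singleton.1
        (e ▸ mk_ins.2 ⟨p, q, i.trans j.2.2⟩)) (k.2.trans j.2.2.symm)
    · rintro (rfl | rfl)
      · exact ⟨l_fs (clp sq) (mk_eF.2 j.1), j.2.2⟩
      · exact ⟨r_fs (clp sq) (mk_eF.2 j.1), (cl_lr (clp sq) j.1 j.2.1).symm.trans j.2.2⟩
  have hyH : Hyp (sub (clp sq) HS) C := by
    refine ⟨CH, HC, hHP.crit CH, ?_⟩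
    rcases hH.alt with e | ⟨-, cy, f0, e0⟩
    · exact .inl e
    refine .inr ⟨(altH.resolve_left cy.1).1, cy, cl (clp sq) H (cl D S f0), ?_⟩
    have le : C ≤ (sub (clp sq) HS).star (cl (clp sq) H (cl D S f0)) := by
      intro u v k
      refine ⟨CH k, ?_⟩
      have n0 : cl D S f0 ≠ cl D S f := fun e => hc ⟨b, e0 ▸ s1 _ e ▸ cb⟩
      have k0 : (S0 S b c d).Adj u v := by
        have n : ∀ y, s(u, v) ≠ s(c, y) := fun y e => by
          rcases Sym2.eq_iff.1 e with ⟨e, -⟩ | ⟨-, e⟩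
          exacts [Cc u v k e, Cc v u k.symm e]
        exact ⟨⟨hL (CL k), n b⟩, n d⟩
      have s := sq.sides (M := ℤ) (fun x => if x = cl D S f0 then 1 else 0) k0
      rw [mv_ne (Cc u v k), mv_ne (Cc v u k.symm), if_neg n0.symm] at s
      have k1 : (D.star f0).Adj u v := e0 ▸ k
      by_contra n
      push Not at n
      rw [if_neg fun q => n.1 (congrArg (cl (clp sq) H) q),
        if_neg fun q => n.2 (congrArg (cl (clp sq) H) q)] at s
      rcases k1.2 with q | q
      · rw [if_pos (congrArg (cl D S) q)] at s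
        split_ifs at s <;> omega
      · rw [if_pos (c := (sub D hS).r s(u, v) = cl D S f0) (congrArg (cl D S) q)] at s
        split_ifs at s <;> omega
    exact (cyc_eq cy ((sub (clp sq) HS).star_isCyc twoH _
      fun e => cy.1 (le_bot_iff.1 (e ▸ le))) le).symm
  have lt : mu H C < mu G C := by
    refine lt_of_le_of_lt ((Set.ncard_le_ncard (t := Sym2.map (mv c a) ''
      ((G.edgeSet \ C.edgeSet) \ {s(c, b)})) (fun e he => ?_) (Set.toFinite _)).trans
        (Set.ncard_image_le (Set.toFinite _)))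
      (Set.ncard_sdiff_singleton_lt_of_mem
        (show s(c, b) ∈ G.edgeSet \ C.edgeSet from ⟨cb.1, fun k => hc ⟨b, k⟩⟩) (Set.toFinite _))
    induction e using Sym2.ind with
    | _ u v =>
      obtain ⟨x, y, k, rfl, rfl, -⟩ := sq.down_up (HS he.1)
      refine ⟨s(x, y), ⟨⟨hS k.1.1, fun q => he.2 ?_⟩, k.1.2⟩, rfl⟩
      rwa [mv_ne (Cc x y q), mv_ne (Cc y x (C.adj_symm q))]
  have b1 := IH _ _ _ lt hyH
  have f1 : cl D S f ∈ fs (sub D hS) := mem_fs.2 ⟨a, b, sq.s_ab⟩
  have f2 := (M _ f1).1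
  rw [len_eq _ two, s2, ← len_eq _ hH.two, h4] at f2
  have f3 : (fs (sub D hS)).erase (cl D S f) = fs (clp sq) := by
    ext K
    rw [Finset.mem_erase, clp_fs sq]
  unfold tot at b1 ⊢
  rw [sum_fs D hS hH.two (Sb), ← Finset.add_sum_erase _ _ f1, f3,
    ← Finset.sum_fiberwise_of_maps_to maps]
  refine le_trans (add_le_add f2 (Finset.sum_le_sum fun K' hK' => ?_)) (by rwa [w, if_pos rfl, zero_add])
  change ∑ K ∈ fib (clp sq) H K', ∑ g ∈ fib D S K, w (len D g) ≤ _
  rcases one K' with q | q | q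
  · obtain ⟨K, k1, k2⟩ := fib_triv (clp sq) HS hK' q
    have k3 := (clp_fs sq).1 (mem_fib.1 (k1 ▸ Finset.mem_singleton_self K)).1
    rw [k1, Finset.sum_singleton, ← k2, clp_len sq k3.1]
    exact (M K k3.2).1
  · exact cor b ab cb Lab Rab K' hK' q
  · exact cor d ad cd Lad Rad K' hK' q

end Pool.Agent.KZ
end

-- merged part: Pool.Agent.Work.MP_5bd7f1_co.KZ.Pot
section
/-! The potential `5 n - 3 e` and the contraction of a coloured set to a triangle. -/

set_option autoImplicit false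
open Relation Pool.Agent.Pl

namespace Pool.Agent.KZ

variable {V : Type} [Fintype V]

noncomputable def rho (G : SimpleGraph V) (W : Set V) : ℤ := 5 * (W.ncard : ℤ) - 3 * ne (on G W)

theorem ne_on_le (G : SimpleGraph V) (W : Set V) : ne (on G W) ≤ W.ncard.choose 2 := by
  classical
  rw [Set.ncard_eq_toFinset_card' W, ← Sym2.card_image_offDiag, ← Set.ncard_coe_finset]
  refine Set.ncard_le_ncard (fun e he => ?_) (Set.toFinite _)
  induction e using Sym2.ind with
  | _ a b =>
    have h : (on G W).Adj a b := he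
    simp only [Finset.coe_image, Set.mem_image, Finset.mem_coe, Finset.mem_offDiag,
      Set.mem_toFinset]
    exact ⟨(a, b), ⟨h.2.1, h.2.2, h.1.ne⟩, rfl⟩

theorem rho_small (G : SimpleGraph V) {W : Set V} (h1 : 1 ≤ W.ncard) (h3 : W.ncard ≤ 3) :
    5 ≤ rho G W ∧ (2 ≤ W.ncard → 6 ≤ rho G W) := by
  have := ne_on_le G W
  unfold rho
  generalize W.ncard = k at *
  interval_cases k <;> simp [Nat.choose] at this ⊢ <;> omega

theorem rho_mono {G H : SimpleGraph V} (h : H ≤ G) (W : Set V) : rho G W ≤ rho H W := by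
  have := ne_mono (on_mono h (subset_refl W))
  unfold rho
  omega

/-- the statement of the potential theorem for one graph -/
def KYs (Y : SimpleGraph V) : Prop :=
  ¬ Col Y → ∃ W, W ⊆ Y.support ∧ ¬ Col (on Y W) ∧ rho Y W ≤ 2

omit [Fintype V] in
theorem exists_three {R : Set V} (h : 3 ≤ R.ncard) :
    ∃ x : Fin 3 → V, Function.Injective x ∧ ∀ i, x i ∈ R := by
  obtain ⟨T, h1, h2⟩ := Set.exists_subset_card_eq h
  obtain ⟨a, b, c, p, q, r, rfl⟩ := Set.ncard_eq_three.1 h2
  refine ⟨![a, b, c], fun i j e => ?_, fun i => ?_⟩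
  · fin_cases i <;> fin_cases j <;> simp_all
  · fin_cases i <;> exact h1 (by simp)

theorem Ylem {G : SimpleGraph V} {R : Set V} {φ : V → Fin 3} (hφ : Prp (on G R) φ)
    (h3 : 3 ≤ R.ncard) (hR : R ⊆ G.support) (hn : ¬ ∃ χ, Prp G χ ∧ ∀ v ∈ R, χ v = φ v)
    (hc : Col (on G Rᶜ))
    (KY : ∀ Y : SimpleGraph V, nv Y + R.ncard ≤ nv G + 3 → KYs Y) :
    ∃ A, A ⊆ G.support \ R ∧ (¬ ∃ χ, Prp (on G (A ∪ R)) χ ∧ ∀ v ∈ R, χ v = φ v) ∧
      rho G (A ∪ R) ≤ rho G R - 3 ∧ (rho G (A ∪ R) ≤ rho G R - 4 ∨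
        ∃ i, ∀ u ∈ R, ∀ v ∈ A, G.Adj u v → φ u ≠ i → rho G (A ∪ R) ≤ rho G R - 6) := by
  classical
  obtain ⟨x, xi, xR⟩ := exists_three h3
  let π : V → V := fun v => if v ∈ R then x (φ v) else v
  have π1 : ∀ v ∈ R, π v = x (φ v) := fun v hv => if_pos hv
  have π2 : ∀ v, v ∉ R → π v = v := fun v hv => if_neg hv
  have π3 : ∀ a b, G.Adj a b → π a ≠ π b := by
    intro a b h
    by_cases ha : a ∈ R <;> by_cases hb : b ∈ R
    · rw [π1 a ha, π1 b hb]
      exact fun e => hφ a b ⟨h, ha, hb⟩ (xi e)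
    · rw [π1 a ha, π2 b hb]
      exact fun e => hb (e ▸ xR _)
    · rw [π2 a ha, π1 b hb]
      exact fun e => ha (e ▸ xR _)
    · rw [π2 a ha, π2 b hb]
      exact h.ne
  let X : Set V := Set.range x
  have XR : X ⊆ R := by rintro _ ⟨i, rfl⟩; exact xR i
  have X3 : X.ncard = 3 := by
    show (Set.range x).ncard = 3
    rw [← Set.image_univ, Set.ncard_image_of_injective _ xi]
    simp
  let Y : SimpleGraph V := push G π ⊔ on ⊤ X
  have Ys : ∀ v ∈ Y.support, v ∈ G.support \ R ∨ v ∈ X := by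
    rintro v ⟨w, ⟨-, a, b, k, rfl, -⟩ | k⟩
    · by_cases ha : a ∈ R
      · exact .inr ⟨_, (π1 a ha).symm⟩
      · rw [π2 a ha]
        exact .inl ⟨⟨b, k⟩, ha⟩
    · exact .inr k.2.1
  have hnv : nv Y + R.ncard ≤ nv G + 3 := by
    have h1 := Set.ncard_le_ncard (s := Y.support) (t := (G.support \ R) ∪ X) Ys (Set.toFinite _)
    have h2 := Set.ncard_union_le (G.support \ R) X
    have h4 := Set.ncard_sdiff_add_ncard_of_subset hR (Set.toFinite _)
    unfold nv
    omega
  have hY : ¬ Col Y := by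
    rintro ⟨χ, hχ⟩
    have inj : Function.Injective fun i => χ (x i) := fun i j e => by
      by_contra hij
      exact hχ (x i) (x j) (.inr ⟨fun k => hij (xi k), ⟨i, rfl⟩, ⟨j, rfl⟩⟩) e
    have bij := Finite.injective_iff_bijective.1 inj
    let σ := Equiv.ofBijective _ bij
    refine hn ⟨fun v => σ.symm (χ (π v)), fun a b k e => ?_, fun v hv => ?_⟩
    · exact (hχ.mono le_sup_left).pull π3 a b k (σ.symm.injective e)
    · beta_reduce
      rw [π1 v hv]
      exact σ.symm_apply_apply (φ v)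
  obtain ⟨W, W1, W2, W3⟩ := KY Y hnv hY
  have WX : ∀ v ∈ W, v ∈ R → v ∈ X := fun v hv hr => (Ys v (W1 hv)).resolve_left fun k => k.2 hr
  have pre : ∀ a, π a ∈ W → a ∈ (W \ R) ∪ R := by
    intro a ha
    by_cases hr : a ∈ R
    · exact .inr hr
    · exact .inl ⟨π2 a hr ▸ ha, hr⟩
  let E' : Set (Sym2 V) := {e | e ∈ (on G ((W \ R) ∪ R)).edgeSet ∧ e ∉ (on G R).edgeSet ∧
    e.map π ∈ (on Y W).edgeSet}
  have c1 : ne (on Y W) ≤ ne (on Y (W ∩ X)) + E'.ncard := by
    refine le_trans (Set.ncard_le_ncard (t := (on Y (W ∩ X)).edgeSet ∪ Sym2.map π '' E')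
      (fun e he => ?_) (Set.toFinite _)) ((Set.ncard_union_le _ _).trans
        (Nat.add_le_add_left (Set.ncard_image_le (Set.toFinite _)) _))
    induction e using Sym2.ind with
    | _ u v =>
      have h : (on Y W).Adj u v := he
      by_cases hx : u ∈ X ∧ v ∈ X
      · exact .inl ⟨h.1, ⟨h.2.1, hx.1⟩, h.2.2, hx.2⟩
      · obtain ⟨⟨-, a, b, k, rfl, rfl⟩ | k, hu, hv⟩ := h
        · refine .inr ⟨s(a, b), ⟨⟨k, pre a hu, pre b hv⟩, fun q => hx ?_, he⟩, rfl⟩
          have q' : (on G R).Adj a b := q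
          exact ⟨⟨_, (π1 a q'.2.1).symm⟩, _, (π1 b q'.2.2).symm⟩
        · exact (hx k.2).elim
  have c2 : ∀ F : Set (Sym2 V), F ⊆ (on G ((W \ R) ∪ R)).edgeSet → Disjoint F (on G R).edgeSet →
      F.ncard + ne (on G R) ≤ ne (on G ((W \ R) ∪ R)) := by
    intro F f1 f2
    unfold ne
    rw [← Set.ncard_union_eq f2]
    exact Set.ncard_le_ncard (Set.union_subset f1
      (SimpleGraph.edgeSet_mono (on_mono le_rfl Set.subset_union_right))) (Set.toFinite _)
  have c3 := c2 E' (fun _ h => h.1) (Set.disjoint_left.2 fun _ h => h.2.1)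
  have c4 : W.ncard = (W \ R).ncard + (W ∩ X).ncard := by
    rw [← Set.ncard_union_eq (Set.disjoint_left.2 fun _ h k => h.2 (XR k.2))]
    congr 1
    ext v
    constructor
    · intro hv
      by_cases hr : v ∈ R
      · exact .inr ⟨hv, WX v hv hr⟩
      · exact .inl ⟨hv, hr⟩
    · exact fun h => h.elim And.left And.left
  have c5 : ((W \ R) ∪ R).ncard = (W \ R).ncard + R.ncard :=
    Set.ncard_union_eq Set.disjoint_sdiff_left
  have c6 : (W ∩ X).ncard ≤ 3 :=
    X3 ▸ Set.ncard_le_ncard Set.inter_subset_right (Set.toFinite _)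
  have c7 : 1 ≤ (W ∩ X).ncard := by
    by_contra h0
    have e : W ∩ X = ∅ := (Set.ncard_eq_zero (Set.toFinite _)).1 (by omega)
    have hW : ∀ v ∈ W, v ∉ R := fun v hv hr => by
      have : v ∈ W ∩ X := ⟨hv, WX v hv hr⟩
      rw [e] at this
      exact this
    refine W2 (hc.mono fun u v h => ?_)
    obtain ⟨⟨-, a, b, k, rfl, rfl⟩ | k, hu, hv⟩ := h
    · have ha : a ∉ R := fun q => hW _ hu (π1 a q ▸ xR _)
      have hb : b ∉ R := fun q => hW _ hv (π1 b q ▸ xR _)
      rw [π2 a ha, π2 b hb]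
      exact ⟨k, ha, hb⟩
    · exact (hW u hu (XR k.2.1)).elim
  obtain ⟨c8, c9⟩ := rho_small Y c7 c6
  refine ⟨W \ R, fun v hv => (Ys v (W1 hv.1)).resolve_right fun k => hv.2 (XR k), ?_, ?_, ?_⟩
  · rintro ⟨χ, p, q⟩
    let χ' : V → Fin 3 := fun v => if h : ∃ i, x i = v then h.choose else χ v
    have χ1 : ∀ i, χ' (x i) = i := fun i => by
      have h : ∃ j, x j = x i := ⟨i, rfl⟩
      simp only [χ', dif_pos h]
      exact xi h.choose_spec
    have χ2 : ∀ a, χ' (π a) = χ a := by
      intro a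
      by_cases ha : a ∈ R
      · rw [π1 a ha, χ1, q a ha]
      · rw [π2 a ha]
        exact dif_neg fun k => ha (XR k)
    refine W2 ⟨χ', fun u v h => ?_⟩
    obtain ⟨⟨-, a, b, k, rfl, rfl⟩ | k, hu, hv⟩ := h
    · rw [χ2, χ2]
      exact p a b ⟨k, pre a hu, pre b hv⟩
    · obtain ⟨k, ⟨i, rfl⟩, j, rfl⟩ := k
      rw [χ1, χ1]
      exact fun e => k (e ▸ rfl)
  · unfold rho at *
    omega
  · by_cases h2 : 2 ≤ (W ∩ X).ncard
    · left
      have := c9 h2
      unfold rho at *
      omega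
    · right
      obtain ⟨y, hy⟩ := Set.ncard_eq_one.1 (show (W ∩ X).ncard = 1 by omega)
      have hy' : y ∈ W ∩ X := hy ▸ rfl
      obtain ⟨-, i, rfl⟩ := hy'
      refine ⟨i, fun u hu v hv huv hi => ?_⟩
      have n1 : s(u, v) ∉ E' := fun k => by
        have k' : (on Y W).Adj (π u) (π v) := k.2.2
        have : π u ∈ W ∩ X := ⟨k'.2.1, _, (π1 u hu).symm⟩
        rw [hy, π1 u hu] at this
        exact hi (xi this)
      have c10 := c2 (insert s(u, v) E')
        (Set.insert_subset (show (on G ((W \ R) ∪ R)).Adj u v from ⟨huv, .inr hu, .inl hv⟩)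
          fun _ h => h.1)
        (Set.disjoint_left.2 fun e h => by
          rcases h with rfl | h
          · exact fun (k : (on G R).Adj u v) => hv.2 k.2.2
          · exact h.2.1)
      rw [Set.ncard_insert_of_notMem n1] at c10
      unfold rho at *
      omega

end Pool.Agent.KZ
end

-- merged part: Pool.Agent.Work.MP_5bd7f1_co.KZ.KY
section
/-! The Kostochka-Yancey bound for 4-critical graphs. -/

set_option autoImplicit false
open Relation Pool.Agent.Pl

namespace Pool.Agent.KZ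

variable {V : Type} [Fintype V]

theorem rho_insert {G : SimpleGraph V} {W N : Set V} {x : V} (hx : x ∉ W) (hN : N ⊆ W)
    (ha : ∀ y ∈ N, G.Adj x y) : rho G (insert x W) ≤ rho G W + 5 - 3 * N.ncard := by
  have h1 : ((fun y => s(x, y)) '' N).ncard = N.ncard :=
    Set.ncard_image_of_injective _ fun a b e => Sym2.congr_right.1 e
  have h2 : ((fun y => s(x, y)) '' N).ncard + ne (on G W) ≤ ne (on G (insert x W)) := by
    unfold ne
    rw [← Set.ncard_union_eq]
    · refine Set.ncard_le_ncard (Set.union_subset ?_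
        (SimpleGraph.edgeSet_mono (on_mono le_rfl (Set.subset_insert _ _)))) (Set.toFinite _)
      rintro _ ⟨y, hy, rfl⟩
      exact show (on G (insert x W)).Adj x y from ⟨ha y hy, .inl rfl, .inr (hN hy)⟩
    · rw [Set.disjoint_left]
      rintro _ ⟨y, -, rfl⟩ (k : (on G W).Adj x y)
      exact hx k.2.1
  unfold rho
  rw [Set.ncard_insert_of_notMem hx]
  push_cast
  omega

theorem rho_edge {G H : SimpleGraph V} (h : H ≤ G) (a b : V) (W : Set V) :
    rho G W ≤ rho (H ⊔ SimpleGraph.edge a b) W + 3 := by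
  have : ne (on (H ⊔ SimpleGraph.edge a b) W) ≤ ne (on G W) + 1 := by
    refine le_trans (Set.ncard_le_ncard (t := insert s(a, b) (on G W).edgeSet) (fun e he => ?_)
      (Set.toFinite _)) (Set.ncard_insert_le _ _)
    induction e using Sym2.ind with
    | _ u v =>
      obtain ⟨k | k, hu, hv⟩ : (on (H ⊔ SimpleGraph.edge a b) W).Adj u v := he
      · exact .inr ⟨h k, hu, hv⟩
      · exact .inl ((SimpleGraph.adj_edge ..).1 k).1.symm
  unfold rho
  omega

/-- at most three neighbours -/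
def D3 (G : SimpleGraph V) (v : V) : Prop :=
  ∀ a b c d, G.Adj v a → G.Adj v b → G.Adj v c → G.Adj v d → a ≠ b → a ≠ c → b ≠ c →
    d = a ∨ d = b ∨ d = c

section
variable {G : SimpleGraph V} (hG : Crit G ⊥) (hn : ¬ Col G)
  (IH : ∀ Y : SimpleGraph V, nv Y < nv G → KYs Y) (h3 : 3 ≤ rho G G.support)

omit [Fintype V] in
include hG in
theorem col_on {R : Set V} {v : V} (hv : v ∈ G.support) (hR : v ∉ R) : Col (on G R) := by
  obtain ⟨w, hw⟩ := hv
  refine hG.col_lt (on_le G R) fun e => ?_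
  have : (on G R).Adj v w := e.symm ▸ hw
  exact hR this.2.1

omit [Fintype V] in
theorem exists_out {R S : Set V} (h1 : R ⊆ S) (h2 : R ≠ S) : ∃ v ∈ S, v ∉ R := by
  by_contra hc
  push Not at hc
  exact h2 (Set.Subset.antisymm h1 hc)

include hG hn IH in
theorem Yuse {R : Set V} (h1 : R ⊆ G.support) (h4 : 4 ≤ R.ncard) {φ : V → Fin 3}
    (hφ : Prp (on G R) φ) :
    ∃ A, A ⊆ G.support \ R ∧ rho G (A ∪ R) ≤ rho G R - 3 ∧ (rho G (A ∪ R) ≤ rho G R - 4 ∨
        ∃ i, ∀ u ∈ R, ∀ v ∈ A, G.Adj u v → φ u ≠ i → rho G (A ∪ R) ≤ rho G R - 6) := by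
  obtain ⟨r, hr⟩ := Set.nonempty_of_ncard_ne_zero (s := R) (by omega)
  obtain ⟨A, p, -, q⟩ := Ylem hφ (by omega) h1 (fun ⟨χ, k, _⟩ => hn ⟨χ, k⟩)
    (col_on hG (h1 hr) fun k => k hr) fun Y hY => IH Y (by omega)
  exact ⟨A, p, q⟩

include hG hn IH h3 in
theorem claim2 {R : Set V} (h1 : R ⊆ G.support) (h2 : R ≠ G.support) (h4 : 2 ≤ R.ncard) :
    6 ≤ rho G R := by
  obtain ⟨R', ⟨p1, p2, p3⟩, hm⟩ := Set.exists_min_image
    {R : Set V | R ⊆ G.support ∧ R ≠ G.support ∧ 2 ≤ R.ncard} (rho G) (Set.toFinite _)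
    ⟨R, h1, h2, h4⟩
  refine le_trans ?_ (hm R ⟨h1, h2, h4⟩)
  by_contra hc
  have p4 : 4 ≤ R'.ncard := by
    by_contra k
    have := (rho_small G (W := R') (by omega) (by omega)).2 p3
    omega
  obtain ⟨v, v1, v2⟩ := exists_out p1 p2
  obtain ⟨φ, hφ⟩ := col_on hG v1 v2
  obtain ⟨A, a1, a2, -⟩ := Yuse hG hn IH p1 p4 hφ
  by_cases e : A ∪ R' = G.support
  · rw [e] at a2
    omega
  · have := hm (A ∪ R') ⟨Set.union_subset (fun _ k => (a1 k).1) p1, e,
      p3.trans (Set.ncard_le_ncard Set.subset_union_right (Set.toFinite _))⟩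
    omega

include hG hn IH h3 in
/-- a smaller graph that is a subgraph of `G` plus one edge -/
theorem col_plus {H : SimpleGraph V} (hH : H ≤ G) {a b v : V} (ha : a ∈ G.support)
    (hb : b ∈ G.support) (hv : v ∈ G.support) (h1 : v ∉ H.support) (hva : v ≠ a) (hvb : v ≠ b) :
    Col (H ⊔ SimpleGraph.edge a b) := by
  by_contra hc
  have hs : ∀ w ∈ (H ⊔ SimpleGraph.edge a b).support, w ∈ G.support ∧ w ≠ v := by
    rintro w ⟨y, k | k⟩
    · exact ⟨⟨y, hH k⟩, fun e => h1 ⟨y, e ▸ k⟩⟩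
    · rcases ((SimpleGraph.edge_adj ..).1 k).1 with ⟨rfl, -⟩ | ⟨rfl, -⟩
      · exact ⟨ha, hva.symm⟩
      · exact ⟨hb, hvb.symm⟩
  obtain ⟨W, w1, w2, w3⟩ := IH _ (Set.ncard_lt_ncard
    ⟨fun w k => (hs w k).1, fun k => (hs v (k hv)).2 rfl⟩ (Set.toFinite _)) hc
  have w4 : 2 ≤ W.ncard := by
    by_contra k
    exact w2 (col_of_small (by omega))
  have := claim2 hG hn IH h3 (R := W) (fun w k => (hs w (w1 k)).1)
    (fun e => (hs v (w1 (e ▸ hv))).2 rfl) w4
  have := rho_edge hH a b W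
  omega

include hG hn IH h3 in
theorem claim3 {R : Set V} (h1 : R ⊆ G.support) (h2 : R ≠ G.support) (h4 : 4 ≤ R.ncard) :
    7 ≤ rho G R := by
  by_contra hc
  obtain ⟨v, v1, v2⟩ := exists_out h1 h2
  have two : ∃ u1 ∈ R, ∃ u2 ∈ R, u1 ≠ u2 ∧ (∃ w, w ∉ R ∧ G.Adj u1 w) ∧ ∃ w, w ∉ R ∧ G.Adj u2 w := by
    by_contra k
    obtain ⟨x, hx⟩ : ∃ x, ∀ u ∈ R, ∀ w, w ∉ R → G.Adj u w → u = x := by
      by_cases e : ∃ x ∈ R, ∃ w, w ∉ R ∧ G.Adj x w
      · obtain ⟨x, x1, x2⟩ := e
        refine ⟨x, fun u hu w w1 w2 => ?_⟩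
        by_contra q
        exact k ⟨u, hu, x, x1, q, ⟨w, w1, w2⟩, x2⟩
      · exact ⟨v, fun u hu w w1 w2 => (e ⟨u, hu, w, w1, w2⟩).elim⟩
    obtain ⟨a, a1, a2⟩ := Set.exists_ne_of_one_lt_ncard (s := R) (by omega) x
    obtain ⟨χ, hχ⟩ := col_on hG v1 v2
    have inR : ∀ u ∈ R, u ≠ x → ∀ w, G.Adj u w → w ∈ R := fun u hu hux w k => by
      by_contra q
      exact hux (hx u hu w q k)
    refine hG.no_piece (Q := {u | u ∈ R ∧ u ≠ x}) (x := x) (a := a) (χ := χ) ⟨a1, a2⟩ (h1 a1)
      (fun u hu w k => ?_) (fun _ _ ⟨_, k⟩ => k)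
      fun u w k hu => hχ u w ⟨k, hu.1, inR u hu.1 hu.2 w k⟩
    by_cases e : w = x
    · exact .inr e
    · exact .inl ⟨inR u hu.1 hu.2 w k, e⟩
  obtain ⟨u1, r1, u2, r2, hu, ⟨w1, s1, t1⟩, w2, s2, t2⟩ := two
  obtain ⟨φ, hφ⟩ := col_plus hG hn IH h3 (on_le G R) (h1 r1) (h1 r2) v1
    (fun ⟨_, k⟩ => v2 k.2.1) (fun e => v2 (e ▸ r1)) (fun e => v2 (e ▸ r2))
  have hφu : φ u1 ≠ φ u2 := hφ _ _ (.inr (CycA_edge hu))
  obtain ⟨A, a1, a2, a3⟩ := Yuse hG hn IH h1 h4 (hφ.mono le_sup_left)
  have e : A ∪ R = G.support := by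
    by_contra e
    have := claim2 hG hn IH h3 (Set.union_subset (fun _ k => (a1 k).1) h1) e
      (le_trans (by omega) (Set.ncard_le_ncard Set.subset_union_right (Set.toFinite _)))
    omega
  have inA : ∀ w ∈ G.support, w ∉ R → w ∈ A := fun w p q => by
    rw [← e] at p
    exact p.resolve_right q
  rcases a3 with a3 | ⟨i, a3⟩
  · rw [e] at a3
    omega
  · by_cases q : φ u1 = i
    · have := a3 u2 r2 w2 (inA w2 ⟨u2, t2.symm⟩ s2) t2 fun k => hφu (q.trans k.symm)
      rw [e] at this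
      omega
    · have := a3 u1 r1 w1 (inA w1 ⟨u1, t1.symm⟩ s1) t1 q
      rw [e] at this
      omega

omit [Fintype V] in
include hn in
/-- colour two adjacent vertices last -/
theorem two_last {x y : V} (hxy : x ≠ y) {φ : V → Fin 3} (hφ : Prp (del G {x, y}) φ) {s t : Fin 3}
    (hst : s ≠ t) (h1 : ∀ w, G.Adj x w → w ≠ y → s ≠ φ w)
    (h2 : ∀ w, G.Adj y w → w ≠ x → t ≠ φ w) : False := by
  classical
  refine hn ⟨_, glue (G := G) {x, y} (φ := φ)
    (χ := fun u => if u = x then s else if u = y then t else φ u) ?_ ?_ ?_⟩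
  · exact fun u v k hu hv => hφ u v ⟨k, hu, hv⟩
  · rintro u v k (rfl | rfl)
    · simp only [if_true, if_neg k.ne']
      by_cases e : v = y
      · rw [if_pos e]; exact hst
      · rw [if_neg e]; exact h1 v k e
    · simp only [if_neg hxy.symm, if_true, if_neg k.ne']
      by_cases e : v = x
      · rw [if_pos e]; exact hst.symm
      · rw [if_neg e]; exact h2 v k e
  · intro u v _ _ hv
    simp only [Set.mem_insert_iff, Set.mem_singleton_iff, not_or] at hv
    simp only [if_neg hv.1, if_neg hv.2]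

theorem c5col : ∀ p q r : Fin 3, p ≠ q → ∃ s t : Fin 3, s ≠ t ∧ s ≠ p ∧ s ≠ r ∧ t ≠ q ∧ t ≠ r := by
  decide

include hG hn IH h3 in
theorem claim5 {x y z : V} (hxy : G.Adj x y) (hxz : G.Adj x z) (hyz : G.Adj y z) (dx : D3 G x)
    (dy : D3 G y) : False := by
  have nb : ∀ v, v ∉ (⊥ : SimpleGraph V).support := fun _ ⟨_, k⟩ => k
  obtain ⟨a, a1, a2, a3⟩ := hG.third_nb ⟨y, hxy⟩ (nb x) y z
  obtain ⟨b, b1, b2, b3⟩ := hG.third_nb ⟨x, hxy.symm⟩ (nb y) x z
  by_cases hab : a = b
  · subst hab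
    have r1 : rho G {z} ≤ 5 := by
      unfold rho
      rw [Set.ncard_singleton]
      omega
    have r2 := rho_insert (G := G) (W := {z}) (N := {z}) (x := y) hyz.ne le_rfl
      (by rintro _ rfl; exact hyz)
    have r3 := rho_insert (G := G) (W := {y, z}) (N := {y, z}) (x := x)
      (by rintro (e | e); exacts [hxy.ne e, hxz.ne e]) le_rfl
      (by rintro _ (rfl | rfl); exacts [hxy, hxz])
    have na : a ∉ ({x, y, z} : Set V) := by
      rintro (e | e | e)
      exacts [a1.ne' e, a2 e, a3 e]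
    have r4 := rho_insert (G := G) (W := {x, y, z}) (N := {x, y}) (x := a) na
      (by rintro _ (rfl | rfl) <;> simp) (by rintro _ (rfl | rfl); exacts [a1.symm, b1.symm])
    rw [Set.ncard_singleton] at r2
    rw [Set.ncard_pair hyz.ne] at r3
    rw [Set.ncard_pair hxy.ne] at r4
    have sub : ({a, x, y, z} : Set V) ⊆ G.support := by
      rintro _ (rfl | rfl | rfl | rfl)
      exacts [⟨x, a1.symm⟩, ⟨y, hxy⟩, ⟨z, hyz⟩, ⟨x, hxz.symm⟩]
    by_cases e : ({a, x, y, z} : Set V) = G.support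
    · obtain ⟨w, w1, w2, w3⟩ := hG.third_nb ⟨x, hxz.symm⟩ (nb z) x y
      have hw : w ∈ ({a, x, y, z} : Set V) := e ▸ ⟨z, w1.symm⟩
      have hwa : w = a := by
        rcases hw with k | k | k | k
        exacts [k, (w2 k).elim, (w3 k).elim, (w1.ne' k).elim]
      subst hwa
      have r5 := rho_insert (G := G) (W := {x, y, z}) (N := {x, y, z}) (x := w) na le_rfl
        (by rintro _ (rfl | rfl | rfl); exacts [a1.symm, b1.symm, w1.symm])
      rw [Set.ncard_eq_three.2 ⟨x, y, z, hxy.ne, hxz.ne, hyz.ne, rfl⟩, e] at r5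
      omega
    · have := claim2 hG hn IH h3 sub e (by
        refine le_trans (Set.ncard_pair hyz.ne).ge (Set.ncard_le_ncard ?_ (Set.toFinite _))
        rintro _ (rfl | rfl) <;> simp)
      omega
  · obtain ⟨φ, hφ⟩ := col_plus hG hn IH h3 (H := del G {x, y}) (fun _ _ k => k.1)
      ⟨x, a1.symm⟩ ⟨y, b1.symm⟩ ⟨y, hxy⟩ (fun ⟨_, k⟩ => k.2.1 (.inl rfl)) a1.ne b2.symm
    obtain ⟨s, t, s1, s2, s3, s4, s5⟩ := c5col (φ a) (φ b) (φ z) (hφ _ _ (.inr (CycA_edge hab)))
    refine two_last hn hxy.ne (hφ.mono le_sup_left) s1 (fun w k q => ?_) fun w k q => ?_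
    · rcases dx y z a w hxy hxz a1 k hyz.ne a2.symm a3.symm with e | e | e
      exacts [(q e).elim, e ▸ s3, e ▸ s2]
    · rcases dy x z b w hxy.symm hyz b1 k hxz.ne b2.symm b3.symm with e | e | e
      exacts [(q e).elim, e ▸ s5, e ▸ s4]

include hG hn IH h3 in
theorem claim6 {x y u v : V} (hxy : G.Adj x y) (hxu : G.Adj x u) (hxv : G.Adj x v) (h1 : y ≠ u)
    (h2 : y ≠ v) (huv : u ≠ v) (dx : D3 G x) (dy : D3 G y) : G.Adj u v := by
  classical
  by_contra hc
  have nb : ∀ v, v ∉ (⊥ : SimpleGraph V).support := fun _ ⟨_, k⟩ => k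
  let π : V → V := fun w => if w = v then u else w
  have π1 : π v = u := if_pos rfl
  have π2 : ∀ w, w ≠ v → π w = w := fun w hw => if_neg hw
  have π3 : ∀ a b, (del G {x, y}).Adj a b → π a ≠ π b := by
    intro a b k
    by_cases ha : a = v <;> by_cases hb : b = v
    · exact (k.ne (ha.trans hb.symm)).elim
    · rw [ha, π1, π2 b hb]
      exact fun e => hc (e ▸ ha ▸ k.1.symm)
    · rw [hb, π1, π2 a ha]
      exact fun e => hc (e ▸ hb ▸ k.1)
    · rw [π2 a ha, π2 b hb]
      exact k.ne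
  have hs : ∀ w ∈ (push (del G {x, y}) π).support, w ∈ G.support ∧ w ≠ x ∧ w ≠ y ∧ w ≠ v := by
    rintro _ ⟨_, -, a, b, k, rfl, -⟩
    by_cases ha : a = v
    · rw [ha, π1]
      exact ⟨⟨x, hxu.symm⟩, hxu.ne', h1.symm, huv⟩
    · rw [π2 a ha]
      exact ⟨⟨b, k.1⟩, fun e => k.2.1 (.inl e), fun e => k.2.1 (.inr e), ha⟩
  by_cases hcol : Col (push (del G {x, y}) π)
  · obtain ⟨φ, hφ⟩ := hcol
    obtain ⟨p, p1, p2, -⟩ := hG.third_nb ⟨x, hxy.symm⟩ (nb y) x x
    obtain ⟨q, q1, q2, q3⟩ := hG.third_nb ⟨x, hxy.symm⟩ (nb y) x p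
    obtain ⟨t, t1, t2⟩ := third (φ (π p)) (φ (π q))
    obtain ⟨s, s1, s2⟩ := third t (φ u)
    refine two_last hn hxy.ne (hφ.pull π3) s1 (fun w k r => ?_) fun w k r => ?_
    · rcases dx y u v w hxy hxu hxv k h1 h2 huv with e | e | e
      · exact (r e).elim
      · rw [e, π2 u huv]; exact s2
      · rw [e, π1]; exact s2
    · rcases dy x p q w hxy.symm p1 q1 k p2.symm q2.symm q3.symm with e | e | e
      exacts [(r e).elim, e ▸ t1, e ▸ t2]
  · obtain ⟨W, w1, w2, w3⟩ := IH _ (Set.ncard_lt_ncard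
      ⟨fun w k => (hs w k).1, fun k => (hs x (k ⟨y, hxy⟩)).2.1 rfl⟩ (Set.toFinite _)) hcol
    have w4 : 4 ≤ W.ncard := by
      by_contra k
      exact w2 (col_of_small (by omega))
    have hu : u ∈ W := by
      by_contra hu
      refine w2 ((col_on hG (R := {x}ᶜ) ⟨y, hxy⟩ fun k => k rfl).mono fun a b k => ?_)
      obtain ⟨⟨-, a, b, k, rfl, rfl⟩, ha, hb⟩ := k
      have ha' : a ≠ v := fun e => hu (by rwa [e, π1] at ha)
      have hb' : b ≠ v := fun e => hu (by rwa [e, π1] at hb)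
      rw [π2 a ha', π2 b hb']
      exact ⟨k.1, fun e => k.2.1 (.inl e), fun e => k.2.2 (.inl e)⟩
    have hv : v ∉ W := fun k => (hs v (w1 k)).2.2.2 rfl
    have e1 : ne (on (push (del G {x, y}) π) W) ≤ ne (on G (insert v W)) := by
      refine le_trans (Set.ncard_le_ncard (t := Sym2.map π '' (on G (insert v W)).edgeSet)
        (fun e he => ?_) (Set.toFinite _)) (Set.ncard_image_le (Set.toFinite _))
      induction e using Sym2.ind with
      | _ a b =>
        obtain ⟨⟨-, a, b, k, rfl, rfl⟩, ha, hb⟩ : (on (push (del G {x, y}) π) W).Adj a b := he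
        have pre : ∀ a, π a ∈ W → a ∈ insert v W := fun a ha => by
          by_cases e : a = v
          · exact .inl e
          · exact .inr (π2 a e ▸ ha)
        exact ⟨s(a, b), ⟨k.1, pre a ha, pre b hb⟩, rfl⟩
    have hx : x ∉ insert v W := by
      rintro (e | e)
      exacts [hxv.ne e, (hs x (w1 e)).2.1 rfl]
    have r1 := rho_insert (G := G) (N := {u, v}) hx
      (by rintro _ (rfl | rfl); exacts [.inr hu, .inl rfl])
      (by rintro _ (rfl | rfl); exacts [hxu, hxv])
    rw [Set.ncard_pair huv] at r1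
    have r2 := claim3 hG hn IH h3 (R := insert x (insert v W))
      (by
        rintro _ (rfl | rfl | k)
        exacts [⟨y, hxy⟩, ⟨x, hxv.symm⟩, (hs _ (w1 k)).1])
      (fun e => by
        have : y ∈ insert x (insert v W) := e ▸ ⟨x, hxy.symm⟩
        rcases this with k | k | k
        exacts [hxy.ne' k, h2 k, (hs y (w1 k)).2.2.1 rfl])
      (w4.trans ((Set.ncard_le_ncard_insert _ _).trans (Set.ncard_le_ncard_insert _ _)))
    have r3 := Set.ncard_insert_of_notMem hv (Set.toFinite _)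
    unfold rho at *
    omega

include hG hn IH h3 in
theorem claim7 {v : V} (hv : v ∈ G.support) (dv : D3 G v) :
    ∃ p q, p ≠ q ∧ G.Adj v p ∧ G.Adj v q ∧ ¬ D3 G p ∧ ¬ D3 G q := by
  have nb : ∀ v, v ∉ (⊥ : SimpleGraph V).support := fun _ ⟨_, k⟩ => k
  obtain ⟨a, ha⟩ := id hv
  obtain ⟨b, hb, b1, -⟩ := hG.third_nb hv (nb v) a a
  obtain ⟨c, hc, c1, c2⟩ := hG.third_nb hv (nb v) a b
  have key : ∀ a b c, G.Adj v a → G.Adj v b → G.Adj v c → a ≠ b → a ≠ c → b ≠ c → D3 G a →
      ∃ p q, p ≠ q ∧ G.Adj v p ∧ G.Adj v q ∧ ¬ D3 G p ∧ ¬ D3 G q := by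
    intro a b c ha hb hc h1 h2 h4 da
    have k := claim6 hG hn IH h3 ha hb hc h1 h2 h4 dv da
    exact ⟨b, c, h4, hb, hc, claim5 hG hn IH h3 hb hc k dv, claim5 hG hn IH h3 hc hb k.symm dv⟩
  by_cases da : D3 G a
  · exact key a b c ha hb hc b1.symm c1.symm c2.symm da
  · by_cases db : D3 G b
    · exact key b a c hb ha hc b1 c2.symm c1.symm db
    · exact ⟨a, b, b1.symm, ha, hb, da, db⟩

include hG hn IH h3 in
theorem KY_step : False := by
  classical
  have nb : ∀ v, v ∉ (⊥ : SimpleGraph V).support := fun _ ⟨_, k⟩ => k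
  let A := G.support.toFinset.filter (D3 G)
  let B := G.support.toFinset.filter fun v => ¬ D3 G v
  have d3 : ∀ v ∈ A, 3 ≤ G.degree v := by
    intro v hv
    have hv := Set.mem_toFinset.1 (Finset.mem_filter.1 hv).1
    obtain ⟨a, ha⟩ := id hv
    obtain ⟨b, hb, b1, -⟩ := hG.third_nb hv (nb v) a a
    obtain ⟨c, hc, c1, c2⟩ := hG.third_nb hv (nb v) a b
    rw [← SimpleGraph.card_neighborFinset_eq_degree,
      ← Finset.card_eq_three.2 ⟨a, b, c, b1.symm, c1.symm, c2.symm, rfl⟩]
    refine Finset.card_le_card fun w hw => ?_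
    simp only [Finset.mem_insert, Finset.mem_singleton] at hw
    rcases hw with rfl | rfl | rfl <;> simpa
  have d4 : ∀ v ∈ B, 4 ≤ G.degree v := by
    intro v hv
    have hv := (Finset.mem_filter.1 hv).2
    unfold D3 at hv
    push Not at hv
    obtain ⟨a, b, c, d, ha, hb, hc, hd, e1, e2, e3, e4, e5, e6⟩ := hv
    have : ({d, a, b, c} : Finset V).card = 4 := by
      rw [Finset.card_insert_of_notMem (by simp [e4, e5, e6]),
        Finset.card_eq_three.2 ⟨a, b, c, e1, e2, e3, rfl⟩]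
    rw [← SimpleGraph.card_neighborFinset_eq_degree, ← this]
    refine Finset.card_le_card fun w hw => ?_
    simp only [Finset.mem_insert, Finset.mem_singleton] at hw
    rcases hw with rfl | rfl | rfl | rfl <;> simpa
  have s1 : ∑ v ∈ A, G.degree v + ∑ v ∈ B, G.degree v = 2 * G.edgeFinset.card := by
    rw [Finset.sum_filter_add_sum_filter_not]
    exact G.sum_degrees_support_eq_twice_card_edges
  have s2 : A.card + B.card = G.support.toFinset.card := Finset.card_filter_add_card_filter_not _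
  have s3 : A.card * 3 ≤ ∑ v ∈ A, G.degree v := by
    simpa using Finset.card_nsmul_le_sum A _ 3 d3
  have s4 : B.card * 4 ≤ ∑ v ∈ B, G.degree v := by
    simpa using Finset.card_nsmul_le_sum B _ 4 d4
  have s5 : A.card * 2 ≤ ∑ v ∈ B, G.degree v := by
    have e := Finset.sum_card_bipartiteAbove_eq_sum_card_bipartiteBelow (s := A) (t := B) G.Adj
    have e1 : A.card * 2 ≤ ∑ a ∈ A, (B.bipartiteAbove G.Adj a).card := by
      rw [← smul_eq_mul]
      exact Finset.card_nsmul_le_sum A _ 2 fun v hv => by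
        obtain ⟨hv, dv⟩ := Finset.mem_filter.1 hv
        obtain ⟨p, q, h1, h2, h4, h5, h6⟩ := claim7 hG hn IH h3 (Set.mem_toFinset.1 hv) dv
        rw [← Finset.card_pair h1]
        refine Finset.card_le_card fun w hw => ?_
        simp only [Finset.mem_insert, Finset.mem_singleton] at hw
        rw [Finset.mem_bipartiteAbove]
        rcases hw with rfl | rfl
        · exact ⟨Finset.mem_filter.2 ⟨Set.mem_toFinset.2 ⟨v, h2.symm⟩, h5⟩, h2⟩
        · exact ⟨Finset.mem_filter.2 ⟨Set.mem_toFinset.2 ⟨v, h4.symm⟩, h6⟩, h4⟩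
    refine e1.trans (e ▸ Finset.sum_le_sum fun b _ => ?_)
    rw [← SimpleGraph.card_neighborFinset_eq_degree]
    refine Finset.card_le_card fun w hw => ?_
    simpa using ((Finset.mem_bipartiteBelow _).1 hw).2.symm
  unfold rho ne at h3
  rw [on_supp, Set.ncard_eq_toFinset_card' G.support, Set.ncard_eq_toFinset_card' G.edgeSet] at h3
  change 3 ≤ 5 * (G.support.toFinset.card : ℤ) - 3 * (G.edgeFinset.card : ℤ) at h3
  omega

end

theorem KY (G : SimpleGraph V) : KYs G := by
  induction h : nv G using Nat.strong_induction_on generalizing G with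
  | _ n ih =>
    intro hn
    obtain ⟨H, h1, h2, h3⟩ := exists_crit hn
    have h4 : nv H ≤ nv G := Set.ncard_le_ncard (SimpleGraph.support_mono h1) (Set.toFinite _)
    refine ⟨H.support, SimpleGraph.support_mono h1, fun k => h2 (k.mono ?_), ?_⟩
    · exact fun a b p => ⟨h1 p, ⟨b, p⟩, ⟨a, p.symm⟩⟩
    · refine (rho_mono h1 _).trans ?_
      by_contra hc
      exact KY_step h3 h2 (fun Y hY => ih _ (by omega) Y rfl) (by omega)

end Pool.Agent.KZ
end

-- merged part: Pool.Agent.Work.MP_5bd7f1_co.KZ.Zer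
section
/-! The face weight inequality for critical plane graphs. -/

set_option autoImplicit false
open Relation Pool.Agent.Pl

namespace Pool.Agent.KZ

variable {V : Type} [Fintype V] {G C S : SimpleGraph V}

omit [Fintype V] in
theorem two_ear (h : TwoConn C) (hS : C ≤ S)
    (hs : ∀ u ∈ S.support, u ∈ C.support ∨
      ∃ p ∈ C.support, ∃ q ∈ C.support, p ≠ q ∧ S.Adj u p ∧ S.Adj u q) : TwoConn S := by
  obtain ⟨a, ha, b, hb, c, hc, k⟩ := h.1
  refine ⟨⟨a, SimpleGraph.support_mono hS ha, b, SimpleGraph.support_mono hS hb, c,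
    SimpleGraph.support_mono hS hc, k⟩, fun x u v hu hv hux hvx => ?_⟩
  have key : ∀ u ∈ S.support, u ≠ x → ∃ p ∈ C.support, p ≠ x ∧
      ReflTransGen (fun s t => S.Adj s t ∧ s ≠ x ∧ t ≠ x) u p := by
    intro u hu hux
    rcases hs u hu with k | ⟨p, p1, q, q1, hpq, p2, q2⟩
    · exact ⟨u, k, hux, .refl⟩
    · by_cases e : p = x
      · exact ⟨q, q1, e ▸ hpq.symm, .single ⟨q2, hux, e ▸ hpq.symm⟩⟩
      · exact ⟨p, p1, e, .single ⟨p2, hux, e⟩⟩
  obtain ⟨p, p1, p2, p3⟩ := key u hu hux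
  obtain ⟨q, q1, q2, q3⟩ := key v hv hvx
  exact (p3.trans (rtg_mono (fun _ _ k => ⟨hS k.1, k.2⟩) (h.2 x p q p1 q1 p2 q2))).trans
    (rtg_symm (fun _ _ k => ⟨k.1.symm, k.2.2, k.2.1⟩) q3)

theorem ne_sup {u v : V} (h : u ≠ v) (hn : ¬ C.Adj u v) :
    ne (C ⊔ SimpleGraph.edge u v) = ne C + 1 := by
  unfold ne
  rw [← Set.ncard_insert_of_notMem (a := s(u, v)) hn]
  congr 1
  ext e
  induction e using Sym2.ind with
  | _ a b =>
    constructor
    · rintro (k | k)
      · exact .inr k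
      · exact .inl ((SimpleGraph.adj_edge ..).1 k).1.symm
    · rintro (k | k)
      · rw [k]
        exact .inr (CycA_edge h)
      · exact .inl k

omit [Fintype V] in
theorem edge_le {u v : V} (h : G.Adj u v) : SimpleGraph.edge u v ≤ G := by
  intro a b k
  rcases ((SimpleGraph.edge_adj ..).1 k).1 with ⟨rfl, rfl⟩ | ⟨rfl, rfl⟩
  exacts [h, h.symm]

theorem chord {D : Dual G} (IH : Bd V (mu G C)) (hH : Hyp D C) {u v : V} (hu : u ∈ C.support)
    (hv : v ∈ C.support) (h : G.Adj u v) (hn : ¬ C.Adj u v) : tot D ≤ B (ne C) := by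
  obtain ⟨-, hc, f, hf⟩ := hH.alt.resolve_left fun e => by
    obtain ⟨y, k⟩ := hu
    rw [e] at k
    exact k
  have s : (C ⊔ SimpleGraph.edge u v).support = C.support := by
    rw [CycA_sup, CycA_supp h.ne]
    exact Set.union_eq_left.2 (by rintro _ (rfl | rfl); exacts [hu, hv])
  refine three_faces IH hH hc hf (S := C ⊔ SimpleGraph.edge u v) (sup_le hH.le (edge_le h))
    le_sup_left (fun e => hn (e ▸ .inr (CycA_edge h.ne))) (two_ear hc.twoConn le_sup_left
      fun x hx => .inl (s ▸ hx)) ?_ (.inl (ne_sup h.ne hn))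
  rw [ne_sup h.ne hn, nv, s, cyc_ne_nv hc, nv]

theorem chord2 {D : Dual G} (IH : Bd V (mu G C)) (hH : Hyp D C) {a b c : V} (ha : a ∈ C.support)
    (hc : c ∈ C.support) (hb : b ∉ C.support) (hac : a ≠ c) (ab : G.Adj a b) (cb : G.Adj c b) :
    tot D ≤ B (ne C) := by
  obtain ⟨-, cy, f, hf⟩ := hH.alt.resolve_left fun e => by
    obtain ⟨y, k⟩ := ha
    rw [e] at k
    exact k
  have s : (C ⊔ SimpleGraph.edge a b ⊔ SimpleGraph.edge c b).support = insert b C.support := by
    rw [CycA_sup, CycA_sup, CycA_supp ab.ne, CycA_supp cb.ne]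
    ext x
    simp only [Set.mem_union, Set.mem_insert_iff, Set.mem_singleton_iff]
    grind
  have nb : ∀ z, (C ⊔ SimpleGraph.edge a b ⊔ SimpleGraph.edge c b).Adj b z → z = a ∨ z = c := by
    rintro z ((k | k) | k)
    · exact (hb ⟨z, k⟩).elim
    · rcases ((SimpleGraph.edge_adj ..).1 k).1 with ⟨p, -⟩ | ⟨-, p⟩
      exacts [(ab.ne' p).elim, .inl p]
    · rcases ((SimpleGraph.edge_adj ..).1 k).1 with ⟨p, -⟩ | ⟨-, p⟩
      exacts [(cb.ne' p).elim, .inr p]
  have n1 : ¬ C.Adj a b := fun k => hb ⟨a, k.symm⟩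
  have n2 : ¬ (C ⊔ SimpleGraph.edge a b).Adj c b := by
    rintro (k | k)
    · exact hb ⟨c, k.symm⟩
    · rcases ((SimpleGraph.edge_adj ..).1 k).1 with ⟨p, -⟩ | ⟨p, -⟩
      exacts [hac p.symm, cb.ne p]
  have e : ne (C ⊔ SimpleGraph.edge a b ⊔ SimpleGraph.edge c b) = ne C + 2 := by
    rw [ne_sup cb.ne n2, ne_sup ab.ne n1]
  obtain ⟨z, z1, z2, z3⟩ := hH.crit.third_nb ⟨a, ab.symm⟩ hb a c
  refine three_faces IH hH cy hf (S := C ⊔ SimpleGraph.edge a b ⊔ SimpleGraph.edge c b)
    (sup_le (sup_le hH.le (edge_le ab)) (edge_le cb)) (le_sup_left.trans le_sup_left)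
    (fun q => by rw [q] at e; omega) (two_ear cy.twoConn (le_sup_left.trans le_sup_left)
      fun x hx => ?_) ?_ (.inr ⟨e, b, z, z1, fun k => (nb z k).elim z2 z3⟩)
  · rw [s] at hx
    rcases hx with rfl | hx
    · exact .inr ⟨a, ha, c, hc, hac, .inl (.inr (CycA_edge ab.ne).symm),
        .inr (CycA_edge cb.ne).symm⟩
    · exact .inl hx
  · rw [e, nv, s, Set.ncard_insert_of_notMem hb, cyc_ne_nv cy, nv]

theorem sum_five (D : Dual G) (h : TwoConn G) :
    ∑ f ∈ fs D, ((len D f : ℤ) - 5) = rho G G.support - 10 := by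
  have e := euler D h
  rw [Finset.sum_sub_distrib, sum_len, Finset.sum_const, rho, on_supp]
  unfold nv at e
  simp only [nsmul_eq_mul]
  omega

theorem base {D : Dual G} (hH : Hyp D C) {ψ : V → Fin 3} (hψ : Prp C ψ) (hP : PCrit G C ψ)
    (nch : ∀ u ∈ C.support, ∀ v ∈ C.support, G.Adj u v → C.Adj u v)
    (n4 : ∀ g ∈ fs D, len D g = 4 → D.star g = C) : tot D ≤ B (ne C) := by
  classical
  have s5 := sum_five D hH.two
  rcases hH.alt with rfl | ⟨col, cy, f, hf⟩
  · obtain ⟨W, w1, w2, w3⟩ := KY G (hH.crit.not_col hH.ne)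
    have e : W = G.support := by
      by_contra e
      obtain ⟨v, v1, v2⟩ := exists_out w1 e
      exact w2 (col_on hH.crit v1 v2)
    rw [e] at w3
    have : tot D = ∑ f ∈ fs D, ((len D f : ℤ) - 5) := Finset.sum_congr rfl fun g hg =>
      if_neg fun k => mem_fs'.1 hg (n4 g hg k)
    have z : ne (⊥ : SimpleGraph V) = 0 := by simp [ne]
    rw [this, z, B, if_pos rfl]
    omega
  · have onC : on G C.support = C := by
      ext u v
      exact ⟨fun k => nch u k.2.1 v k.2.2 k.1, fun k => ⟨hH.le k, ⟨v, k⟩, ⟨u, k.symm⟩⟩⟩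
    have f1 : f ∈ fs D := mem_fs'.2 (hf ▸ cy.1)
    have l1 : len D f = ne C := by rw [len_eq D hH.two, hf]
    have l3 := l1 ▸ three_le_len D hH.two f1
    have nC := cyc_ne_nv cy
    obtain ⟨A, a1, a2, a3, -⟩ := Ylem (G := G) (R := C.support) (φ := ψ) (onC.symm ▸ hψ)
      (by unfold nv at nC; omega) (SimpleGraph.support_mono hH.le) hP.1 (col.mono (on_le _ _))
      fun Y _ => KY Y
    have e : A ∪ C.support = G.support := by
      refine Set.Subset.antisymm
        (Set.union_subset (fun _ k => (a1 k).1) (SimpleGraph.support_mono hH.le)) fun v ⟨y, k⟩ => ?_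
      by_contra n
      refine a2 (hP.2 _ (onC.ge.trans (on_mono le_rfl Set.subset_union_right)) (on_le _ _) fun q => ?_)
      have : (on G (A ∪ C.support)).Adj v y := q.symm ▸ k
      exact n this.2.1
    rw [e, rho.eq_1 G C.support, onC] at a3
    have t : ∑ g ∈ (fs D).erase f, w (len D g) = ∑ g ∈ (fs D).erase f, ((len D g : ℤ) - 5) :=
      Finset.sum_congr rfl fun g hg => if_neg fun k => by
        obtain ⟨g1, g2⟩ := Finset.mem_erase.1 hg
        exact hH.ne ((two_same D hH.two g1 g2 (by rw [n4 g g2 k, hf])).symm.trans hf)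
    rw [← Finset.add_sum_erase _ _ f1, l1] at s5
    have := W_base l3
    rw [tot, ← Finset.add_sum_erase _ _ f1, t, l1, B, if_neg (by omega)]
    unfold nv at nC
    omega

theorem sq_col : ∀ p q r s : Fin 3, p ≠ q → q ≠ r → r ≠ s → s ≠ p → p = r ∨ q = s := by decide

theorem four_face {D : Dual G} (IH : Bd V (mu G C)) (hH : Hyp D C) {ψ : V → Fin 3}
    (hψ : Prp C ψ) (hP : PCrit G C ψ)
    (nch : ∀ u ∈ C.support, ∀ v ∈ C.support, G.Adj u v → C.Adj u v) {g : D.Fc} (hg : g ∈ fs D)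
    (h4 : len D g = 4) (hn : D.star g ≠ C) : tot D ≤ B (ne C) := by
  have cy := D.star_isCyc hH.two g (mem_fs'.1 hg)
  obtain ⟨F, hF, eF⟩ := cyc_param cy
  rw [← len_eq D hH.two, h4] at hF
  have per : ∀ i, F (i + 4) = F i := fun i => (hF.2.2 _ _).2 (by simp)
  have face : ∀ k u v, (D.star g).Adj u v ↔ s(u, v) = s(F k, F (k + 1)) ∨
      s(u, v) = s(F (k + 2), F (k + 1)) ∨ s(u, v) = s(F k, F (k + 3)) ∨
        s(u, v) = s(F (k + 2), F (k + 3)) := by
    intro k u v
    have ad : ∀ i, (D.star g).Adj (F i) (F (i + 1)) := hF.2.1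
    constructor
    · intro h
      rw [← eF, CycA_adj hF] at h
      obtain ⟨i, h⟩ := h
      have e : s(u, v) = s(F i, F (i + 1)) := by
        rcases h with ⟨rfl, rfl⟩ | ⟨rfl, rfl⟩
        exacts [rfl, Sym2.eq_swap]
      have md : ∀ r : ℤ, (i - k) % 4 = r → F i = F (k + r) ∧ F (i + 1) = F (k + r + 1) :=
        fun r hr => ⟨(hF.2.2 _ _).2 (by push_cast; omega), (hF.2.2 _ _).2 (by push_cast; omega)⟩
      rw [e]
      rcases (by omega : (i - k) % 4 = 0 ∨ (i - k) % 4 = 1 ∨ (i - k) % 4 = 2 ∨ (i - k) % 4 = 3)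
        with r | r | r | r <;> rw [(md _ r).1, (md _ r).2]
      · exact .inl (by rw [add_zero])
      · exact .inr (.inl (by rw [Sym2.eq_swap, add_assoc]; rfl))
      · exact .inr (.inr (.inr (by rw [add_assoc]; rfl)))
      · exact .inr (.inr (.inl (by rw [Sym2.eq_swap, add_assoc, ← per k]; rfl)))
    · intro h
      change s(u, v) ∈ (D.star g).edgeSet
      rcases h with e | e | e | e <;> rw [e]
      · exact ad k
      · have := ad (k + 1)
        rw [add_assoc] at this
        exact this.symm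
      · have := ad (k + 3)
        rw [add_assoc, show (3 : ℤ) + 1 = 4 from rfl, per] at this
        exact this.symm
      · have := ad (k + 2)
        rwa [add_assoc] at this
  have n2 : ∀ k, F k ≠ F (k + 2) := fun k => (CycA_inj hF (by omega) (by push_cast; omega)).symm
  have n3 : ∀ k, F (k + 1) ≠ F (k + 3) :=
    fun k => (CycA_inj hF (by omega) (by push_cast; omega)).symm
  have key : ∀ k, ¬ G.Adj (F k) (F (k + 2)) →
      (C ≠ ⊥ → ∃ φ, Prp G φ ∧ φ (F k) = φ (F (k + 2))) → tot D ≤ B (ne C) := by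
    intro k nk ck
    have ab := ((face k _ _).2 (.inl rfl)).1
    have cb := ((face k _ _).2 (.inr (.inl rfl))).1
    have ad := ((face k _ _).2 (.inr (.inr (.inl rfl)))).1
    have cd := ((face k _ _).2 (.inr (.inr (.inr rfl)))).1
    by_cases hc : F (k + 2) ∈ C.support
    · by_cases ha : F k ∈ C.support
      · by_cases hb : F (k + 1) ∈ C.support
        · by_cases hd : F (k + 3) ∈ C.support
          · refine (hn (cyc_eq cy ((hH.alt.resolve_left fun e => ?_).2.1) fun u v h => ?_)).elim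
            · obtain ⟨y, q⟩ := ha
              rw [e] at q
              exact q
            · change s(u, v) ∈ C.edgeSet
              rcases (face k u v).1 h with e | e | e | e <;> rw [e]
              exacts [nch _ ha _ hb ab, nch _ hc _ hb cb, nch _ ha _ hd ad, nch _ hc _ hd cd]
          · exact chord2 IH hH ha hc hd (n2 k) ad cd
        · exact chord2 IH hH ha hc hb (n2 k) ab cb
      · refine four IH hH hψ hP h4 (a := F (k + 2)) (b := F (k + 1)) (c := F k) (d := F (k + 3))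
          (fun u v => ?_) (n2 k).symm (n3 k) (fun q => nk q.symm) ha
          fun q => (ck q).imp fun _ r => ⟨r.1, r.2.symm⟩
        rw [face k]
        (clear * - ck; tauto)
    · exact four IH hH hψ hP h4 (face k) (n2 k) (n3 k) nk hc ck
  rcases hH.alt with e | ⟨⟨φ, hφ⟩, -⟩
  · by_cases p : G.Adj (F 0) (F (0 + 2))
    · by_cases q : G.Adj (F 1) (F (1 + 2))
      · refine ((D.disc hH.two g (hF.mono (D.star_le g)) eF).no_cross (a := 0) (b := 1)
          (c := 0 + 2) (d := 1 + 2) (by omega) (by omega) (by omega) (by simp)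
          (A := {F 0, F (0 + 2)}) (B := {F 1, F (1 + 2)}) ?_
          (.single ⟨p, .inl rfl, .inr rfl⟩) (.single ⟨q, .inl rfl, .inr rfl⟩)).elim
        rw [Set.disjoint_left]
        rintro _ (rfl | rfl) (r | r) <;> have := (hF.2.2 _ _).1 r <;> omega
      · exact key 1 q fun k => (k e).elim
    · exact key 0 p fun k => (k e).elim
  · have ad : ∀ i, G.Adj (F i) (F (i + 1)) := fun i => (hF.2.1 i).1
    rcases sq_col (φ (F 0)) (φ (F 1)) (φ (F (0 + 2))) (φ (F (1 + 2))) (hφ _ _ (ad 0))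
      (hφ _ _ (by simpa using ad 1)) (hφ _ _ (by simpa using ad 2))
      (hφ _ _ (by simpa [← per 0] using ad 3)) with r | r
    · exact key 0 (fun q => hφ _ _ q r) fun _ => ⟨φ, hφ, r⟩
    · exact key 1 (fun q => hφ _ _ q r) fun _ => ⟨φ, hφ, r⟩

theorem step {D : Dual G} (IH : Bd V (mu G C)) (hH : Hyp D C) : tot D ≤ B (ne C) := by
  by_cases nch : ∀ u ∈ C.support, ∀ v ∈ C.support, G.Adj u v → C.Adj u v
  swap
  · push Not at nch
    obtain ⟨u, hu, v, hv, p, q⟩ := nch
    exact chord IH hH hu hv p q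
  obtain ⟨u, v, p, q⟩ := exists_edge hH.le hH.ne.symm
  obtain ⟨ψ, p1, p2⟩ := hH.crit u v p q
  have hψ : Prp C ψ := p1.mono (le_less hH.le q)
  obtain ⟨S, s1, s2, s3⟩ := exists_pcrit hH.le p2
  have SC : S ≠ C := fun e => s3.1 ⟨ψ, e ▸ hψ, fun _ _ => rfl⟩
  by_cases e : S = G
  · subst e
    by_cases n4 : ∀ g ∈ fs D, len D g = 4 → D.star g = C
    · exact base hH hψ s3 nch n4
    · push Not at n4
      obtain ⟨g, g1, g2, g3⟩ := n4
      exact four_face IH hH hψ s3 nch g1 g2 g3
  · obtain ⟨col, cy, f, hf⟩ := hH.alt.resolve_left fun k => by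
      subst k
      exact s3.1 (ext_bot.2 (hH.crit.col_lt s2 e))
    have hy : Hyp (sub D s2) C := ⟨s1, SC, s3.crit s1, .inr ⟨col.mono s2, cy, cl D S f,
      (star_sub D s2 (hf ▸ s1)).2.trans hf⟩⟩
    have lt : mu S C < mu G C := by
      obtain ⟨a, b, k1, k2⟩ := exists_edge s2 e
      refine Set.ncard_lt_ncard ⟨fun e he => ⟨SimpleGraph.edgeSet_mono s2 he.1, he.2⟩,
        fun k => k2 (k (show s(a, b) ∈ G.edgeSet \ C.edgeSet from ⟨k1, fun c => k2 (s1 c)⟩)).1⟩
        (Set.toFinite _)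
    refine le_trans ?_ (IH _ _ _ lt hy)
    unfold tot
    rw [sum_fs D s2 hH.two fun k => cy.1 (le_bot_iff.1 (k ▸ s1))]
    exact Finset.sum_le_sum fun K hK =>
      (mon IH hH s2 s1 SC hy.two hK fun k => (cy.1 k).elim).1

theorem bd_all (n : ℕ) : Bd V n := by
  induction n with
  | zero => exact fun _ _ _ h => absurd h (Nat.not_lt_zero _)
  | succ n ih => exact fun G C D h hH => step (fun G' C' D' k => ih G' C' D' (by omega)) hH

/-- the weights of the faces of a plane 4-critical graph add up to at most `-8` -/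
theorem zeroed (D : Dual G) (h : Crit G ⊥) (h0 : G ≠ ⊥) : tot D ≤ -8 := by
  have := bd_all _ G ⊥ D (Nat.lt_succ_self _) ⟨bot_le, h0, h, .inl rfl⟩
  rwa [show ne (⊥ : SimpleGraph V) = 0 by simp [ne], B, if_pos rfl] at this

end Pool.Agent.KZ
end

-- merged part: Pool.Agent.Work.MP_5bd7f1_co.KZ.Dis
section
/-! Discharging: triangles are paid by the faces beside them. -/

set_option autoImplicit false
open Relation Pool.Agent.Pl

namespace Pool.Agent.KZ

variable {V : Type} [Fintype V] {G H : SimpleGraph V}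

theorem cyc_walk {K : SimpleGraph V} (h : IsCyc K) (hK : K ≤ G) :
    ∃ (v : V) (p : G.Walk v v), p.IsCycle ∧ p.length = ne K ∧ K.edgeSet = {e | e ∈ p.edges} := by
  classical
  obtain ⟨a, b, hab⟩ := SimpleGraph.ne_bot_iff_exists_adj.1 h.1
  have hc : K.IsCycles := fun v hv => by
    obtain ⟨x, y, hxy, hw⟩ := h.2.1 v hv
    exact Set.ncard_eq_two.2 ⟨x, y, hxy, Set.ext hw⟩
  obtain ⟨p, hp, hv⟩ := hc.exists_cycle_toSubgraph_verts_eq_connectedComponentSupp
    (c := K.connectedComponentMk a) (v := a) rfl ⟨b, hab⟩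
  have e : K.edgeSet = {e | e ∈ p.edges} := by
    ext e
    refine ⟨fun he => ?_, fun he => p.edges_subset_edgeSet he⟩
    induction e using Sym2.ind with
    | _ u v =>
      have hu : u ∈ p.toSubgraph.verts := by
        rw [hv]
        exact SimpleGraph.ConnectedComponent.sound (h.2.2 u ⟨v, he⟩ a ⟨b, hab⟩)
      exact p.mem_edges_toSubgraph.1 ((hp.adj_toSubgraph_iff_of_isCycles hc hu v).2 he)
  refine ⟨a, p.mapLe hK, hp.mapLe hK, ?_, by simpa using e⟩
  rw [ne, e, show {e | e ∈ p.edges} = (p.edges.toFinset : Set (Sym2 V)) by ext; simp,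
    Set.ncard_coe_finset, List.toFinset_card_of_nodup hp.edges_nodup]
  simp

omit [Fintype V] in
theorem no_four (hd : ∀ s t : Finset V, G.IsNClique 3 s → G.IsNClique 3 t → s ≠ t → Disjoint s t)
    (h5 : ∀ (v : V) (p : G.Walk v v), p.IsCycle → p.length = 5 →
      ∀ s : Finset V, G.IsNClique 3 s → ∀ a ∈ s, ∀ b ∈ s, s(a, b) ∉ p.edges)
    {a b c d z : V} (ab : G.Adj a b) (bc : G.Adj b c) (cd : G.Adj c d) (da : G.Adj d a)
    (ac : a ≠ c) (bd : b ≠ d) (az : G.Adj a z) (bz : G.Adj b z) : False := by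
  classical
  have key : ∀ {a b c d : V}, G.Adj a b → G.Adj b c → G.Adj c d → G.Adj d a → b ≠ d →
      G.Adj a c → False := by
    intro a b c d ab bc cd da bd ac
    refine Finset.disjoint_left.1 (hd {a, b, c} {a, c, d}
      (SimpleGraph.is3Clique_triple_iff.2 ⟨ab, ac, bc⟩)
      (SimpleGraph.is3Clique_triple_iff.2 ⟨ac, da.symm, cd⟩) fun e => ?_)
      (show a ∈ _ by simp) (by simp)
    have : b ∈ ({a, c, d} : Finset V) := e ▸ by simp
    simp [ab.ne', bc.ne, bd] at this
  by_cases zc : z = c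
  · exact key ab bc cd da bd (zc ▸ az)
  by_cases zd : z = d
  · exact key bc cd da ab ac.symm (zd ▸ bz)
  refine h5 a (.cons az (.cons bz.symm (.cons bc (.cons cd (.cons da .nil))))) ?_ rfl {a, b, z}
    (SimpleGraph.is3Clique_triple_iff.2 ⟨ab, az, bz⟩) a (by simp) z (by simp) (by simp)
  have := ab.ne; have := bc.ne; have := cd.ne; have := da.ne; have := az.ne; have := bz.ne
  rw [SimpleGraph.Walk.cons_isCycle_iff, SimpleGraph.Walk.isPath_def]
  simp only [SimpleGraph.Walk.support_cons, SimpleGraph.Walk.support_nil, List.nodup_cons,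
    List.mem_cons, List.not_mem_nil, List.nodup_nil, SimpleGraph.Walk.edges_cons,
    SimpleGraph.Walk.edges_nil, Sym2.eq_iff]
  grind

theorem tri_face (D : Dual H) (h : TwoConn H) {t : D.Fc} (h3 : len D t = 3) :
    ∃ s : Finset V, H.IsNClique 3 s ∧ (∀ x, x ∈ s ↔ x ∈ (D.star t).support) ∧
      ∀ u ∈ s, ∀ v ∈ s, u ≠ v → (D.star t).Adj u v := by
  classical
  obtain ⟨F, hF, eF⟩ := cyc_param (D.star_isCyc h t (mem_fs'.1 (len_ne.1 (by omega))))
  rw [← len_eq D h, h3] at hF
  have a0 : (D.star t).Adj (F 0) (F 1) := hF.2.1 0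
  have a1 : (D.star t).Adj (F 1) (F 2) := hF.2.1 1
  have a2 : (D.star t).Adj (F 0) (F 2) := by
    have := hF.2.1 2
    rw [show F (2 + 1) = F 0 from (hF.2.2 _ _).2 (by simp)] at this
    exact this.symm
  refine ⟨{F 0, F 1, F 2}, SimpleGraph.is3Clique_triple_iff.2 ⟨a0.1, a2.1, a1.1⟩, fun x => ?_,
    fun u hu v hv huv => ?_⟩
  · rw [← eF, cycG_support hF]
    simp only [Finset.mem_insert, Finset.mem_singleton]
    constructor
    · rintro (rfl | rfl | rfl) <;> exact ⟨_, rfl⟩
    · rintro ⟨i, rfl⟩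
      rcases (by omega : i % 3 = 0 ∨ i % 3 = 1 ∨ i % 3 = 2) with r | r | r
      · exact .inl ((hF.2.2 _ _).2 (by push_cast; omega))
      · exact .inr (.inl ((hF.2.2 _ _).2 (by push_cast; omega)))
      · exact .inr (.inr ((hF.2.2 _ _).2 (by push_cast; omega)))
  · simp only [Finset.mem_insert, Finset.mem_singleton] at hu hv
    rcases hu with rfl | rfl | rfl <;> rcases hv with rfl | rfl | rfl
    exacts [(huv rfl).elim, a0, a2, a0.symm, (huv rfl).elim, a1, a2.symm, a1.symm, (huv rfl).elim]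

/-- the edges of a face with a triangular face on the other side -/
def tm (D : Dual H) (g : D.Fc) : SimpleGraph V where
  Adj u v := H.Adj u v ∧ ((D.l s(u, v) = g ∧ len D (D.r s(u, v)) = 3) ∨
    (D.r s(u, v) = g ∧ len D (D.l s(u, v)) = 3))
  symm := ⟨fun u v h => ⟨h.1.symm, by rw [Sym2.eq_swap (a := v)]; exact h.2⟩⟩
  loopless := ⟨fun _ h => H.loopless.irrefl _ h.1⟩

theorem tm_le (D : Dual H) (g : D.Fc) : tm D g ≤ D.star g :=
  fun _ _ h => ⟨h.1, h.2.imp And.left And.left⟩

theorem tm_spec (D : Dual H) (h : TwoConn H) {g : D.Fc} {u v : V} (k : (tm D g).Adj u v) :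
    ∃ t, t ≠ g ∧ len D t = 3 ∧ (D.star t).Adj u v ∧ s(D.l s(u, v), D.r s(u, v)) = s(g, t) := by
  have n := D.sides_ne h k.1
  rcases k.2 with ⟨p, q⟩ | ⟨p, q⟩
  · exact ⟨_, p ▸ n.symm, q, ⟨k.1, .inr rfl⟩, by rw [p]⟩
  · exact ⟨_, p ▸ n, q, ⟨k.1, .inl rfl⟩, by rw [p, Sym2.eq_swap]⟩

theorem sum_tm (D : Dual H) (h : TwoConn H) :
    ∑ g ∈ fs D, (ne (tm D g) : ℤ) = ∑ g ∈ fs D, if len D g = 3 then 3 else 0 := by
  classical
  have e1 := sum_mul_len D fun g => if len D g = 3 then 1 else 0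
  have e2 : ∀ g, (ne (tm D g) : ℤ) = ∑ e ∈ eF H,
      ((if D.l e = g then if len D (D.r e) = 3 then 1 else 0 else 0) +
        if D.r e = g then if len D (D.l e) = 3 then 1 else 0 else 0) := by
    intro g
    rw [← card_eF, Finset.card_eq_sum_ones, ← Finset.sum_subset (s₁ := eF (tm D g)) (s₂ := eF H)]
    · push_cast
      refine Finset.sum_congr rfl (eF_ind fun u v k => ?_)
      have n := D.sides_ne h k.1
      rcases k.2 with ⟨p, q⟩ | ⟨p, q⟩
      · rw [if_pos p, if_pos q, if_neg fun x => n (p.trans x.symm), add_zero]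
      · rw [if_pos p, if_pos q, if_neg fun x => n (x.trans p.symm), zero_add]
    · exact fun e he =>
        mem_eF.2 (SimpleGraph.edgeSet_mono ((tm_le D g).trans (D.star_le g)) (mem_eF.1 he))
    · refine eF_ind fun u v k hn => ?_
      have n : ¬ (tm D g).Adj u v := fun q => hn (mk_eF.2 q)
      have n1 : D.l s(u, v) = g → len D (D.r s(u, v)) ≠ 3 := fun p q => n ⟨k, .inl ⟨p, q⟩⟩
      have n2 : D.r s(u, v) = g → len D (D.l s(u, v)) ≠ 3 := fun p q => n ⟨k, .inr ⟨p, q⟩⟩
      split_ifs <;> simp_all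
  rw [Finset.sum_congr rfl fun g _ => e2 g, Finset.sum_comm,
    Finset.sum_congr rfl (g := fun g => (if len D g = 3 then (1 : ℤ) else 0) * len D g)
      fun g _ => by split_ifs with q <;> simp [q], e1]
  refine Finset.sum_congr rfl fun e he => ?_
  rw [Finset.sum_add_distrib, Finset.sum_ite_eq, Finset.sum_ite_eq, if_pos (l_fs D he),
    if_pos (r_fs D he), add_comm]

/-- the 6-cycles, as edge sets, with at least `k` edges on triangles -/
def hex (G : SimpleGraph V) (k : ℕ) : Set (Set (Sym2 V)) :=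
  {E | (∃ (v : V) (p : G.Walk v v), p.IsCycle ∧ p.length = 6 ∧ E = {e | e ∈ p.edges}) ∧
    k ≤ {e ∈ E | ∃ s : Finset V, G.IsNClique 3 s ∧ ∀ x ∈ e, x ∈ s}.ncard}

theorem main (hP : PD G)
    (hd : ∀ s t : Finset V, G.IsNClique 3 s → G.IsNClique 3 t → s ≠ t → Disjoint s t)
    (h5 : ∀ (v : V) (p : G.Walk v v), p.IsCycle → p.length = 5 →
      ∀ s : Finset V, G.IsNClique 3 s → ∀ a ∈ s, ∀ b ∈ s, s(a, b) ∉ p.edges)
    (h6 : (hex G 2).ncard + 2 * (hex G 3).ncard ≤ 23) : Col G := by
  classical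
  by_contra hn
  obtain ⟨H, hH, h1, h2⟩ := exists_crit hn
  obtain ⟨D⟩ := hP.mono hH
  have h0 : H ≠ ⊥ := fun e => h1 ⟨fun _ => 0, fun _ _ k => by rw [e] at k; exact k.elim⟩
  have two := h2.twoConn bot_le h0 (.inl rfl)
  have z := zeroed D h2 h0
  have nb : ∀ v, v ∉ (⊥ : SimpleGraph V).support := fun _ ⟨_, k⟩ => k
  have inj : ∀ g ∈ fs D, ∀ f, D.star g ≤ D.star f → g = f := by
    intro g hg f k
    by_contra n
    have e := two_same D two n hg k
    obtain ⟨a, b, ab⟩ := SimpleGraph.ne_bot_iff_exists_adj.1 h0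
    obtain ⟨x, y, -, hw⟩ := (D.star_isCyc two f (e.symm ▸ h0)).2.1 a (e.symm ▸ ⟨b, ab⟩)
    obtain ⟨u, u1, u2, u3⟩ := h2.third_nb ⟨b, ab⟩ (nb a) x y
    exact ((hw u).1 (e.symm ▸ u1)).elim u2 u3
  have uniq : ∀ t1 t2 x, len D t1 = 3 → len D t2 = 3 → x ∈ (D.star t1).support →
      x ∈ (D.star t2).support → t1 = t2 := by
    intro t1 t2 x p1 p2 x1 x2
    obtain ⟨s1, a1, b1, -⟩ := tri_face D two p1
    obtain ⟨s2, a2, b2, c2⟩ := tri_face D two p2
    have e : s1 = s2 := by
      by_contra n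
      exact Finset.disjoint_left.1 (hd s1 s2 (a1.mono hH) (a2.mono hH) n) ((b1 x).2 x1)
        ((b2 x).2 x2)
    subst e
    exact inj t1 (len_ne.1 (by omega)) t2 fun u v k =>
      c2 u ((b1 u).2 ⟨v, k⟩) v ((b1 v).2 ⟨u, k.symm⟩) k.ne
  have clq : ∀ g u v, (tm D g).Adj u v → ∃ s : Finset V, G.IsNClique 3 s ∧ u ∈ s ∧ v ∈ s := by
    intro g u v k
    obtain ⟨t, -, t2, t3, -⟩ := tm_spec D two k
    obtain ⟨s, a, b, -⟩ := tri_face D two t2
    exact ⟨s, a.mono hH, (b u).2 ⟨v, t3⟩, (b v).2 ⟨u, t3.symm⟩⟩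
  have nz : ∀ g, (∀ u v, ¬ (tm D g).Adj u v) → ne (tm D g) = 0 := fun g k => by
    rw [show tm D g = ⊥ from eq_bot_iff.2 k]
    simp [ne]
  have half : ∀ g ∈ fs D, 2 * ne (tm D g) ≤ len D g := by
    intro g hg
    have s := (tm D g).sum_degrees_support_eq_twice_card_edges
    have s2 := Finset.sum_le_card_nsmul (tm D g).support.toFinset (fun v => (tm D g).degree v) 1
      fun y _ => by
        rw [← SimpleGraph.card_neighborFinset_eq_degree, Finset.card_le_one]
        intro x hx z hz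
        rw [SimpleGraph.mem_neighborFinset] at hx hz
        by_contra n
        obtain ⟨t1, -, p2, p3, p4⟩ := tm_spec D two hx
        obtain ⟨t2, -, q2, q3, q4⟩ := tm_spec D two hz
        obtain rfl := uniq t1 t2 y p2 q2 ⟨x, p3⟩ ⟨z, q3⟩
        obtain ⟨u, u1, u2, u3⟩ := h2.third_nb ⟨x, hx.1⟩ (nb y) x z
        exact deg_two D two hx.1 hz.1 u1 u2 u3 n (p4.trans q4.symm)
    have s3 := Set.ncard_le_ncard (SimpleGraph.support_mono (tm_le D g)) (Set.toFinite _)
    rw [len_eq D two, cyc_ne_nv (D.star_isCyc two g (mem_fs'.1 hg)), nv]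
    rw [Set.ncard_eq_toFinset_card' (tm D g).support] at s3
    rw [ne, Set.ncard_eq_toFinset_card' (tm D g).edgeSet]
    change 2 * (tm D g).edgeFinset.card ≤ _
    rw [smul_eq_mul] at s2
    omega
  have face : ∀ g ∈ fs D, -((if (D.star g).edgeSet ∈ hex G 2 then 1 else 0) +
      2 * if (D.star g).edgeSet ∈ hex G 3 then 1 else 0) ≤
      3 * w (len D g) + 2 * (if len D g = 3 then 3 else 0) - 2 * (ne (tm D g) : ℤ) := by
    intro g hg
    have cy := D.star_isCyc two g (mem_fs'.1 hg)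
    have t3 := three_le_len D two hg
    have hf := half g hg
    obtain ⟨v, p, p1, p2, p3⟩ := cyc_walk cy ((D.star_le g).trans hH)
    rw [← len_eq D two] at p2
    by_cases e3 : len D g = 3
    · rw [nz g fun u v k => by
        obtain ⟨t, t1, t2, t4, -⟩ := tm_spec D two k
        exact t1 (uniq t g u t2 e3 ⟨v, t4⟩ ⟨v, tm_le D g k⟩), e3, w]
      split_ifs <;> omega
    by_cases e4 : len D g = 4
    · rw [nz g fun u v k => ?_, e4, w]
      · split_ifs <;> omega
      obtain ⟨F, hF, eF⟩ := cyc_param cy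
      rw [← len_eq D two, e4] at hF
      obtain ⟨s, s1, s2, s3⟩ := clq g u v k
      have ad : ∀ i, G.Adj (F i) (F (i + 1)) := fun i => hH (hF.2.1 i).1
      have key : ∀ i, F i ∈ s → F (i + 1) ∈ s → False := by
        intro i i1 i2
        obtain ⟨z, z1, z2⟩ : ∃ z ∈ s, z ∉ ({F i, F (i + 1)} : Finset V) := by
          refine Finset.exists_mem_notMem_of_card_lt_card ?_
          rw [s1.2]
          exact Nat.lt_succ_of_le Finset.card_le_two
        simp only [Finset.mem_insert, Finset.mem_singleton, not_or] at z2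
        refine no_four hd h5 (ad i) (ad (i + 1)) (ad (i + 1 + 1)) ?_
          (CycA_inj hF (by omega) (by push_cast; omega)).symm
          (CycA_inj hF (by omega) (by push_cast; omega)).symm
          (s1.1 i1 z1 (Ne.symm z2.1)) (s1.1 i2 z1 (Ne.symm z2.2))
        have := ad (i + 1 + 1 + 1)
        rwa [show F (i + 1 + 1 + 1 + 1) = F i from (hF.2.2 _ _).2 (by push_cast; omega)] at this
      have k' := tm_le D g k
      rw [← eF, CycA_adj hF] at k'
      obtain ⟨i, ⟨rfl, rfl⟩ | ⟨rfl, rfl⟩⟩ := k'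
      exacts [key i s2 s3, key i s3 s2]
    by_cases e5 : len D g = 5
    · rw [nz g fun u v k => ?_, e5, w]
      · split_ifs <;> omega
      obtain ⟨s, s1, s2, s3⟩ := clq g u v k
      refine h5 _ p p1 (p2.trans e5) s s1 u s2 v s3 ?_
      have : s(u, v) ∈ (D.star g).edgeSet := tm_le D g k
      rwa [p3] at this
    rw [w, if_neg e4, if_neg e3]
    by_cases e6 : len D g = 6
    · have hx : ∀ k, k ≤ ne (tm D g) → (D.star g).edgeSet ∈ hex G k := by
        refine fun k hk => ⟨⟨v, p, p1, p2.trans e6, p3⟩, hk.trans (Set.ncard_le_ncard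
          (fun e he => ?_) (Set.toFinite _))⟩
        induction e using Sym2.ind with
        | _ a b =>
          obtain ⟨s, s1, s2, s3⟩ := clq g a b he
          refine ⟨tm_le D g he, s, s1, fun x hx => ?_⟩
          rcases Sym2.mem_iff.1 hx with rfl | rfl
          exacts [s2, s3]
      have x2 := hx 2
      have x3 := hx 3
      split_ifs with q2 q3 q3
      · omega
      · have : ¬ 3 ≤ ne (tm D g) := fun k => q3 (x3 k)
        omega
      · have : ¬ 2 ≤ ne (tm D g) := fun k => q2 (x2 k)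
        omega
      · have : ¬ 2 ≤ ne (tm D g) := fun k => q2 (x2 k)
        omega
    · split_ifs <;> omega
  have cnt : ∀ k, ∑ g ∈ fs D, (if (D.star g).edgeSet ∈ hex G k then (1 : ℤ) else 0) ≤
      (hex G k).ncard := by
    intro k
    rw [Finset.sum_boole, ← Set.ncard_coe_finset]
    refine Int.ofNat_le.2 (Set.ncard_le_ncard_of_injOn (fun g => (D.star g).edgeSet)
      (fun g hg => (Finset.mem_filter.1 hg).2) (fun g hg f _ e => ?_) (Set.toFinite _))
    exact inj g (Finset.mem_filter.1 hg).1 f (SimpleGraph.edgeSet_injective e).le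
  have s := Finset.sum_le_sum face
  rw [Finset.sum_sub_distrib, Finset.sum_add_distrib, ← Finset.mul_sum, ← Finset.mul_sum,
    ← Finset.mul_sum, sum_tm D two, Finset.sum_neg_distrib, Finset.sum_add_distrib,
    ← Finset.mul_sum] at s
  have c2 := cnt 2
  have c3 := cnt 3
  unfold tot at z
  omega

end Pool.Agent.KZ
end
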